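import Pool.Agent.Q168.MgA

set_option autoImplicit false
open Set Topology Filter

namespace Pool.Agent.Q168.AchA

open Pool.Agent.Q168.MgA

/-- partial sums of the subseries along `B` -/
noncomputable def pt (x : ℕ → ℝ) (B : Set ℕ) (N : ℕ) : ℝ :=
  ∑ n ∈ Finset.range N, B.indicator x n

/-- the subseries along `B` converges to `s` -/
def HasS (x : ℕ → ℝ) (B : Set ℕ) (s : ℝ) : Prop := Tendsto (pt x B) atTop (𝓝 s)

/-- sums of the convergent subseries along members of the family `J` -/
def Ach (J : Set (Set ℕ)) (x : ℕ → ℝ) : Set ℝ := {s | ∃ B ∈ J, HasS x B s}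

/-- the family is invariant under finite changes -/
def Tail (J : Set (Set ℕ)) : Prop :=
  ∀ (B B' : Set ℕ) (n : ℕ), B ∈ J → (∀ k, n ≤ k → (k ∈ B' ↔ k ∈ B)) → B' ∈ J

lemma tail_univ : Tail univ := fun _ _ _ _ _ => trivial

/-- `C` below `n` and `B` from `n` on -/
def splice (C B : Set ℕ) (n : ℕ) : Set ℕ := {k | (k < n ∧ k ∈ C) ∨ (n ≤ k ∧ k ∈ B)}

lemma splice_mem {J : Set (Set ℕ)} (hJ : Tail J) {B : Set ℕ} (hB : B ∈ J) (C : Set ℕ) (n : ℕ) :
    splice C B n ∈ J := by
  refine hJ B _ n hB fun k hk => ?_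
  constructor
  · rintro (⟨h1, _⟩ | ⟨_, h2⟩)
    · omega
    · exact h2
  · intro h
    exact Or.inr ⟨hk, h⟩

lemma pt_splice_le (x : ℕ → ℝ) (C B : Set ℕ) (n : ℕ) : pt x (splice C B n) n = pt x C n := by
  unfold pt
  apply Finset.sum_congr rfl
  intro k hk
  have hk' := Finset.mem_range.1 hk
  by_cases h : k ∈ C
  · rw [indicator_of_mem h, indicator_of_mem]
    exact Or.inl ⟨hk', h⟩
  · rw [indicator_of_notMem h, indicator_of_notMem]
    rintro (⟨_, h2⟩ | ⟨h1, _⟩)
    · exact h h2
    · omega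

lemma pt_succ (x : ℕ → ℝ) (B : Set ℕ) (n : ℕ) : pt x B (n + 1) = pt x B n + B.indicator x n := by
  unfold pt
  rw [Finset.sum_range_succ]

lemma pt_splice (x : ℕ → ℝ) (C B : Set ℕ) (n N : ℕ) (h : n ≤ N) :
    pt x (splice C B n) N = pt x B N - pt x B n + pt x C n := by
  induction N, h using Nat.le_induction with
  | base => rw [pt_splice_le]; ring
  | succ N hN ih =>
    rw [pt_succ, ih, pt_succ]
    have : (splice C B n).indicator x N = B.indicator x N := by
      by_cases hb : N ∈ B
      · rw [indicator_of_mem hb, indicator_of_mem]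
        exact Or.inr ⟨hN, hb⟩
      · rw [indicator_of_notMem hb, indicator_of_notMem]
        rintro (⟨h1, _⟩ | ⟨_, h2⟩)
        · omega
        · exact hb h2
    rw [this]
    ring

lemma hasS_splice {x : ℕ → ℝ} {B : Set ℕ} {s : ℝ} (h : HasS x B s) (C : Set ℕ) (n : ℕ) :
    HasS x (splice C B n) (s - pt x B n + pt x C n) := by
  have h1 : Tendsto (fun N => pt x B N - pt x B n + pt x C n) atTop
      (𝓝 (s - pt x B n + pt x C n)) := (h.sub_const _).add_const _
  refine h1.congr' ?_
  filter_upwards [eventually_ge_atTop n] with N hN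
  rw [pt_splice x C B n N hN]

lemma cover {x : ℕ → ℝ} {J : Set (Set ℕ)} (hJ : Tail J) {O : Set ℝ} (hO : IsOpen O) {w s : ℝ}
    (hw : w ∈ Ach univ x) (hwO : w ∈ O) (hs : s ∈ Ach J x) :
    ∃ (n : ℕ) (B C : Set ℕ), s - (pt x B n - pt x C n) ∈ Ach J x ∩ O := by
  obtain ⟨C, _, hC⟩ := hw
  obtain ⟨B, hBJ, hB⟩ := hs
  have h1 : Tendsto (fun n => s - (pt x B n - pt x C n)) atTop (𝓝 (s - (s - w))) :=
    tendsto_const_nhds.sub (hB.sub hC)
  rw [sub_sub_cancel] at h1
  obtain ⟨n, hn⟩ := (h1.eventually (hO.mem_nhds hwO)).exists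
  refine ⟨n, B, C, ⟨splice C B n, splice_mem hJ hBJ C n, ?_⟩, hn⟩
  have := hasS_splice hB C n
  rwa [show s - pt x B n + pt x C n = s - (pt x B n - pt x C n) by ring] at this

open Classical in
lemma pt_finset (x : ℕ → ℝ) (B : Set ℕ) (n : ℕ) :
    pt x B n = ∑ k ∈ (Finset.range n).filter (· ∈ B), x k := by
  unfold pt
  rw [Finset.sum_filter]
  apply Finset.sum_congr rfl
  intro k _
  by_cases h : k ∈ B
  · rw [indicator_of_mem h, if_pos h]
  · rw [indicator_of_notMem h, if_neg h]

lemma ach_sub (J : Set (Set ℕ)) (x : ℕ → ℝ) : Ach J x ⊆ Ach univ x := by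
  rintro s ⟨B, _, hB⟩
  exact ⟨B, trivial, hB⟩

/-- the regular case -/
lemma regular {x : ℕ → ℝ} {J : Set (Set ℕ)} (hJ : Tail J)
    (hreg : Ach univ x ⊆ closure (interior (Ach univ x))) {O : Set ℝ} (hO : IsOpen O)
    (hne : (O ∩ Ach univ x).Nonempty) (h : Mg (Ach univ x) (Ach J x ∩ O)) :
    Mg (Ach univ x) (Ach J x) := by
  classical
  have h1 : Mg univ (Ach J x ∩ O) := mg_to_univ (inter_subset_left.trans (ach_sub J x)) h
  apply mg_of_univ hreg
  obtain ⟨w, hw1, hw2⟩ := hne
  have h2 : Ach J x ⊆ ⋃ p : Finset ℕ × Finset ℕ,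
      {a | a - (∑ k ∈ p.1, x k - ∑ k ∈ p.2, x k) ∈ Ach J x ∩ O} := by
    intro s hs
    obtain ⟨n, B, C, hn⟩ := cover hJ hO hw2 hw1 hs
    rw [pt_finset, pt_finset] at hn
    exact mem_iUnion.2 ⟨((Finset.range n).filter (· ∈ B), (Finset.range n).filter (· ∈ C)), hn⟩
  exact Mg.mono (mg_iUnion fun p => mg_univ_translate _ h1) h2

/-! ### Conditionally convergent series -/

/-- the greedy partial sums -/
noncomputable def gr (x : ℕ → ℝ) (t : ℝ) : ℕ → ℝ
  | 0 => 0
  | n + 1 => gr x t n + open Classical in if 0 < x n * (t - gr x t n) then x n else 0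

lemma gr_pt (x : ℕ → ℝ) (t : ℝ) (n : ℕ) : pt x {k | 0 < x k * (t - gr x t k)} n = gr x t n := by
  induction n with
  | zero => simp [pt, gr]
  | succ n ih =>
    rw [pt_succ, ih, gr]
    congr 1

lemma gr_mono {x : ℕ → ℝ} {t σ : ℝ} (hσ : σ * σ = 1) {n₀ : ℕ}
    (h : ∀ n, n₀ ≤ n → 0 < σ * (t - gr x t n)) (N : ℕ) (hN : n₀ ≤ N) :
    σ * gr x t N = σ * gr x t n₀ + (∑ n ∈ Finset.range N, max (σ * x n) 0
      - ∑ n ∈ Finset.range n₀, max (σ * x n) 0) := by
  induction N, hN using Nat.le_induction with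
  | base => ring
  | succ N hN ih =>
    rw [Finset.sum_range_succ, gr, mul_add, ih]
    have h1 := h N hN
    have h2 : x N * (t - gr x t N) = (σ * x N) * (σ * (t - gr x t N)) := by
      calc x N * (t - gr x t N) = (σ * σ) * (x N * (t - gr x t N)) := by rw [hσ, one_mul]
        _ = _ := by ring
    have h3 : σ * (if 0 < x N * (t - gr x t N) then x N else 0) = max (σ * x N) 0 := by
      split_ifs with hc
      · rw [h2] at hc
        rw [max_eq_left (pos_of_mul_pos_left hc h1.le).le]
      · rw [h2] at hc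
        rw [max_eq_right, mul_zero]
        by_contra hcc
        push Not at hcc
        exact hc (mul_pos hcc h1)
    have h4 : σ * (open Classical in if 0 < x N * (t - gr x t N) then x N else 0)
        = max (σ * x N) 0 := by
      convert h3
    rw [h4]
    ring

lemma ach_eq_univ {x : ℕ → ℝ} (hx : ∃ L, HasS x univ L) (hns : ¬ Summable x) :
    Ach univ x = univ := by
  obtain ⟨L, hL⟩ := hx
  have hpt : pt x univ = fun N => ∑ n ∈ Finset.range N, x n := by
    funext N
    unfold pt
    simp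
  rw [HasS, hpt] at hL
  have hx0 : Tendsto x atTop (𝓝 0) := by
    have h1 := (hL.comp (tendsto_add_atTop_nat 1)).sub hL
    rw [sub_self] at h1
    refine h1.congr fun n => ?_
    simp only [Function.comp]
    rw [Finset.sum_range_succ]
    ring
  obtain ⟨C, hC⟩ := (isBounded_iff_forall_norm_le.1 (Metric.isBounded_range_of_tendsto _ hL))
  have hbd : ∀ N, |∑ n ∈ Finset.range N, x n| ≤ C := fun N => hC _ ⟨N, rfl⟩
  -- both parts are unbounded
  have hunb : ∀ σ : ℝ, (σ = 1 ∨ σ = -1) → ∀ K : ℝ, ∃ N,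
      K < ∑ n ∈ Finset.range N, max (σ * x n) 0 := by
    intro σ hσ K
    by_contra hc
    push Not at hc
    apply hns
    have s1 : Summable fun n => max (σ * x n) 0 :=
      summable_of_sum_range_le (fun n => le_max_right _ _) hc
    have s2 : Summable fun n => max (-(σ * x n)) 0 := by
      refine summable_of_sum_range_le (c := K + C) (fun n => le_max_right _ _) fun N => ?_
      have e : ∑ n ∈ Finset.range N, max (-(σ * x n)) 0
          = ∑ n ∈ Finset.range N, max (σ * x n) 0 - σ * ∑ n ∈ Finset.range N, x n := by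
        rw [Finset.mul_sum, ← Finset.sum_sub_distrib]
        apply Finset.sum_congr rfl
        intro n _
        rcases le_total 0 (σ * x n) with h | h
        · rw [max_eq_left h, max_eq_right (by linarith)]; ring
        · rw [max_eq_right h, max_eq_left (by linarith)]; ring
      rw [e]
      have h1 := hc N
      have h2 := abs_le.1 (hbd N)
      rcases hσ with rfl | rfl
      · linarith [h2.1]
      · linarith [h2.2]
    have s3 := (s1.sub s2).mul_left σ
    refine s3.congr fun n => ?_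
    have hσσ : σ * σ = 1 := by rcases hσ with rfl | rfl <;> norm_num
    have e2 : max (σ * x n) 0 - max (-(σ * x n)) 0 = σ * x n := by
      rcases le_total 0 (σ * x n) with h | h
      · rw [max_eq_left h, max_eq_right (by linarith)]; ring
      · rw [max_eq_right h, max_eq_left (by linarith)]; ring
    rw [e2, ← mul_assoc, hσσ, one_mul]
  rw [eq_univ_iff_forall]
  intro t
  refine ⟨{k | 0 < x k * (t - gr x t k)}, trivial, ?_⟩
  rw [HasS, show pt x {k | 0 < x k * (t - gr x t k)} = gr x t from funext (gr_pt x t),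
    Metric.tendsto_atTop]
  intro ε hε
  obtain ⟨n₀, hn₀⟩ := (Metric.tendsto_atTop.1 hx0) ε hε
  have hx1 : ∀ n, n₀ ≤ n → |x n| < ε := by
    intro n hn
    have := hn₀ n hn
    rwa [Real.dist_eq, sub_zero] at this
  -- one step
  have hstep : ∀ n, gr x t (n + 1) = gr x t n ∨
      (0 < x n * (t - gr x t n) ∧ gr x t (n + 1) = gr x t n + x n) := by
    intro n
    rw [gr]
    by_cases h : 0 < x n * (t - gr x t n)
    · right
      exact ⟨h, by rw [if_pos h]⟩
    · left
      rw [if_neg h, add_zero]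
  have hstab : ∀ n, n₀ ≤ n → |t - gr x t n| < ε → |t - gr x t (n + 1)| < ε := by
    intro n hn h
    rcases hstep n with h1 | ⟨h1, h2⟩
    · rwa [h1]
    · rw [h2]
      have h3 := abs_lt.1 (hx1 n hn)
      have h4 := abs_lt.1 h
      rw [abs_lt]
      rcases pos_and_pos_or_neg_and_neg_of_mul_pos h1 with ⟨a, b⟩ | ⟨a, b⟩
      · constructor <;> linarith [h3.1, h3.2, h4.1, h4.2]
      · constructor <;> linarith [h3.1, h3.2, h4.1, h4.2]
  have hex : ∃ n, n₀ ≤ n ∧ |t - gr x t n| < ε := by
    by_contra hc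
    push Not at hc
    obtain ⟨σ, hσ, hσ0⟩ : ∃ σ : ℝ, (σ = 1 ∨ σ = -1) ∧ ε ≤ σ * (t - gr x t n₀) := by
      have h0 := hc n₀ le_rfl
      rcases le_total 0 (t - gr x t n₀) with h | h
      · rw [abs_of_nonneg h] at h0
        exact ⟨1, Or.inl rfl, by linarith⟩
      · rw [abs_of_nonpos h] at h0
        exact ⟨-1, Or.inr rfl, by linarith⟩
    have hσσ : σ * σ = 1 := by rcases hσ with rfl | rfl <;> norm_num
    have hall : ∀ n, n₀ ≤ n → ε ≤ σ * (t - gr x t n) := by
      intro n hn
      induction n, hn using Nat.le_induction with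
      | base => exact hσ0
      | succ n hn ih =>
        have h1 := abs_lt.1 (hx1 n hn)
        have h2 := hc (n + 1) (by omega)
        have h3 : 0 < σ * (t - gr x t (n + 1)) := by
          rcases hstep n with h4 | ⟨h4, h5⟩
          · rw [h4]; linarith
          · rw [h5]
            rcases hσ with rfl | rfl
            · linarith [h1.2]
            · linarith [h1.1]
        have h6 : |t - gr x t (n + 1)| = σ * (t - gr x t (n + 1)) := by
          rcases hσ with rfl | rfl
          · rw [abs_of_pos (by linarith)]; ring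
          · rw [abs_of_neg (by linarith)]; ring
        rw [← h6]
        exact h2
    obtain ⟨N, hN⟩ := hunb σ hσ (σ * t - σ * gr x t n₀ + ∑ n ∈ Finset.range n₀, max (σ * x n) 0)
    have hNn : ∑ n ∈ Finset.range N, max (σ * x n) 0
        ≤ ∑ n ∈ Finset.range (max N n₀), max (σ * x n) 0 := by
      apply Finset.sum_le_sum_of_subset_of_nonneg
      · intro k hk
        exact Finset.mem_range.2 (lt_of_lt_of_le (Finset.mem_range.1 hk) (le_max_left _ _))
      · intro k _ _
        exact le_max_right _ _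
    have h7 := gr_mono hσσ (fun n hn => lt_of_lt_of_le hε (hall n hn)) (max N n₀)
      (le_max_right _ _)
    have h8 := hall (max N n₀) (le_max_right _ _)
    nlinarith
  obtain ⟨n₁, hn₁, hn₁'⟩ := hex
  refine ⟨n₁, fun n hn => ?_⟩
  rw [Real.dist_eq, abs_sub_comm]
  induction n, hn using Nat.le_induction with
  | base => exact hn₁'
  | succ n hn ih => exact hstab n (by omega) ih

end Pool.Agent.Q168.AchA
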