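import Pool.Agent.Q168.AchA

set_option autoImplicit false
open Set Topology Filter

namespace Pool.Agent.Q168.AchB

open Pool.Agent.Q168.MgA Pool.Agent.Q168.AchA

/-- the sum of the subseries along `B` -/
noncomputable def S (y : ℕ → ℝ) (B : Set ℕ) : ℝ := ∑' n, B.indicator y n

/-- the tail of the sequence -/
def tl (n : ℕ) (x : ℕ → ℝ) : ℕ → ℝ := fun k => if n ≤ k then x k else 0

lemma tl_abs_le (n : ℕ) (x : ℕ → ℝ) (k : ℕ) : |tl n x k| ≤ |x k| := by
  unfold tl
  split_ifs
  · exact le_rfl
  · simp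

lemma tl_summable {x : ℕ → ℝ} (hx : Summable x) (n : ℕ) : Summable (tl n x) := by
  refine Summable.of_norm_bounded (g := fun k => |x k|) hx.abs fun k => ?_
  exact tl_abs_le n x k

lemma hasS_iff {x : ℕ → ℝ} (hx : Summable x) (B : Set ℕ) (s : ℝ) : HasS x B s ↔ S x B = s := by
  have h : HasS x B (S x B) := (hx.indicator B).hasSum.tendsto_sum_nat
  constructor
  · intro h'
    exact tendsto_nhds_unique h h'
  · rintro rfl
    exact h

lemma pt_tl (x : ℕ → ℝ) (B : Set ℕ) (n N : ℕ) (h : n ≤ N) :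
    pt (tl n x) B N = pt x B N - pt x B n := by
  induction N, h using Nat.le_induction with
  | base =>
    rw [sub_self]
    unfold pt
    apply Finset.sum_eq_zero
    intro k hk
    have hk' := Finset.mem_range.1 hk
    by_cases hb : k ∈ B
    · rw [indicator_of_mem hb, tl, if_neg (by omega)]
    · rw [indicator_of_notMem hb]
  | succ N hN ih =>
    rw [pt_succ, ih, pt_succ]
    have : B.indicator (tl n x) N = B.indicator x N := by
      by_cases hb : N ∈ B
      · rw [indicator_of_mem hb, indicator_of_mem hb, tl, if_pos hN]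
      · rw [indicator_of_notMem hb, indicator_of_notMem hb]
    rw [this]
    ring

lemma S_split {x : ℕ → ℝ} (hx : Summable x) (B : Set ℕ) (n : ℕ) :
    S x B = pt x B n + S (tl n x) B := by
  have h1 := (hasS_iff (tl_summable hx n) B _).2 rfl
  have h2 := (hasS_iff hx B _).2 rfl
  have h3 : Tendsto (fun N => pt x B N - pt x B n) atTop (𝓝 (S x B - pt x B n)) :=
    h2.sub_const _
  have h4 : Tendsto (fun N => pt x B N - pt x B n) atTop (𝓝 (S (tl n x) B)) := by
    refine Tendsto.congr' ?_ h1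
    filter_upwards [eventually_ge_atTop n] with N hN
    exact pt_tl x B n N hN
  have h5 := tendsto_nhds_unique h3 h4
  linarith

lemma S_splice {x : ℕ → ℝ} (hx : Summable x) (C B : Set ℕ) (n : ℕ) :
    S x (splice C B n) = pt x C n + S (tl n x) B := by
  have h1 := hasS_splice ((hasS_iff hx B _).2 rfl) C n
  rw [(hasS_iff hx _ _).1 h1, S_split hx B n]
  ring

lemma compact_range {y : ℕ → ℝ} (hy : Summable y) : IsCompact (range (S y)) := by
  have h1 : range (S y) = range (fun b : ℕ → Bool => ∑' k, if b k then y k else 0) := by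
    ext s
    constructor
    · rintro ⟨B, rfl⟩
      classical
      refine ⟨fun k => decide (k ∈ B), ?_⟩
      unfold S
      apply tsum_congr
      intro k
      by_cases h : k ∈ B
      · simp [h]
      · simp [h]
    · rintro ⟨b, rfl⟩
      refine ⟨{k | b k = true}, ?_⟩
      unfold S
      apply tsum_congr
      intro k
      by_cases h : b k = true
      · rw [indicator_of_mem (by exact h), if_pos h]
      · rw [indicator_of_notMem (by exact h), if_neg h]
  rw [h1]
  apply isCompact_range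
  apply continuous_tsum (u := fun k => |y k|)
  · intro k
    exact (continuous_of_discreteTopology (f := fun c : Bool => if c then y k else 0)).comp
      (continuous_apply k)
  · exact hy.abs
  · intro k b
    split_ifs
    · exact le_rfl
    · simp

lemma ach_eq {x : ℕ → ℝ} (hx : Summable x) : Ach univ x = range (S x) := by
  ext s
  constructor
  · rintro ⟨B, _, hB⟩
    exact ⟨B, (hasS_iff hx B s).1 hB⟩
  · rintro ⟨B, hB⟩
    exact ⟨B, trivial, (hasS_iff hx B s).2 hB⟩

/-- the bound for the tails -/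
lemma S_tl_abs {x : ℕ → ℝ} (hx : Summable x) (n : ℕ) (B : Set ℕ) :
    |S (tl n x) B| ≤ S (tl n (fun k => |x k|)) univ := by
  unfold S
  have h1 : Summable fun k => ‖B.indicator (tl n x) k‖ := ((tl_summable hx n).indicator B).abs
  refine (norm_tsum_le_tsum_norm h1).trans ?_
  refine h1.tsum_le_tsum (fun k => ?_) ((tl_summable hx.abs n).indicator univ)
  rw [indicator_univ, Real.norm_eq_abs]
  by_cases hb : k ∈ B
  · rw [indicator_of_mem hb]
    unfold tl
    split_ifs
    · exact le_rfl
    · simp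
  · rw [indicator_of_notMem hb]
    unfold tl
    split_ifs <;> simp

lemma tail_tendsto {x : ℕ → ℝ} (hx : Summable x) :
    Tendsto (fun n => S (tl n (fun k => |x k|)) univ) atTop (𝓝 0) := by
  have h1 : ∀ n, S (tl n (fun k => |x k|)) univ
      = S (fun k => |x k|) univ - pt (fun k => |x k|) univ n := by
    intro n
    rw [S_split hx.abs univ n]
    ring
  have h2 := (hasS_iff hx.abs univ _).2 rfl
  have h3 : Tendsto (fun n => S (fun k => |x k|) univ - pt (fun k => |x k|) univ n) atTop
      (𝓝 (S (fun k => |x k|) univ - S (fun k => |x k|) univ)) := tendsto_const_nhds.sub h2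
  rw [sub_self] at h3
  exact h3.congr fun n => (h1 n).symm

lemma tail_interior {x : ℕ → ℝ} (hx : Summable x) (h : (interior (range (S x))).Nonempty) (m : ℕ) :
    (interior (range (S (tl m x)))).Nonempty := by
  classical
  by_contra hc
  rw [not_nonempty_iff_eq_empty] at hc
  have h1 : range (S x) ⊆ ⋃ F : Finset ℕ, {a | a - ∑ k ∈ F, x k ∈ range (S (tl m x))} := by
    rintro _ ⟨B, rfl⟩
    refine mem_iUnion.2 ⟨(Finset.range m).filter (· ∈ B), ⟨B, ?_⟩⟩
    rw [S_split hx B m, pt_finset]
    ring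
  have h2 : IsMeagre (range (S x)) := by
    refine IsMeagre.mono h1 (isMeagre_iUnion fun F => IsNowhereDense.isMeagre ?_)
    have hcl : IsClosed {a | a - ∑ k ∈ F, x k ∈ range (S (tl m x))} :=
      (compact_range (tl_summable hx m)).isClosed.preimage (by fun_prop)
    rw [hcl.isNowhereDense_iff, eq_empty_iff_forall_notMem]
    intro a ha
    have : a - ∑ k ∈ F, x k ∈ interior (range (S (tl m x))) := by
      rw [mem_interior]
      refine ⟨{b | b + ∑ k ∈ F, x k ∈ interior {a | a - ∑ k ∈ F, x k ∈ range (S (tl m x))}},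
        ?_, ?_, ?_⟩
      · intro b hb
        have := interior_subset (show b + ∑ k ∈ F, x k ∈ interior _ from hb)
        simpa using this
      · exact isOpen_interior.preimage (by fun_prop)
      · simpa using ha
    rw [hc] at this
    exact this
  exact not_isMeagre_of_isOpen isOpen_interior h (h2.mono interior_subset)

lemma reg_of_interior {x : ℕ → ℝ} (hx : Summable x) (h : (interior (range (S x))).Nonempty) :
    range (S x) ⊆ closure (interior (range (S x))) := by
  rintro _ ⟨B, rfl⟩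
  rw [Metric.mem_closure_iff]
  intro ε hε
  have h1 := (tail_tendsto hx).eventually (gt_mem_nhds (show (0 : ℝ) < ε / 3 by linarith))
  obtain ⟨m, hm⟩ := h1.exists
  obtain ⟨τ, hτ⟩ := tail_interior hx h m
  obtain ⟨C, hC⟩ := interior_subset hτ
  refine ⟨pt x B m + τ, ?_, ?_⟩
  · rw [mem_interior]
    refine ⟨{a | a - pt x B m ∈ interior (range (S (tl m x)))}, ?_, ?_, ?_⟩
    · intro a ha
      obtain ⟨D, hD⟩ := interior_subset (show a - pt x B m ∈ interior _ from ha)
      refine ⟨splice B D m, ?_⟩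
      rw [S_splice hx, hD]
      ring
    · exact isOpen_interior.preimage (by fun_prop)
    · simpa using hτ
  · rw [Real.dist_eq, S_split hx B m, ← hC]
    have h2 := S_tl_abs hx m B
    have h3 := S_tl_abs hx m C
    have h4 := abs_le.1 h2
    have h5 := abs_le.1 h3
    rw [abs_lt]
    constructor <;> linarith [h4.1, h4.2, h5.1, h5.2]

/-! ### Gaps -/

/-- `g` is a point of the set with a gap to its left -/
def Gap (x : ℕ → ℝ) (g : ℝ) : Prop :=
  g ∈ range (S x) ∧ ∃ ε : ℝ, 0 < ε ∧ ∀ a ∈ range (S x), a < g → a ≤ g - ε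

/-- the smallest tail sum -/
noncomputable def mu (x : ℕ → ℝ) (n : ℕ) : ℝ := S (tl n x) {k | x k < 0}

lemma mu_le {x : ℕ → ℝ} (hx : Summable x) (n : ℕ) (B : Set ℕ) : mu x n ≤ S (tl n x) B := by
  unfold mu S
  refine ((tl_summable hx n).indicator _).tsum_le_tsum (fun k => ?_) ((tl_summable hx n).indicator B)
  by_cases h1 : x k < 0
  · rw [indicator_of_mem (by exact h1)]
    by_cases hb : k ∈ B
    · rw [indicator_of_mem hb]
    · rw [indicator_of_notMem hb]
      unfold tl
      split_ifs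
      · exact h1.le
      · exact le_rfl
  · rw [indicator_of_notMem (by exact h1)]
    by_cases hb : k ∈ B
    · rw [indicator_of_mem hb]
      unfold tl
      split_ifs
      · exact not_lt.1 h1
      · exact le_rfl
    · rw [indicator_of_notMem hb]

/-- tail sums along members of the family -/
def TJ (J : Set (Set ℕ)) (x : ℕ → ℝ) (n : ℕ) : Set ℝ := {t | ∃ B ∈ J, t = S (tl n x) B}

lemma germ {x : ℕ → ℝ} (hx : Summable x) {g : ℝ} (hg : Gap x g) :
    ∀ᶠ n in atTop, ∀ᶠ a in 𝓝 g, ∀ J : Set (Set ℕ), Tail J →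
      (a ∈ Ach J x ↔ a - g + mu x n ∈ TJ J x n) := by
  classical
  obtain ⟨⟨B₀, hB₀⟩, ε, hε, hgap⟩ := hg
  have h1 := (tail_tendsto hx).eventually (gt_mem_nhds (show (0 : ℝ) < ε / 2 by linarith))
  filter_upwards [h1] with n hn
  -- the tail of a representation of `g` is minimal
  have hkey : ∀ B, S x B = g → S (tl n x) B = mu x n := by
    intro B hB
    have h2 := mu_le hx n B
    have h3 : S x (splice B {k | x k < 0} n) = g - S (tl n x) B + mu x n := by
      rw [S_splice hx, ← hB, S_split hx B n]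
      unfold mu
      ring
    by_contra hne
    have hlt : mu x n < S (tl n x) B := lt_of_le_of_ne h2 (Ne.symm hne)
    have h4 := hgap _ ⟨_, h3⟩ (by linarith)
    have h5 := abs_le.1 (S_tl_abs hx n B)
    have h6 := abs_le.1 (S_tl_abs hx n {k | x k < 0})
    have h7 : mu x n = S (tl n x) {k | x k < 0} := rfl
    linarith [h5.1, h5.2, h6.1, h6.2]
  -- near `g` only one initial sum occurs
  have hnear : ∀ᶠ a in 𝓝 g, ∀ F ∈ (Finset.range n).powerset, ∑ k ∈ F, x k ≠ g - mu x n →
      a - ∑ k ∈ F, x k ∉ range (S (tl n x)) := by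
    rw [Filter.eventually_all_finset]
    intro F hF
    by_cases hc : ∑ k ∈ F, x k = g - mu x n
    · exact Filter.Eventually.of_forall fun a h => absurd hc h
    · have hcl : IsClosed {a | a - ∑ k ∈ F, x k ∈ range (S (tl n x))} :=
        (compact_range (tl_summable hx n)).isClosed.preimage (by fun_prop)
      have hng : g ∈ {a | a - ∑ k ∈ F, x k ∈ range (S (tl n x))}ᶜ := by
        rintro ⟨C, hC⟩
        apply hc
        have hpt : pt x (↑F : Set ℕ) n = ∑ k ∈ F, x k := by
          rw [pt_finset]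
          congr 1
          ext k
          simp only [Finset.mem_filter, Finset.mem_coe]
          exact ⟨fun h => h.2, fun h => ⟨Finset.mem_powerset.1 hF h, h⟩⟩
        have h2 : S x (splice (↑F : Set ℕ) C n) = g := by
          rw [S_splice hx, hpt, hC]
          ring
        have h3 := hkey _ h2
        have h4 := S_split hx (splice (↑F : Set ℕ) C n) n
        rw [h2, h3, pt_splice_le, hpt] at h4
        linarith
      filter_upwards [hcl.isOpen_compl.mem_nhds hng] with a ha _
      exact ha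
  filter_upwards [hnear] with a ha J hJ
  constructor
  · rintro ⟨B, hBJ, hB⟩
    have h2 := (hasS_iff hx B a).1 hB
    have h3 := S_split hx B n
    rw [pt_finset] at h3
    by_cases hc : ∑ k ∈ (Finset.range n).filter (· ∈ B), x k = g - mu x n
    · refine ⟨B, hBJ, ?_⟩
      rw [h2, hc] at h3
      linarith
    · exfalso
      refine ha _ (Finset.mem_powerset.2 (Finset.filter_subset _ _)) hc ⟨B, ?_⟩
      rw [h2] at h3
      linarith
  · rintro ⟨B, hBJ, hB⟩
    refine ⟨splice B₀ B n, splice_mem hJ hBJ _ _, (hasS_iff hx _ _).2 ?_⟩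
    rw [S_splice hx, ← hB]
    have h3 := S_split hx B₀ n
    rw [hB₀, hkey B₀ hB₀] at h3
    linarith

lemma trans {x : ℕ → ℝ} (hx : Summable x) {g g' : ℝ} (hg : Gap x g) (hg' : Gap x g') :
    ∃ δ > 0, ∀ J : Set (Set ℕ), Tail J → ∀ a : ℝ, |a| < δ →
      (g + a ∈ Ach J x ↔ g' + a ∈ Ach J x) := by
  obtain ⟨n, h1, h2⟩ := ((germ hx hg).and (germ hx hg')).exists
  obtain ⟨δ₁, hδ₁, H1⟩ := Metric.eventually_nhds_iff.1 h1
  obtain ⟨δ₂, hδ₂, H2⟩ := Metric.eventually_nhds_iff.1 h2
  refine ⟨min δ₁ δ₂, lt_min hδ₁ hδ₂, fun J hJ a ha => ?_⟩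
  have e1 := @H1 (g + a) (by rw [Real.dist_eq]; simpa using lt_of_lt_of_le ha (min_le_left _ _)) J hJ
  have e2 := @H2 (g' + a) (by rw [Real.dist_eq]; simpa using lt_of_lt_of_le ha (min_le_right _ _)) J hJ
  rw [e1, e2]
  simp only [add_sub_cancel_left]

lemma gap_dense {x : ℕ → ℝ} (hx : Summable x) (hint : interior (range (S x)) = ∅)
    {O : Set ℝ} (hO : IsOpen O) (hne : (O ∩ range (S x)).Nonempty) : ∃ g ∈ O, Gap x g := by
  obtain ⟨w, hw1, hw2⟩ := hne
  obtain ⟨ε, hε, hball⟩ := Metric.isOpen_iff.1 hO w hw1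
  obtain ⟨z, hz1, hz2⟩ : ∃ z ∈ Ioo (w - ε) w, z ∉ range (S x) := by
    by_contra hc
    push Not at hc
    have : w - ε / 2 ∈ interior (range (S x)) :=
      mem_interior.2 ⟨Ioo (w - ε) w, hc, isOpen_Ioo, by constructor <;> linarith⟩
    rw [hint] at this
    exact this
  have hcomp : IsCompact (range (S x) ∩ Icc z w) := (compact_range hx).inter_right isClosed_Icc
  obtain ⟨g, ⟨hg1, hg2⟩, hg3⟩ := hcomp.exists_isLeast ⟨w, hw2, hz1.2.le, le_rfl⟩
  have hgz : z < g := lt_of_le_of_ne hg2.1 (fun h => hz2 (h ▸ hg1))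
  refine ⟨g, hball ?_, hg1, g - z, by linarith, ?_⟩
  · rw [Metric.mem_ball, Real.dist_eq, abs_lt]
    constructor <;> linarith [hz1.1, hz1.2, hg2.2]
  · intro a ha hag
    by_contra hc
    push Not at hc
    have := hg3 ⟨ha, by constructor <;> linarith [hg2.2]⟩
    linarith

lemma gap_case {x : ℕ → ℝ} (hx : Summable x) (hint : interior (range (S x)) = ∅)
    {J : Set (Set ℕ)} (hJ : Tail J) {O : Set ℝ} (hO : IsOpen O)
    (hne : (O ∩ Ach univ x).Nonempty) (h : Mg (Ach univ x) (Ach J x ∩ O)) :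
    Mg (Ach univ x) (Ach J x) := by
  rw [ach_eq hx] at hne
  obtain ⟨g, hgO, hg⟩ := gap_dense hx hint hO hne
  obtain ⟨ε, hε, hball⟩ := Metric.isOpen_iff.1 hO g hgO
  have hloc : ∀ g', Gap x g' → ∃ δ > 0, Mg (Ach univ x) (Ach J x ∩ Metric.ball g' δ) := by
    intro g' hg'
    obtain ⟨δ, hδ, H⟩ := trans hx hg hg'
    refine ⟨min δ ε, lt_min hδ hε, ?_⟩
    have h1 : Mg (Ach univ x) (Ach J x ∩ Metric.ball g (min δ ε)) := by
      refine h.mono (inter_subset_inter_right _ ?_)
      exact (Metric.ball_subset_ball (min_le_right _ _)).trans hball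
    refine mg_trans (τ := g' - g) Metric.isOpen_ball ?_ ?_ ?_ h1
    · intro a
      rw [Metric.mem_ball, Metric.mem_ball, Real.dist_eq, Real.dist_eq]
      rw [show a - (g' - g) - g = a - g' by ring]
    · intro a ha
      rw [Metric.mem_ball, Real.dist_eq] at ha
      have := H univ tail_univ (a - g) (lt_of_lt_of_le ha (min_le_left _ _))
      rw [show g + (a - g) = a by ring, show g' + (a - g) = a + (g' - g) by ring] at this
      exact this
    · intro a ha
      rw [Metric.mem_ball, Real.dist_eq] at ha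
      have := H J hJ (a - g) (lt_of_lt_of_le ha (min_le_left _ _))
      rw [show g + (a - g) = a by ring, show g' + (a - g) = a + (g' - g) by ring] at this
      exact this
  choose! δ hδ hMg using hloc
  obtain ⟨T, hT1, hT2⟩ := TopologicalSpace.isOpen_iUnion_countable
    (fun p : {g' : ℝ // Gap x g'} => Metric.ball (p : ℝ) (δ p)) (fun _ => Metric.isOpen_ball)
  have hT3 : Countable T := hT1.to_subtype
  have hM1 : Mg (Ach univ x) (⋃ p : T, Ach J x ∩ Metric.ball ((p : {g' : ℝ // Gap x g'}) : ℝ)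
      (δ (p : {g' : ℝ // Gap x g'}))) := mg_iUnion fun p => hMg _ (p : {g' : ℝ // Gap x g'}).2
  have hM2 : ND (Ach univ x) (⋃ p : {g' : ℝ // Gap x g'}, Metric.ball (p : ℝ) (δ p))ᶜ := by
    intro V hV hVne
    rw [ach_eq hx] at hVne
    obtain ⟨g', hg'V, hg'⟩ := gap_dense hx hint hV hVne
    refine ⟨V ∩ Metric.ball g' (δ g'), hV.inter Metric.isOpen_ball, inter_subset_left,
      ⟨g', ⟨hg'V, Metric.mem_ball_self (hδ g' hg')⟩, ?_⟩, ?_⟩
    · rw [ach_eq hx]
      exact hg'.1
    · rw [eq_empty_iff_forall_notMem]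
      rintro c ⟨⟨⟨_, c2⟩, _⟩, c4⟩
      exact c4 (mem_iUnion.2 ⟨⟨g', hg'⟩, c2⟩)
  refine Mg.mono (hM1.union hM2.mg) ?_
  intro a ha
  by_cases hc : a ∈ ⋃ p : {g' : ℝ // Gap x g'}, Metric.ball (p : ℝ) (δ p)
  · left
    rw [← hT2] at hc
    obtain ⟨p, hp, hp2⟩ := mem_iUnion₂.1 hc
    exact mem_iUnion.2 ⟨⟨p, hp⟩, ha, hp2⟩
  · right
    exact hc

/-- **The zero-one law.** -/
theorem zero_one {x : ℕ → ℝ} (hx : ∃ L, HasS x univ L) {J : Set (Set ℕ)} (hJ : Tail J)
    (hB : BaireMeasurableSet ((↑) ⁻¹' (Ach J x) : Set (Ach univ x))) :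
    IsMeagre ((↑) ⁻¹' (Ach J x) : Set (Ach univ x)) ∨
      ((↑) ⁻¹' (Ach J x) : Set (Ach univ x)) ∈ residual (Ach univ x) := by
  refine reduction (ach_sub J x) ?_ hB
  intro O hO hne h
  by_cases hs : Summable x
  · by_cases hint : (interior (range (S x))).Nonempty
    · refine regular hJ ?_ hO hne h
      rw [ach_eq hs]
      exact reg_of_interior hs hint
    · exact gap_case hs (not_nonempty_iff_eq_empty.1 hint) hJ hO hne h
  · refine regular hJ ?_ hO hne h
    rw [ach_eq_univ hx hs]
    simp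

end Pool.Agent.Q168.AchB
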