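import Mathlib

/-! Riesz bases of exponentials for measures carried by finitely many segments: a reduction to
operators on `L²` of the circle. -/

open MeasureTheory Set Filter Complex AddCircle
open scoped Real ENNReal NNReal

noncomputable section

namespace Pool.Agent.Q168.Riesz

/-- `E(Λ) = {e λ : λ ∈ Λ}` is a Riesz basis of `L²(μ)`: two-sided bounds for finite linear
combinations, and density of the linear span. -/
def IsRieszBasis {V : Type*} [MeasurableSpace V] (e : V → V → ℂ) (μ : Measure V) (Λ : Set V) :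
    Prop :=
  (∃ A B : ℝ, 0 < A ∧ ∀ c : V →₀ ℂ, (c.support : Set V) ⊆ Λ →
    A * ∑ l ∈ c.support, ‖c l‖ ^ 2 ≤ ∫ x, ‖∑ l ∈ c.support, c l * e l x‖ ^ 2 ∂μ ∧
    ∫ x, ‖∑ l ∈ c.support, c l * e l x‖ ^ 2 ∂μ ≤ B * ∑ l ∈ c.support, ‖c l‖ ^ 2) ∧
  ∀ f : V → ℂ, MemLp f 2 μ → ∀ ε : ℝ, 0 < ε → ∃ c : V →₀ ℂ, (c.support : Set V) ⊆ Λ ∧
    ∫ x, ‖f x - ∑ l ∈ c.support, c l * e l x‖ ^ 2 ∂μ < ε

/-! ### The circle -/

/-- the circle -/
abbrev Cir := AddCircle (1 : ℝ)

/-- normalised Haar measure on the circle -/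
abbrev hm : Measure Cir := haarAddCircle

/-- `L²` of the circle -/
abbrev H := Lp ℂ 2 hm

lemma hm_eq_volume : hm = (volume : Measure Cir) := by
  rw [volume_eq_smul_haarAddCircle]
  simp

/-- the representative in `(t, t+1]` -/
def rep (t : ℝ) (x : Cir) : ℝ := (equivIoc 1 t x : ℝ)

lemma rep_mem (t : ℝ) (x : Cir) : rep t x ∈ Ioc t (t + 1) := (equivIoc 1 t x).2

lemma coe_rep (t : ℝ) (x : Cir) : ((rep t x : ℝ) : Cir) = x := coe_equivIoc

lemma rep_coe (t : ℝ) {y : ℝ} (hy : y ∈ Ioc t (t + 1)) : rep t (y : Cir) = y := by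
  unfold rep
  exact equivIoc_coe_of_mem hy

lemma measurable_rep (t : ℝ) : Measurable (rep t) :=
  measurable_subtype_coe.comp (measurableEquivIoc 1 t).measurable

lemma map_rep (t : ℝ) : Measure.map (rep t) hm = volume.restrict (Ioc t (t + 1)) := by
  rw [hm_eq_volume]
  have h1 : Measure.map (measurableEquivIoc 1 t) (volume : Measure Cir) =
      Measure.comap Subtype.val volume :=
    (AddCircle.measurePreserving_equivIoc (1 : ℝ) (a := t)).map_eq
  have h2 : rep t = (Subtype.val : Ioc t (t + 1) → ℝ) ∘ (measurableEquivIoc 1 t) := rfl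
  rw [h2, ← Measure.map_map measurable_subtype_coe (measurableEquivIoc 1 t).measurable, h1,
    map_comap_subtype_coe measurableSet_Ioc]

lemma measurePreserving_rep (t : ℝ) :
    MeasurePreserving (rep t) hm (volume.restrict (Ioc t (t + 1))) :=
  ⟨measurable_rep t, map_rep t⟩

/-! ### Operators -/

lemma mp_zsmul (m : ℤ) (hm0 : m ≠ 0) : MeasurePreserving (fun x : Cir => m • x) hm hm :=
  Measure.measurePreserving_zsmul hm hm0

lemma mp_add (h : Cir) : MeasurePreserving (fun x : Cir => x + h) hm hm :=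
  measurePreserving_add_right hm h

/-- composition with `x ↦ m x` -/
def comp (m : ℤ) (hm0 : m ≠ 0) : H →ₗᵢ[ℂ] H := Lp.compMeasurePreservingₗᵢ ℂ _ (mp_zsmul m hm0)

/-- composition with `x ↦ x + h` -/
def trans (h : Cir) : H →ₗᵢ[ℂ] H := Lp.compMeasurePreservingₗᵢ ℂ _ (mp_add h)

lemma coe_comp (m : ℤ) (hm0 : m ≠ 0) (f : H) :
    (comp m hm0 f : Cir → ℂ) =ᵐ[hm] fun x => f (m • x) :=
  Lp.coeFn_compMeasurePreserving f (mp_zsmul m hm0)

lemma coe_trans (h : Cir) (f : H) : (trans h f : Cir → ℂ) =ᵐ[hm] fun x => f (x + h) :=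
  Lp.coeFn_compMeasurePreserving f (mp_add h)

/-- a bounded measurable function -/
structure Bd where
  /-- the function -/
  f : Cir → ℂ
  /-- the bound -/
  C : ℝ
  meas : Measurable f
  bound : ∀ x, ‖f x‖ ≤ C

lemma Bd.C_nonneg (φ : Bd) : 0 ≤ φ.C := (norm_nonneg _).trans (φ.bound 0)

lemma memLp_mul (φ : Bd) (g : H) : MemLp (fun x => φ.f x * g x) 2 hm := by
  refine MemLp.of_le_mul (c := φ.C) (Lp.memLp g) ?_ ?_
  · exact φ.meas.aestronglyMeasurable.mul (Lp.memLp g).1
  · filter_upwards with x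
    rw [norm_mul]
    gcongr
    exact φ.bound x

/-- multiplication by a bounded function -/
def mul (φ : Bd) : H →ₗ[ℂ] H where
  toFun g := (memLp_mul φ g).toLp _
  map_add' g h := by
    apply Lp.ext
    filter_upwards [(memLp_mul φ (g + h)).coeFn_toLp, Lp.coeFn_add ((memLp_mul φ g).toLp _)
      ((memLp_mul φ h).toLp _), (memLp_mul φ g).coeFn_toLp, (memLp_mul φ h).coeFn_toLp,
      Lp.coeFn_add g h] with x h1 h2 h3 h4 h5
    rw [h1, h2, Pi.add_apply, h3, h4, h5, Pi.add_apply, mul_add]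
  map_smul' a g := by
    apply Lp.ext
    filter_upwards [(memLp_mul φ (a • g)).coeFn_toLp, Lp.coeFn_smul a ((memLp_mul φ g).toLp _),
      (memLp_mul φ g).coeFn_toLp, Lp.coeFn_smul a g] with x h1 h2 h3 h4
    rw [RingHom.id_apply, h1, h2, Pi.smul_apply, h3, h4, Pi.smul_apply, smul_eq_mul, smul_eq_mul]
    ring

lemma coe_mul (φ : Bd) (g : H) : (mul φ g : Cir → ℂ) =ᵐ[hm] fun x => φ.f x * g x :=
  (memLp_mul φ g).coeFn_toLp

lemma norm_sq_eq (g : H) : ‖g‖ ^ 2 = ∫ x, ‖g x‖ ^ 2 ∂hm := by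
  have h := MeasureTheory.L2.inner_def (𝕜 := ℂ) g g
  rw [inner_self_eq_norm_sq_to_K] at h
  have h2 : ∫ x, inner ℂ (g x) (g x) ∂hm = ((∫ x, ‖g x‖ ^ 2 ∂hm : ℝ) : ℂ) := by
    rw [← integral_complex_ofReal]
    apply integral_congr_ae
    filter_upwards with x
    rw [inner_self_eq_norm_sq_to_K]
    push_cast
    rfl
  rw [h2] at h
  have h3 : ((‖g‖ ^ 2 : ℝ) : ℂ) = ((∫ x, ‖g x‖ ^ 2 ∂hm : ℝ) : ℂ) := by
    rw [← h]
    push_cast
    rfl
  exact Complex.ofReal_injective h3

lemma integrable_sq (g : H) : Integrable (fun x => ‖g x‖ ^ 2) hm := by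
  have := (Lp.memLp g).integrable_norm_pow (by norm_num)
  simpa using this

lemma norm_mul_le' (φ : Bd) (g : H) : ‖mul φ g‖ ≤ φ.C * ‖g‖ := by
  have hC := φ.C_nonneg
  apply le_of_sq_le_sq _ (by positivity)
  rw [norm_sq_eq, mul_pow, norm_sq_eq g, ← integral_const_mul]
  apply integral_mono_ae (integrable_sq _) ((integrable_sq g).const_mul _)
  filter_upwards [coe_mul φ g] with x hx
  rw [hx, norm_mul, mul_pow]
  gcongr
  exact φ.bound x

lemma norm_mul_unimodular (φ : Bd) (h1 : ∀ x, ‖φ.f x‖ = 1) (g : H) : ‖mul φ g‖ = ‖g‖ := by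
  apply (sq_eq_sq₀ (norm_nonneg _) (norm_nonneg _)).1
  rw [norm_sq_eq, norm_sq_eq g]
  apply integral_congr_ae
  filter_upwards [coe_mul φ g] with x hx
  rw [hx, norm_mul, h1, one_mul]

/-- pull-back of an a.e. equality -/
lemma ae_zsmul (m : ℤ) (hm0 : m ≠ 0) {f g : Cir → ℂ} (h : f =ᵐ[hm] g) :
    ∀ᵐ x ∂hm, f (m • x) = g (m • x) :=
  (mp_zsmul m hm0).quasiMeasurePreserving.ae_eq_comp h

lemma ae_add (k : Cir) {f g : Cir → ℂ} (h : f =ᵐ[hm] g) : ∀ᵐ x ∂hm, f (x + k) = g (x + k) :=
  (mp_add k).quasiMeasurePreserving.ae_eq_comp h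

/-- orthogonality from opposite parities -/
lemma norm_add_sq_of_parity (k : Cir) (a b : H) (ha : trans k a = a) (hb : trans k b = -b) :
    ‖a + b‖ ^ 2 = ‖a‖ ^ 2 + ‖b‖ ^ 2 := by
  have h1 : ‖a + b‖ = ‖a - b‖ := by
    rw [← (trans k).norm_map (a + b), map_add, ha, hb, ← sub_eq_add_neg]
  have h2 := parallelogram_law_with_norm ℂ a b
  rw [← h1] at h2
  nlinarith

/-- the averaged bound for `x ↦ φ(x) f(kx)` -/
lemma norm_mul_comp_sq_le (φ : Bd) (k : ℕ) (hk0 : (k : ℤ) ≠ 0) (ρ : ℝ)
    (h : ∀ x : Cir, ∑ j ∈ Finset.range k, ‖φ.f (x + ((j / k : ℝ) : Cir))‖ ^ 2 ≤ ρ * k) (g : H) :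
    ‖mul φ (comp k hk0 g)‖ ^ 2 ≤ ρ * ‖g‖ ^ 2 := by
  have hk : 0 < k := by
    rcases Nat.eq_zero_or_pos k with h0 | h0
    · exact absurd (by exact_mod_cast h0) hk0
    · exact h0
  have hkr : (0 : ℝ) < k := by exact_mod_cast hk
  obtain ⟨G, hG⟩ : ∃ G : Cir → ℝ, ∀ x, G x = ‖g (((k : ℤ)) • x)‖ ^ 2 := ⟨_, fun x => rfl⟩
  have hGe : (fun x => ‖(comp k hk0 g : Cir → ℂ) x‖ ^ 2) =ᵐ[hm] G := by
    filter_upwards [coe_comp k hk0 g] with x hx
    rw [hx, hG]
  have hGi : Integrable G hm := (integrable_sq (comp k hk0 g)).congr hGe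
  have hGn : ∫ x, G x ∂hm = ‖g‖ ^ 2 := by
    rw [← integral_congr_ae hGe, ← norm_sq_eq, (comp k hk0).norm_map]
  have hG0 : ∀ x, 0 ≤ G x := by
    intro x
    rw [hG]
    positivity
  have hφi : ∀ y : Cir, Integrable (fun x => ‖φ.f (x + y)‖ ^ 2 * G x) hm := by
    intro y
    refine hGi.bdd_mul (c := φ.C ^ 2) ?_ ?_
    · apply Measurable.aestronglyMeasurable
      exact ((φ.meas.comp (measurable_id.add_const y)).norm).pow_const 2
    · filter_upwards with x
      rw [Real.norm_eq_abs, abs_of_nonneg (by positivity)]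
      exact pow_le_pow_left₀ (norm_nonneg _) (φ.bound _) 2
  have e0 : ‖mul φ (comp k hk0 g)‖ ^ 2 = ∫ x, ‖φ.f x‖ ^ 2 * G x ∂hm := by
    rw [norm_sq_eq]
    apply integral_congr_ae
    filter_upwards [coe_mul φ (comp k hk0 g), coe_comp k hk0 g] with x h1 h2
    rw [h1, h2, norm_mul, mul_pow, hG]
  have hshift : ∀ (j : ℕ) (x : Cir), G (x + ((j / k : ℝ) : Cir)) = G x := by
    intro j x
    rw [hG, hG, smul_add]
    have h0 : ((k : ℤ)) • ((j / k : ℝ) : Cir) = 0 := by
      have h1 : ((k : ℤ)) • (j / k : ℝ) = ((j : ℤ)) • (1 : ℝ) := by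
        simp
        field_simp
      rw [← AddCircle.coe_zsmul, h1, AddCircle.coe_zsmul, AddCircle.coe_period, smul_zero]
    rw [h0, add_zero]
  have e1 : ∀ j : ℕ, ∫ x, ‖φ.f (x + ((j / k : ℝ) : Cir))‖ ^ 2 * G x ∂hm =
      ‖mul φ (comp k hk0 g)‖ ^ 2 := by
    intro j
    rw [e0, ← integral_add_right_eq_self (μ := hm) (fun x => ‖φ.f x‖ ^ 2 * G x)
      ((j / k : ℝ) : Cir)]
    apply integral_congr_ae
    filter_upwards with x
    rw [hshift]
  have e2 : (k : ℝ) * ‖mul φ (comp k hk0 g)‖ ^ 2 =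
      ∫ x, (∑ j ∈ Finset.range k, ‖φ.f (x + ((j / k : ℝ) : Cir))‖ ^ 2) * G x ∂hm := by
    simp_rw [Finset.sum_mul]
    rw [integral_finsetSum _ (fun j _ => hφi _)]
    simp_rw [e1]
    rw [Finset.sum_const, Finset.card_range, nsmul_eq_mul]
  have e3 : ∫ x, (∑ j ∈ Finset.range k, ‖φ.f (x + ((j / k : ℝ) : Cir))‖ ^ 2) * G x ∂hm ≤
      ∫ x, (ρ * k) * G x ∂hm := by
    apply integral_mono_of_nonneg
    · filter_upwards with x
      exact mul_nonneg (Finset.sum_nonneg fun _ _ => by positivity) (hG0 x)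
    · exact hGi.const_mul _
    · filter_upwards with x
      exact mul_le_mul_of_nonneg_right (h x) (hG0 x)
  rw [← e2, integral_const_mul, hGn] at e3
  have : (k : ℝ) * ‖mul φ (comp k hk0 g)‖ ^ 2 ≤ k * (ρ * ‖g‖ ^ 2) := by linarith
  exact le_of_mul_le_mul_left this hkr

/-! ### From operators to Riesz bases -/

section Conclude

variable {V : Type*} [MeasurableSpace V] {m r : ℕ}

/-- the vector of trigonometric polynomials with coefficients `b` -/
def vec (N : Finset ℤ) (b : Fin m × ℤ → ℂ) (j : Fin m) : H :=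
  ∑ n ∈ N, b (j, n) • (fourierLp 2 n : H)

lemma norm_vec (N : Finset ℤ) (b : Fin m × ℤ → ℂ) (j : Fin m) :
    ‖vec N b j‖ ^ 2 = ∑ n ∈ N, ‖b (j, n)‖ ^ 2 := by
  have h1 := (orthonormal_fourier (T := (1 : ℝ))).inner_sum (fun n => b (j, n))
    (fun n => b (j, n)) N
  have h2 : (inner ℂ (vec N b j) (vec N b j) : ℂ) = ((∑ n ∈ N, ‖b (j, n)‖ ^ 2 : ℝ) : ℂ) := by
    unfold vec
    rw [h1]
    push_cast
    apply Finset.sum_congr rfl
    intro n _
    rw [← Complex.normSq_eq_conj_mul_self, Complex.normSq_eq_norm_sq]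
    push_cast
    rfl
  rw [inner_self_eq_norm_sq_to_K] at h2
  have h3 : ((‖vec N b j‖ ^ 2 : ℝ) : ℂ) = ((∑ n ∈ N, ‖b (j, n)‖ ^ 2 : ℝ) : ℂ) := by
    rw [← h2]
    push_cast
    rfl
  exact Complex.ofReal_injective h3

lemma vec_eq (N : Finset ℤ) (b : Fin m × ℤ → ℂ) :
    vec N b = ∑ j, ∑ n ∈ N, b (j, n) • (Pi.single j (fourierLp 2 n : H) : Fin m → H) := by
  funext i
  rw [Finset.sum_apply]
  rw [Finset.sum_eq_single i]
  · rw [Finset.sum_apply]
    unfold vec
    apply Finset.sum_congr rfl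
    intro n _
    rw [Pi.smul_apply, Pi.single_eq_same]
  · intro j _ hj
    rw [Finset.sum_apply]
    apply Finset.sum_eq_zero
    intro n _
    rw [Pi.smul_apply, Pi.single_eq_of_ne (Ne.symm hj), smul_zero]
  · intro h
    exact absurd (Finset.mem_univ i) h

lemma coeFn_sum {ι : Type*} (s : Finset ι) (f : ι → H) :
    ((∑ i ∈ s, f i : H) : Cir → ℂ) =ᵐ[hm] fun x => ∑ i ∈ s, f i x := by
  classical
  induction s using Finset.induction_on with
  | empty =>
    filter_upwards with x
    simp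
  | insert i s hi ih =>
    rw [Finset.sum_insert hi]
    filter_upwards [Lp.coeFn_add (f i) (∑ i ∈ s, f i), ih] with x h1 h2
    rw [h1, Pi.add_apply, h2, Finset.sum_insert hi]

variable (e : V → V → ℂ) (γ : Fin r → Cir → V) (lam : Fin m × ℤ → V) (θ : Fin m × ℤ → ℂ)
  (T : (Fin m → H) →ₗ[ℂ] (Fin r → H))

omit [MeasurableSpace V] in
lemma synth (hT : ∀ (j : Fin m) (n : ℤ) (i : Fin r), (fun x => e (lam (j, n)) (γ i x)) =ᵐ[hm]
      fun x => θ (j, n) * T (Pi.single j (fourierLp 2 n)) i x)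
    (N : Finset ℤ) (b : Fin m × ℤ → ℂ) (i : Fin r) :
    (fun x => ∑ j, ∑ n ∈ N, b (j, n) * e (lam (j, n)) (γ i x)) =ᵐ[hm]
      T (vec N (fun p => b p * θ p)) i := by
  have h1 : T (vec N (fun p => b p * θ p)) i =
      ∑ j, ∑ n ∈ N, (b (j, n) * θ (j, n)) • T (Pi.single j (fourierLp 2 n)) i := by
    rw [vec_eq, map_sum, Finset.sum_apply]
    apply Finset.sum_congr rfl
    intro j _
    rw [map_sum, Finset.sum_apply]
    apply Finset.sum_congr rfl
    intro n _
    rw [map_smul, Pi.smul_apply]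
  have h2 : ((∑ j, ∑ n ∈ N, (b (j, n) * θ (j, n)) • T (Pi.single j (fourierLp 2 n)) i : H) :
      Cir → ℂ) =ᵐ[hm] fun x => ∑ j, ∑ n ∈ N,
        (((b (j, n) * θ (j, n)) • T (Pi.single j (fourierLp 2 n)) i : H) : Cir → ℂ) x := by
    have h3 : ∀ j : Fin m, ∀ᵐ x ∂hm,
        ((∑ n ∈ N, (b (j, n) * θ (j, n)) • T (Pi.single j (fourierLp 2 n)) i : H) : Cir → ℂ) x =
        ∑ n ∈ N, (((b (j, n) * θ (j, n)) • T (Pi.single j (fourierLp 2 n)) i : H) : Cir → ℂ) x :=
      fun j => coeFn_sum _ _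
    filter_upwards [coeFn_sum Finset.univ (fun j : Fin m =>
      ∑ n ∈ N, (b (j, n) * θ (j, n)) • T (Pi.single j (fourierLp 2 n)) i), ae_all_iff.2 h3]
      with x h4 h5
    rw [h4]
    apply Finset.sum_congr rfl
    intro j _
    exact h5 j
  have h6 : ∀ᵐ x ∂hm, ∀ (j : Fin m) (n : ℤ),
      (((b (j, n) * θ (j, n)) • T (Pi.single j (fourierLp 2 n)) i : H) : Cir → ℂ) x =
        b (j, n) * e (lam (j, n)) (γ i x) := by
    rw [ae_all_iff]
    intro j
    rw [ae_all_iff]
    intro n
    filter_upwards [Lp.coeFn_smul (b (j, n) * θ (j, n)) (T (Pi.single j (fourierLp 2 n)) i),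
      hT j n i] with x h7 h8
    rw [h7, Pi.smul_apply, smul_eq_mul, h8]
    ring
  rw [h1]
  filter_upwards [h2, h6] with x h7 h8
  rw [h7]
  apply Finset.sum_congr rfl
  intro j _
  apply Finset.sum_congr rfl
  intro n _
  rw [h8]

lemma integral_sum_map (σ : Measure V) (hγ : ∀ i, Measurable (γ i)) (a : Fin r → ℝ≥0)
    (hσ : σ = ∑ i, a i • Measure.map (γ i) hm) (g : V → ℝ)
    (hg : AEStronglyMeasurable g σ) (ha : ∀ i, 0 < a i) (Fi : Fin r → H)
    (hF : ∀ i, (fun x => g (γ i x)) =ᵐ[hm] fun x => ‖Fi i x‖ ^ 2) :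
    ∫ x, g x ∂σ = ∑ i, (a i : ℝ) * ‖Fi i‖ ^ 2 := by
  have hgi : ∀ i, AEStronglyMeasurable g (Measure.map (γ i) hm) := by
    intro i
    refine hg.mono_ac ?_
    rw [hσ]
    have h1 : a i • Measure.map (γ i) hm ≤ ∑ i, a i • Measure.map (γ i) hm :=
      Finset.single_le_sum (f := fun i => a i • Measure.map (γ i) hm) (fun _ _ => Measure.zero_le _)
        (Finset.mem_univ i)
    refine Measure.AbsolutelyContinuous.trans ?_ h1.absolutelyContinuous
    intro s hs
    rw [Measure.smul_apply, ENNReal.smul_def, smul_eq_mul, mul_eq_zero] at hs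
    rcases hs with hs | hs
    · have := (ha i).ne'
      exact absurd (by exact_mod_cast hs) this
    · exact hs
  have hint : ∀ i, Integrable g (a i • Measure.map (γ i) hm) := by
    intro i
    apply Integrable.smul_measure_nnreal
    rw [integrable_map_measure (hgi i) (hγ i).aemeasurable]
    exact (integrable_sq (Fi i)).congr (hF i).symm
  rw [hσ, integral_finsetSum_measure (fun i _ => hint i)]
  apply Finset.sum_congr rfl
  intro i _
  rw [integral_smul_nnreal_measure, integral_map (hγ i).aemeasurable (hgi i),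
    integral_congr_ae (hF i), ← norm_sq_eq]
  rfl

/-- **Reduction.** If, after pulling back by the parametrizations `γ_i` of the pieces, the
exponentials `e_{λ(j,n)}` are unimodular multiples of the images of the orthonormal basis
`(0,..,e_n,..,0)` under a bounded invertible operator `T`, then they form a Riesz basis. -/
theorem riesz_of_data (σ : Measure V) (hem : ∀ l, Measurable (e l))
    (hγ : ∀ i, Measurable (γ i)) (a : Fin r → ℝ≥0) (ha : ∀ i, 0 < a i)
    (hσ : σ = ∑ i, a i • Measure.map (γ i) hm) (hinj : Function.Injective lam)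
    (hθ : ∀ p, ‖θ p‖ = 1) (A B : ℝ) (hA : 0 < A)
    (hlow : ∀ w, A * ∑ j, ‖w j‖ ^ 2 ≤ ∑ i, ‖T w i‖ ^ 2)
    (hup : ∀ w, ∑ i, ‖T w i‖ ^ 2 ≤ B * ∑ j, ‖w j‖ ^ 2)
    (hsurj : Function.Surjective T)
    (hT : ∀ (j : Fin m) (n : ℤ) (i : Fin r), (fun x => e (lam (j, n)) (γ i x)) =ᵐ[hm]
      fun x => θ (j, n) * T (Pi.single j (fourierLp 2 n)) i x) :
    IsRieszBasis e σ (range lam) := by
  classical
  -- constants
  obtain ⟨α, hα0, hα⟩ : ∃ α : ℝ, 0 < α ∧ ∀ i, α ≤ a i := by
    refine ⟨(1 + ∑ i, ((a i : ℝ))⁻¹)⁻¹, ?_, ?_⟩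
    · have : 0 ≤ ∑ i, ((a i : ℝ))⁻¹ := Finset.sum_nonneg fun _ _ => by positivity
      positivity
    · intro i
      have h1 : ((a i : ℝ))⁻¹ ≤ ∑ i, ((a i : ℝ))⁻¹ :=
        Finset.single_le_sum (f := fun i => ((a i : ℝ))⁻¹) (fun _ _ => by positivity)
          (Finset.mem_univ i)
      have h2 : (0 : ℝ) < a i := by exact_mod_cast ha i
      rw [inv_le_comm₀ (by positivity) h2]
      linarith
  obtain ⟨β, hβ0, hβ⟩ : ∃ β : ℝ, 0 < β ∧ ∀ i, (a i : ℝ) ≤ β := by
    refine ⟨1 + ∑ i, (a i : ℝ), ?_, ?_⟩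
    · have : 0 ≤ ∑ i, (a i : ℝ) := Finset.sum_nonneg fun _ _ => by positivity
      linarith
    · intro i
      have h1 : (a i : ℝ) ≤ ∑ i, (a i : ℝ) :=
        Finset.single_le_sum (f := fun i => (a i : ℝ)) (fun _ _ => by positivity)
          (Finset.mem_univ i)
      linarith
  constructor
  · refine ⟨α * A, β * B, by positivity, ?_⟩
    intro c hc
    -- coefficients
    set b : Fin m × ℤ → ℂ := fun p => c (lam p) with hb
    set N : Finset ℤ := (c.support.preimage lam hinj.injOn).image Prod.snd with hN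
    have hsum : ∀ (M : Type) [AddCommMonoid M] (g : V → M), (∀ l, c l = 0 → g l = 0) →
        ∑ l ∈ c.support, g l = ∑ j, ∑ n ∈ N, g (lam (j, n)) := by
      intro M _ g hg
      have h1 : ∑ l ∈ c.support, g l = ∑ p ∈ c.support.preimage lam hinj.injOn, g (lam p) := by
        rw [Finset.sum_preimage lam c.support hinj.injOn g]
        intro l hl hl2
        exact absurd (hc hl) hl2
      rw [h1, ← Finset.sum_product' Finset.univ N (fun j n => g (lam (j, n)))]
      apply Finset.sum_subset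
      · intro p hp
        rw [Finset.mem_product]
        exact ⟨Finset.mem_univ _, Finset.mem_image_of_mem _ hp⟩
      · intro p _ hp2
        apply hg
        by_contra hne
        exact hp2 (Finset.mem_preimage.2 (Finsupp.mem_support_iff.2 hne))
    have hcoef : ∑ l ∈ c.support, ‖c l‖ ^ 2 =
        ∑ j, ‖vec N (fun p => b p * θ p) j‖ ^ 2 := by
      rw [hsum ℝ (fun l => ‖c l‖ ^ 2) (fun l hl => by simp [hl])]
      apply Finset.sum_congr rfl
      intro j _
      rw [norm_vec]
      apply Finset.sum_congr rfl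
      intro n _
      rw [norm_mul, hθ, mul_one]
    have hint : ∫ x, ‖∑ l ∈ c.support, c l * e l x‖ ^ 2 ∂σ =
        ∑ i, (a i : ℝ) * ‖T (vec N (fun p => b p * θ p)) i‖ ^ 2 := by
      apply integral_sum_map γ σ hγ a hσ _ _ ha
      · intro i
        have h2 := synth e γ lam θ T hT N b i
        filter_upwards [h2] with x hx
        rw [hsum ℂ (fun l => c l * e l (γ i x)) (fun l hl => by simp [hl])]
        rw [hx]
      · apply Measurable.aestronglyMeasurable
        apply Measurable.pow_const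
        apply Measurable.norm
        exact Finset.measurable_fun_sum _ fun l _ => (hem l).const_mul _
    rw [hint, hcoef]
    constructor
    · calc α * A * ∑ j, ‖vec N (fun p => b p * θ p) j‖ ^ 2 =
          α * (A * ∑ j, ‖vec N (fun p => b p * θ p) j‖ ^ 2) := by ring
        _ ≤ α * ∑ i, ‖T (vec N (fun p => b p * θ p)) i‖ ^ 2 := by
            gcongr
            exact hlow _
        _ = ∑ i, α * ‖T (vec N (fun p => b p * θ p)) i‖ ^ 2 := by rw [Finset.mul_sum]
        _ ≤ _ := by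
            apply Finset.sum_le_sum
            intro i _
            gcongr
            exact hα i
    · calc ∑ i, (a i : ℝ) * ‖T (vec N (fun p => b p * θ p)) i‖ ^ 2 ≤
          ∑ i, β * ‖T (vec N (fun p => b p * θ p)) i‖ ^ 2 := by
            apply Finset.sum_le_sum
            intro i _
            gcongr
            exact hβ i
        _ = β * ∑ i, ‖T (vec N (fun p => b p * θ p)) i‖ ^ 2 := by rw [Finset.mul_sum]
        _ ≤ β * (B * ∑ j, ‖vec N (fun p => b p * θ p) j‖ ^ 2) := by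
            gcongr
            exact hup _
        _ = _ := by ring
  · intro f hf ε hε
    -- pull back
    have hfi : ∀ i, MemLp (fun x => f (γ i x)) 2 hm := by
      intro i
      have h1 : MemLp f 2 (Measure.map (γ i) hm) := by
        have h2 : Measure.map (γ i) hm ≤ ((a i)⁻¹ : ℝ≥0) • σ := by
          have h3 : a i • Measure.map (γ i) hm ≤ σ := by
            rw [hσ]
            exact Finset.single_le_sum (f := fun i => a i • Measure.map (γ i) hm)
              (fun _ _ => Measure.zero_le _) (Finset.mem_univ i)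
          calc Measure.map (γ i) hm = ((a i)⁻¹ : ℝ≥0) • (a i • Measure.map (γ i) hm) := by
                rw [smul_smul, inv_mul_cancel₀ (ha i).ne', one_smul]
            _ ≤ _ := by
                intro s
                rw [Measure.smul_apply, Measure.smul_apply, ENNReal.smul_def, ENNReal.smul_def]
                exact mul_le_mul' le_rfl (h3 s)
        exact hf.of_measure_le_smul (c := (((a i)⁻¹ : ℝ≥0) : ℝ≥0∞)) ENNReal.coe_ne_top (by
          intro s
          exact h2 s)
      exact (memLp_map_measure_iff h1.1 (hγ i).aemeasurable).1 h1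
    set F : Fin r → H := fun i => (hfi i).toLp _ with hF
    obtain ⟨w, hw⟩ := hsurj F
    -- approximate w by vectors of trigonometric polynomials
    have happ : ∀ δ : ℝ, 0 < δ → ∃ (N : Finset ℤ) (d : Fin m × ℤ → ℂ),
        ∀ j, ‖w j - vec N d j‖ < δ := by
      intro δ hδ
      have h1 : ∀ j, ∃ d : ℤ →₀ ℂ, ‖w j - d.sum fun n a => a • (fourierLp 2 n : H)‖ < δ := by
        intro j
        have h2 : w j ∈ (Submodule.span ℂ (range (fourierLp (T := (1 : ℝ)) 2))).topologicalClosure := by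
          rw [span_fourierLp_closure_eq_top (by norm_num)]
          trivial
        rw [← SetLike.mem_coe, Submodule.topologicalClosure_coe, Metric.mem_closure_iff] at h2
        obtain ⟨y, hy, hyd⟩ := h2 δ hδ
        obtain ⟨d, hd⟩ := (Finsupp.mem_span_range_iff_exists_finsupp).1 hy
        refine ⟨d, ?_⟩
        rw [hd, ← dist_eq_norm]
        exact hyd
      choose d hd using h1
      refine ⟨Finset.univ.biUnion fun j => (d j).support, fun p => d p.1 p.2, ?_⟩
      intro j
      have h3 : vec (Finset.univ.biUnion fun j => (d j).support) (fun p => d p.1 p.2) j =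
          (d j).sum fun n a => a • (fourierLp 2 n : H) := by
        unfold vec Finsupp.sum
        symm
        apply Finset.sum_subset
        · exact Finset.subset_biUnion_of_mem (fun j => (d j).support) (Finset.mem_univ j)
        · intro n _ hn
          simp only [Finsupp.notMem_support_iff.1 hn, zero_smul]
      rw [h3]
      exact hd j
    have hB : 0 ≤ |B| := abs_nonneg _
    obtain ⟨δ, hδ0, hδ⟩ : ∃ δ : ℝ, 0 < δ ∧ β * ((|B| + 1) * (m * δ ^ 2)) < ε := by
      have hlim : Tendsto (fun δ : ℝ => β * ((|B| + 1) * (m * δ ^ 2))) (nhdsWithin 0 (Ioi 0))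
          (nhds 0) := by
        have : Continuous fun δ : ℝ => β * ((|B| + 1) * (m * δ ^ 2)) := by fun_prop
        have h1 := this.tendsto 0
        simp only [ne_eq, OfNat.ofNat_ne_zero, not_false_eq_true, zero_pow, mul_zero] at h1
        exact h1.mono_left nhdsWithin_le_nhds
      obtain ⟨δ, h1, h2⟩ := ((hlim.eventually (gt_mem_nhds hε)).and
        (eventually_mem_nhdsWithin)).exists
      exact ⟨δ, h2, h1⟩
    obtain ⟨N, d, hd⟩ := happ δ hδ0
    -- the coefficients
    set b : Fin m × ℤ → ℂ := fun p => (θ p)⁻¹ * d p with hb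
    have hθ0 : ∀ p, θ p ≠ 0 := fun p h => by
      have := hθ p
      rw [h, norm_zero] at this
      exact zero_ne_one this
    have hbd : (fun p => b p * θ p) = d := by
      funext p
      simp only [hb]
      rw [mul_comm, ← mul_assoc, mul_inv_cancel₀ (hθ0 p), one_mul]
    set b' : Fin m × ℤ →₀ ℂ := Finsupp.onFinset (Finset.univ ×ˢ N)
      (fun p => if p.2 ∈ N then b p else 0) (by
        intro p hp
        rw [Finset.mem_product]
        refine ⟨Finset.mem_univ _, ?_⟩
        by_contra h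
        exact hp (if_neg h)) with hb'
    set c : V →₀ ℂ := b'.embDomain ⟨lam, hinj⟩ with hc
    have hcs : ∀ x, ∑ l ∈ c.support, c l * e l x = ∑ j, ∑ n ∈ N, b (j, n) * e (lam (j, n)) x := by
      intro x
      rw [hc, Finsupp.support_embDomain, Finset.sum_map]
      have h1 : ∀ p, (b'.embDomain ⟨lam, hinj⟩) ((⟨lam, hinj⟩ : Fin m × ℤ ↪ V) p) = b' p := by
        intro p
        exact Finsupp.embDomain_apply_self _ _ _
      simp_rw [h1]
      rw [← Finset.sum_product' Finset.univ N (fun j n => b (j, n) * e (lam (j, n)) x)]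
      have h2 : ∑ p ∈ b'.support, b' p * e ((⟨lam, hinj⟩ : Fin m × ℤ ↪ V) p) x =
          ∑ p ∈ Finset.univ ×ˢ N, b' p * e (lam p) x := by
        apply Finset.sum_subset
        · exact Finsupp.support_onFinset_subset
        · intro p _ hp
          rw [Finsupp.notMem_support_iff.1 hp, zero_mul]
      rw [h2]
      apply Finset.sum_congr rfl
      intro p hp
      have hpN : p.2 ∈ N := (Finset.mem_product.1 hp).2
      have : b' p = b p := by
        rw [hb', Finsupp.onFinset_apply, if_pos hpN]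
      rw [this]
    refine ⟨c, ?_, ?_⟩
    · intro l hl
      rw [hc, Finsupp.support_embDomain, Finset.coe_map] at hl
      obtain ⟨p, _, hp⟩ := hl
      exact ⟨p, hp⟩
    · have hint : ∫ x, ‖f x - ∑ l ∈ c.support, c l * e l x‖ ^ 2 ∂σ =
          ∑ i, (a i : ℝ) * ‖F i - T (vec N d) i‖ ^ 2 := by
        apply integral_sum_map γ σ hγ a hσ _ _ ha
        · intro i
          have h2 := synth e γ lam θ T hT N b i
          rw [hbd] at h2
          filter_upwards [h2, (hfi i).coeFn_toLp, Lp.coeFn_sub (F i) (T (vec N d) i)]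
            with x h3 h4 h5
          rw [h5, Pi.sub_apply, ← h3, hF]
          simp only
          rw [h4, hcs]
        · have h3 : AEStronglyMeasurable (fun x => f x - ∑ l ∈ c.support, c l * e l x) σ := by
            apply hf.1.sub
            apply Measurable.aestronglyMeasurable
            exact Finset.measurable_fun_sum _ fun l _ => (hem l).const_mul _
          exact (h3.norm.aemeasurable.pow_const 2).aestronglyMeasurable
      rw [hint]
      have hdiff : ∀ i, F i - T (vec N d) i = T (w - vec N d) i := by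
        intro i
        rw [map_sub, hw, Pi.sub_apply]
      simp_rw [hdiff]
      calc ∑ i, (a i : ℝ) * ‖T (w - vec N d) i‖ ^ 2 ≤ ∑ i, β * ‖T (w - vec N d) i‖ ^ 2 := by
            apply Finset.sum_le_sum
            intro i _
            gcongr
            exact hβ i
        _ = β * ∑ i, ‖T (w - vec N d) i‖ ^ 2 := by rw [Finset.mul_sum]
        _ ≤ β * ((|B| + 1) * (m * δ ^ 2)) := by
            gcongr
            refine (hup _).trans ?_
            have h1 : ∑ j, ‖(w - vec N d) j‖ ^ 2 ≤ m * δ ^ 2 := by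
              calc ∑ j, ‖(w - vec N d) j‖ ^ 2 ≤ ∑ _j : Fin m, δ ^ 2 := by
                    apply Finset.sum_le_sum
                    intro j _
                    rw [Pi.sub_apply]
                    exact pow_le_pow_left₀ (norm_nonneg _) (hd j).le 2
                _ = m * δ ^ 2 := by simp
            have h2 : 0 ≤ ∑ j, ‖(w - vec N d) j‖ ^ 2 :=
              Finset.sum_nonneg fun _ _ => by positivity
            calc B * ∑ j, ‖(w - vec N d) j‖ ^ 2 ≤ (|B| + 1) * ∑ j, ‖(w - vec N d) j‖ ^ 2 := by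
                  gcongr
                  linarith [le_abs_self B]
              _ ≤ _ := by gcongr
        _ < ε := hδ

end Conclude

end Pool.Agent.Q168.Riesz
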