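import Mathlib
import Pool.Agent.Q168.Riesz

/-! Boundary length measures of polygons in the plane and the operators on the circle. -/

open MeasureTheory Set Filter Complex AddCircle
open scoped Real ENNReal NNReal

noncomputable section

namespace Pool.Agent.Q168.Poly

open Pool.Agent.Q168.Riesz

/-- the Euclidean plane -/
abbrev E2 := EuclideanSpace ℝ (Fin 2)

/-- The exponential `e_λ(x) = e^{2πi⟨λ,x⟩}`. -/
def expo (l x : E2) : ℂ := cexp ((2 * π * inner ℝ l x : ℝ) * I)

/-- Length measure on the segment from `p` to `q`: the image of Lebesgue measure on `[0,1]` under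
`t ↦ p + t (q - p)`, multiplied by the length `|q - p|`. -/
def segMeasure (p q : E2) : Measure E2 :=
  ‖q - p‖₊ • Measure.map (fun t : ℝ => p + t • (q - p)) (volume.restrict (Icc 0 1))

/-- Length measure on the closed polygonal line with consecutive vertices `P 0, ..., P (n-1)`
(and back to `P 0`). -/
def polyMeasure {n : ℕ} [NeZero n] (P : Fin n → E2) : Measure E2 :=
  ∑ i, segMeasure (P i) (P (i + 1))

lemma measurable_expo (l : E2) : Measurable (expo l) := by
  unfold expo
  fun_prop

/-- parametrization of an edge by the circle -/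
def edge (p q : E2) (x : Cir) : E2 := p + rep 0 x • (q - p)

lemma measurable_edge (p q : E2) : Measurable (edge p q) :=
  ((measurable_rep 0).smul_const _).const_add _

lemma segMeasure_eq (p q : E2) : segMeasure p q = ‖q - p‖₊ • Measure.map (edge p q) hm := by
  unfold segMeasure
  congr 1
  have h1 : (volume.restrict (Icc (0 : ℝ) 1)) = Measure.map (rep 0) hm := by
    rw [map_rep, zero_add]
    exact (Measure.restrict_congr_set Ioc_ae_eq_Icc).symm
  rw [h1, Measure.map_map (by fun_prop) (measurable_rep 0)]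
  rfl

lemma expo_edge (l p q : E2) (x : Cir) :
    expo l (edge p q x) = cexp ((2 * π * inner ℝ l p : ℝ) * I) *
      cexp ((2 * π * (inner ℝ l (q - p) * rep 0 x) : ℝ) * I) := by
  unfold expo edge
  rw [← Complex.exp_add, inner_add_right, inner_smul_right]
  congr 1
  push_cast
  ring

/-- prescribing the inner products with a basis -/
lemma exists_inner (u v : E2) (h : LinearIndependent ℝ ![u, v]) (a b : ℝ) :
    ∃ l : E2, inner ℝ l u = a ∧ inner ℝ l v = b := by
  let L : E2 →ₗ[ℝ] ℝ × ℝ :=
    { toFun := fun l => (inner ℝ l u, inner ℝ l v)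
      map_add' := fun x y => by simp [inner_add_left]
      map_smul' := fun c x => by simp [inner_smul_left] }
  have hspan := h.span_eq_top_of_card_eq_finrank (by simp)
  have hinj : Function.Injective L := by
    rw [← LinearMap.ker_eq_bot, LinearMap.ker_eq_bot']
    intro l hl
    have h1 : inner ℝ l u = 0 ∧ inner ℝ l v = 0 := by
      have := Prod.mk.inj hl
      exact this
    have h2 : ∀ y ∈ Submodule.span ℝ (range ![u, v]), inner ℝ l y = 0 := by
      intro y hy
      induction hy using Submodule.span_induction with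
      | mem y hy =>
        obtain ⟨i, rfl⟩ := hy
        fin_cases i
        · exact h1.1
        · exact h1.2
      | zero => exact inner_zero_right _
      | add y z _ _ hy hz => rw [inner_add_right, hy, hz, add_zero]
      | smul c y _ hy => rw [inner_smul_right, hy, mul_zero]
    have h3 : inner ℝ l l = 0 := h2 l (by rw [hspan]; trivial)
    exact inner_self_eq_zero.1 h3
  have hsurj := (LinearMap.injective_iff_surjective_of_finrank_eq_finrank (by simp)).1 hinj
  obtain ⟨l, hl⟩ := hsurj (a, b)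
  exact ⟨l, (Prod.mk.inj hl).1, (Prod.mk.inj hl).2⟩

/-! ### The functions `e^{2πi x/2}` and `e^{-2πix}` -/

/-- `e^{2πi s x}` with the representative of `x` in `(t,t+1]` -/
def uu (t s : ℝ) : Bd where
  f x := cexp ((2 * π * (s * rep t x) : ℝ) * I)
  C := 1
  meas := by
    have := measurable_rep t
    fun_prop
  bound x := by rw [Complex.norm_exp_ofReal_mul_I]

lemma uu_norm (t s : ℝ) (x : Cir) : ‖(uu t s).f x‖ = 1 := Complex.norm_exp_ofReal_mul_I _

lemma uu_mul (t s s' : ℝ) (x : Cir) : (uu t s).f x * (uu t s').f x = (uu t (s + s')).f x := by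
  unfold uu
  simp only
  rw [← Complex.exp_add]
  congr 1
  push_cast
  ring

lemma uu_zero (t : ℝ) (x : Cir) : (uu t 0).f x = 1 := by
  unfold uu
  simp

lemma uu_int (t : ℝ) (n : ℤ) (x : Cir) : (uu t n).f x = fourier n x := by
  unfold uu
  simp only
  conv_rhs => rw [← coe_rep t x]
  rw [_root_.fourier_coe_apply]
  congr 1
  push_cast
  ring

lemma fourier_eq (t : ℝ) (n : ℤ) (x : Cir) :
    fourier n x = cexp ((2 * π * (n * rep t x) : ℝ) * I) := by
  rw [← uu_int t]
  rfl

lemma fourier_zsmul (n m : ℤ) (x : Cir) :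
    (fourier n (m • x) : ℂ) = fourier (n * m) x := by
  rw [_root_.fourier_apply, _root_.fourier_apply, smul_smul]

lemma coe_fourierLp (n : ℤ) : ((fourierLp 2 n : H) : Cir → ℂ) =ᵐ[hm] fourier n :=
  coeFn_fourierLp 2 n

lemma coe_mul_fourierLp (φ : Bd) (n : ℤ) :
    (mul φ (fourierLp 2 n) : Cir → ℂ) =ᵐ[hm] fun x => φ.f x * fourier n x := by
  filter_upwards [coe_mul φ (fourierLp 2 n), coe_fourierLp n] with x h1 h2
  rw [h1, h2]

lemma coe_comp_fourierLp (m : ℤ) (hm0 : m ≠ 0) (n : ℤ) :
    (comp m hm0 (fourierLp 2 n) : Cir → ℂ) =ᵐ[hm] fun x => fourier (n * m) x := by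
  filter_upwards [coe_comp m hm0 (fourierLp 2 n), ae_zsmul m hm0 (coe_fourierLp n)] with x h1 h2
  rw [h1, h2, fourier_zsmul]

lemma coe_mul_comp_fourierLp (φ : Bd) (m : ℤ) (hm0 : m ≠ 0) (n : ℤ) :
    (mul φ (comp m hm0 (fourierLp 2 n)) : Cir → ℂ) =ᵐ[hm]
      fun x => φ.f x * fourier (n * m) x := by
  filter_upwards [coe_mul φ (comp m hm0 (fourierLp 2 n)), coe_comp_fourierLp m hm0 n]
    with x h1 h2
  rw [h1, h2]

lemma mul_mul (φ ψ : Bd) (h : ∀ x, φ.f x * ψ.f x = 1) (g : H) : mul φ (mul ψ g) = g := by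
  apply Lp.ext
  filter_upwards [coe_mul φ (mul ψ g), coe_mul ψ g] with x h1 h2
  rw [h1, h2, ← mul_assoc, h, one_mul]

/-- a Neumann series -/
lemma exists_solution (K : H →ₗ[ℂ] H) (q : ℝ) (hq0 : 0 ≤ q) (hq : q < 1)
    (hK : ∀ f, ‖K f‖ ≤ q * ‖f‖) (g : H) : ∃ w : H, w + K w = g := by
  set K' : H →L[ℂ] H := K.mkContinuous q hK with hK'
  have hn : ‖-K'‖ < 1 := by
    rw [norm_neg]
    exact (LinearMap.mkContinuous_norm_le K hq0 hK).trans_lt hq
  obtain ⟨u, hu⟩ := isUnit_one_sub_of_norm_lt_one hn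
  refine ⟨(↑u⁻¹ : H →L[ℂ] H) g, ?_⟩
  have h1 : (u : H →L[ℂ] H) ((↑u⁻¹ : H →L[ℂ] H) g) = g := by
    rw [← ContinuousLinearMap.mul_apply, Units.mul_inv, ContinuousLinearMap.one_apply]
  rw [hu] at h1
  rw [sub_neg_eq_add, ContinuousLinearMap.add_apply, ContinuousLinearMap.one_apply] at h1
  exact h1

end Pool.Agent.Q168.Poly
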