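import Mathlib
import Pool.Agent.Q168.Riesz
import Pool.Agent.Q168.Poly

/-! Half-periodic functions on the circle. -/

open MeasureTheory Set Filter Complex AddCircle
open scoped Real ENNReal NNReal

noncomputable section

namespace Pool.Agent.Q168.Circ

open Pool.Agent.Q168.Riesz Pool.Agent.Q168.Poly

/-- the point `1/2` of the circle -/
def hf : Cir := ((1 / 2 : ℝ) : Cir)

/-- translation by `1/2` -/
def S : H →ₗᵢ[ℂ] H := trans hf

/-- composition with `x ↦ 2x` -/
def C2 : H →ₗᵢ[ℂ] H := comp 2 (by norm_num)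

lemma two_hf : (2 : ℤ) • hf = 0 := by
  unfold hf
  rw [← AddCircle.coe_zsmul]
  have : (2 : ℤ) • (1 / 2 : ℝ) = 1 := by simp
  rw [this, AddCircle.coe_period]

lemma hf_add : hf + hf = 0 := by
  have := two_hf
  rwa [two_zsmul] at this

lemma S_comp (m : ℤ) (hm0 : m ≠ 0) (he : m • hf = 0) (g : H) :
    S (comp m hm0 g) = comp m hm0 g := by
  apply Lp.ext
  filter_upwards [coe_trans hf (comp m hm0 g), ae_add hf (coe_comp m hm0 g), coe_comp m hm0 g]
    with x h1 h2 h3
  have h0 : (S (comp m hm0 g) : Cir → ℂ) x = (comp m hm0 g : Cir → ℂ) (x + hf) := h1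
  rw [h0, h2, h3, smul_add, he, add_zero]

lemma S_C2 (g : H) : S (C2 g) = C2 g := S_comp 2 _ two_hf g

lemma SS (g : H) : S (S g) = g := by
  apply Lp.ext
  filter_upwards [coe_trans hf (S g), ae_add hf (coe_trans hf g)] with x h1 h2
  have h0 : (S (S g) : Cir → ℂ) x = (S g : Cir → ℂ) (x + hf) := h1
  have h3 : (S g : Cir → ℂ) (x + hf) = g (x + hf + hf) := h2
  rw [h0, h3, add_assoc, hf_add, add_zero]

lemma fourier_hf (n : ℤ) : (fourier n hf : ℂ) = (-1) ^ n := by
  unfold hf
  rw [_root_.fourier_coe_apply]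
  have : 2 * (π : ℂ) * I * n * (1 / 2 : ℝ) / (1 : ℝ) = n * (π * I) := by
    push_cast
    ring
  rw [this, Complex.exp_int_mul, Complex.exp_pi_mul_I]

lemma fourier_add_hf (n : ℤ) (x : Cir) : (fourier n (x + hf) : ℂ) = (-1) ^ n * fourier n x := by
  rw [← fourier_hf, _root_.fourier_apply, _root_.fourier_apply, _root_.fourier_apply, smul_add,
    toCircle_add, Circle.coe_mul, mul_comm]

lemma S_fourier (n : ℤ) : S (fourierLp 2 n : H) = ((-1 : ℂ) ^ n) • (fourierLp 2 n : H) := by
  apply Lp.ext
  filter_upwards [coe_trans hf (fourierLp 2 n : H), ae_add hf (coe_fourierLp n),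
    Lp.coeFn_smul ((-1 : ℂ) ^ n) (fourierLp 2 n : H), coe_fourierLp n] with x h1 h2 h3 h4
  have h0 : (S (fourierLp 2 n : H) : Cir → ℂ) x = (fourierLp 2 n : H) (x + hf) := h1
  rw [h0, h2, h3, Pi.smul_apply, h4, fourier_add_hf, smul_eq_mul]

lemma C2_fourier (n : ℤ) : C2 (fourierLp 2 n : H) = (fourierLp 2 (n * 2) : H) := by
  apply Lp.ext
  filter_upwards [coe_comp_fourierLp 2 (by norm_num) n, coe_fourierLp (n * 2)] with x h1 h2
  rw [h2]
  exact h1

/-- A function invariant under translation by `1/2` is of the form `g(2x)`. -/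
lemma exists_C2 (f : H) (hS : S f = f) : ∃ g : H, C2 g = f := by
  set K : Submodule ℂ H := LinearMap.range C2.toLinearMap with hK
  have hclosed : IsClosed (K : Set H) := by
    have h1 : (K : Set H) = range C2 := by
      ext y
      simp [hK]
    rw [h1]
    exact C2.isometry.isClosedEmbedding.isClosed_range
  have : CompleteSpace K := hclosed.completeSpace_coe
  obtain ⟨y, hy, z, hz, hyz⟩ := K.exists_add_mem_mem_orthogonal f
  obtain ⟨g, hg⟩ := hy
  have hg' : C2 g = y := hg
  have hSz : S z = z := by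
    have h1 : S f = S y + S z := by rw [hyz, map_add]
    rw [hS, ← hg', S_C2, hg', hyz] at h1
    exact (add_left_cancel h1).symm
  have hz0 : ∀ n : ℤ, inner ℂ (fourierLp 2 n : H) z = 0 := by
    intro n
    rcases Int.even_or_odd n with he | ho
    · obtain ⟨m, hm⟩ := he
      have h1 : (fourierLp 2 n : H) ∈ K := by
        refine ⟨(fourierLp 2 m : H), ?_⟩
        have h2 := C2_fourier m
        have h3 : m * 2 = n := by omega
        rw [h3] at h2
        exact h2
      exact (Submodule.mem_orthogonal K z).1 hz _ h1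
    · have h1 : inner ℂ (S (fourierLp 2 n : H)) (S z) = inner ℂ (fourierLp 2 n : H) z :=
        S.inner_map_map _ _
      rw [hSz, S_fourier, ho.neg_one_zpow, inner_smul_left] at h1
      simp only [map_neg, map_one, neg_mul, one_mul] at h1
      have h2 : (2 : ℂ) * inner ℂ (fourierLp 2 n : H) z = 0 := by linear_combination -h1
      simpa using h2
  have hzero : z = 0 := by
    have h1 : z ∈ (Submodule.span ℂ (range (fourierLp (T := (1 : ℝ)) 2)))ᗮ := by
      rw [Submodule.mem_orthogonal]
      intro v hv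
      induction hv using Submodule.span_induction with
      | mem v hv =>
        obtain ⟨n, rfl⟩ := hv
        exact hz0 n
      | zero => exact inner_zero_left _
      | add a b _ _ ha hb => rw [inner_add_left, ha, hb, add_zero]
      | smul c a _ ha => rw [inner_smul_left, ha, mul_zero]
    rw [← Submodule.orthogonal_closure, span_fourierLp_closure_eq_top (by norm_num),
      Submodule.top_orthogonal_eq_bot, Submodule.mem_bot] at h1
    exact h1
  refine ⟨g, ?_⟩
  rw [hg', hyz, hzero, add_zero]

end Pool.Agent.Q168.Circ
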