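import Mathlib.Analysis.PSeries
import Mathlib.Topology.Algebra.InfiniteSum.Order
import Mathlib.Tactic

/-! A density lemma: separated sequences cannot carry too much mass. -/

namespace Pool.Agent.Q168.Density

open Finset

/-- tail sum over distinct naturals at least `m` -/
lemma sum_inv_sq_nat (T : Finset ℕ) (m : ℕ) (hm : 1 ≤ m) (hT : ∀ j ∈ T, m + 1 ≤ j) :
    ∑ j ∈ T, ((j : ℝ) ^ 2)⁻¹ ≤ 2 / m := by
  classical
  obtain ⟨n, hn⟩ : ∃ n, ∀ j ∈ T, j < n := by
    refine ⟨T.sup id + 1, fun j hj => ?_⟩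
    have : j ≤ T.sup id := Finset.le_sup (f := id) hj
    omega
  have hsub : T ⊆ Finset.Ioo m n := by
    intro j hj
    rw [Finset.mem_Ioo]
    exact ⟨by have := hT j hj; omega, hn j hj⟩
  calc ∑ j ∈ T, ((j : ℝ) ^ 2)⁻¹ ≤ ∑ j ∈ Finset.Ioo m n, ((j : ℝ) ^ 2)⁻¹ :=
        Finset.sum_le_sum_of_subset_of_nonneg hsub (fun _ _ _ => by positivity)
    _ ≤ 2 / (m + 1) := sum_Ioo_inv_sq_le m n
    _ ≤ 2 / m := by
        have : (0 : ℝ) < m := by exact_mod_cast hm
        gcongr
        linarith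

/-- One-sided tail bound for a separated family. -/
lemma tail_one_side {ι : Type*} (x : ι → ℝ) (δ : ℝ) (hδ : 1 / 2 < δ)
    (hsep : ∀ i j, i ≠ j → δ ≤ |x i - x j|) (s : Finset ι) (m : ℕ) (hm : 3 ≤ m)
    (hs : ∀ i ∈ s, (m : ℝ) ≤ x i) :
    ∑ i ∈ s, ((x i) ^ 2)⁻¹ ≤ 16 / m := by
  classical
  -- we use the map i ↦ ⌊x i / δ'⌋ with δ' = 1/2
  set φ : ι → ℕ := fun i => ⌊2 * x i⌋₊ with hφ
  have hinj : Set.InjOn φ (s : Set ι) := by
    intro i hi j hj hij
    by_contra hne
    have h1 := hsep i j hne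
    have hi0 : 0 ≤ 2 * x i := by have := hs i hi; have : (0:ℝ) ≤ m := Nat.cast_nonneg m; linarith
    have hj0 : 0 ≤ 2 * x j := by have := hs j hj; have : (0:ℝ) ≤ m := Nat.cast_nonneg m; linarith
    have a1 := Nat.floor_le hi0
    have a2 := Nat.lt_floor_add_one (2 * x i)
    have b1 := Nat.floor_le hj0
    have b2 := Nat.lt_floor_add_one (2 * x j)
    have hij' : (⌊2 * x i⌋₊ : ℝ) = (⌊2 * x j⌋₊ : ℝ) := by exact_mod_cast hij
    have : |x i - x j| < 1 / 2 := by
      rw [abs_lt]; constructor <;> linarith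
    linarith
  have hm0 : (0 : ℝ) < m := by
    have : (3 : ℝ) ≤ m := by exact_mod_cast hm
    linarith
  have hle : ∀ i ∈ s, ((x i) ^ 2)⁻¹ ≤ 4 * (((φ i : ℕ) : ℝ) ^ 2)⁻¹ := by
    intro i hi
    have hxi := hs i hi
    have hi0 : 0 ≤ 2 * x i := by linarith
    have a1 := Nat.floor_le hi0
    have a2 := Nat.lt_floor_add_one (2 * x i)
    have hφi : (0 : ℝ) < (φ i : ℝ) := by
      have : (3 : ℝ) ≤ m := by exact_mod_cast hm
      have : 2 * x i ≥ 6 := by linarith
      simp only [hφ]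
      linarith
    have hφle : (φ i : ℝ) ≤ 2 * x i := by simpa [hφ] using a1
    have h2 : ((2 * x i) ^ 2)⁻¹ ≤ ((φ i : ℝ) ^ 2)⁻¹ := by
      apply inv_anti₀ (by positivity)
      exact pow_le_pow_left₀ hφi.le hφle 2
    have h3 : ((x i) ^ 2)⁻¹ = 4 * ((2 * x i) ^ 2)⁻¹ := by
      have : x i ≠ 0 := by linarith
      field_simp
      ring
    rw [h3]
    linarith
  calc ∑ i ∈ s, ((x i) ^ 2)⁻¹ ≤ ∑ i ∈ s, 4 * (((φ i : ℕ) : ℝ) ^ 2)⁻¹ := Finset.sum_le_sum hle
    _ = 4 * ∑ i ∈ s, (((φ i : ℕ) : ℝ) ^ 2)⁻¹ := by rw [Finset.mul_sum]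
    _ = 4 * ∑ j ∈ s.image φ, ((j : ℝ) ^ 2)⁻¹ := by
        rw [Finset.sum_image (fun a ha b hb h => hinj ha hb h)]
    _ ≤ 4 * (2 / m) := by
        gcongr
        apply sum_inv_sq_nat _ m (by omega)
        intro j hj
        rw [Finset.mem_image] at hj
        obtain ⟨i, hi, rfl⟩ := hj
        have hxi := hs i hi
        have : ((m + 1 : ℕ) : ℝ) ≤ 2 * x i := by
          push_cast
          have : (3 : ℝ) ≤ m := by exact_mod_cast hm
          linarith
        exact Nat.le_floor this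
    _ ≤ 16 / m := by
        have : 4 * (2 / (m : ℝ)) = 8 / m := by ring
        rw [this]
        gcongr
        norm_num

/-- Two-sided tail bound. -/
lemma tail_two_side {ι : Type*} (x : ι → ℝ) (δ : ℝ) (hδ : 1 / 2 < δ)
    (hsep : ∀ i j, i ≠ j → δ ≤ |x i - x j|) (s : Finset ι) (m : ℕ) (hm : 3 ≤ m) (c : ℝ)
    (hs : ∀ i ∈ s, (m : ℝ) ≤ |x i - c|) :
    ∑ i ∈ s, ((c - x i) ^ 2)⁻¹ ≤ 32 / m := by
  classical
  have hsplit : ∑ i ∈ s, ((c - x i) ^ 2)⁻¹ =
      ∑ i ∈ s with c ≤ x i, ((c - x i) ^ 2)⁻¹ + ∑ i ∈ s with ¬ c ≤ x i, ((c - x i) ^ 2)⁻¹ := by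
    rw [Finset.sum_filter_add_sum_filter_not]
  have h1 : ∑ i ∈ s with c ≤ x i, ((c - x i) ^ 2)⁻¹ ≤ 16 / m := by
    have := tail_one_side (fun i => x i - c) δ hδ
      (fun i j hij => by
        have := hsep i j hij
        simpa using this) (s.filter (fun i => c ≤ x i)) m hm
      (fun i hi => by
        rw [Finset.mem_filter] at hi
        have := hs i hi.1
        rwa [abs_of_nonneg (by linarith [hi.2])] at this)
    refine le_trans (le_of_eq ?_) this
    apply Finset.sum_congr rfl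
    intro i _
    congr 1
    ring
  have h2 : ∑ i ∈ s with ¬ c ≤ x i, ((c - x i) ^ 2)⁻¹ ≤ 16 / m := by
    have := tail_one_side (fun i => c - x i) δ hδ
      (fun i j hij => by
        have := hsep j i hij.symm
        have e : c - x i - (c - x j) = x j - x i := by ring
        rw [e]
        exact this) (s.filter (fun i => ¬ c ≤ x i)) m hm
      (fun i hi => by
        rw [Finset.mem_filter] at hi
        have h := hs i hi.1
        have h' := hi.2
        push Not at h'
        rw [abs_of_nonpos (by linarith)] at h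
        linarith)
    exact this
  rw [hsplit]
  have : (16 : ℝ) / m + 16 / m = 32 / m := by ring
  linarith

/-- Counting points of a separated family in an interval. -/
lemma count {ι : Type*} (x : ι → ℝ) (δ : ℝ) (hδ : 0 < δ)
    (hsep : ∀ i j, i ≠ j → δ ≤ |x i - x j|) (s : Finset ι) (a L : ℝ) (hL : 0 ≤ L)
    (hs : ∀ i ∈ s, a ≤ x i ∧ x i ≤ a + L) :
    (s.card : ℝ) ≤ L / δ + 1 := by
  classical
  set φ : ι → ℕ := fun i => ⌊(x i - a) / δ⌋₊ with hφ
  have hnn : ∀ i ∈ s, 0 ≤ (x i - a) / δ := fun i hi => by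
    have := (hs i hi).1
    apply div_nonneg <;> linarith
  have hinj : Set.InjOn φ (s : Set ι) := by
    intro i hi j hj hij
    by_contra hne
    have h1 := hsep i j hne
    have a1 := Nat.floor_le (hnn i hi)
    have a2 := Nat.lt_floor_add_one ((x i - a) / δ)
    have b1 := Nat.floor_le (hnn j hj)
    have b2 := Nat.lt_floor_add_one ((x j - a) / δ)
    have hij' : (⌊(x i - a) / δ⌋₊ : ℝ) = (⌊(x j - a) / δ⌋₊ : ℝ) := by exact_mod_cast hij
    have h3 : |(x i - a) / δ - (x j - a) / δ| < 1 := by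
      rw [abs_lt]; constructor <;> linarith
    have h4 : (x i - a) / δ - (x j - a) / δ = (x i - x j) / δ := by ring
    rw [h4, abs_div, abs_of_pos hδ, div_lt_one hδ] at h3
    linarith
  have hsub : s.image φ ⊆ Finset.range (⌊L / δ⌋₊ + 1) := by
    intro j hj
    rw [Finset.mem_image] at hj
    obtain ⟨i, hi, rfl⟩ := hj
    rw [Finset.mem_range]
    have : (x i - a) / δ ≤ L / δ := by
      have := (hs i hi).2
      gcongr
      linarith
    have := Nat.floor_le_floor this
    simp only [hφ]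
    omega
  have hcard : s.card ≤ ⌊L / δ⌋₊ + 1 := by
    rw [← Finset.card_image_of_injOn hinj]
    calc (s.image φ).card ≤ (Finset.range (⌊L / δ⌋₊ + 1)).card := Finset.card_le_card hsub
      _ = _ := Finset.card_range _
  have h5 : (⌊L / δ⌋₊ : ℝ) ≤ L / δ := Nat.floor_le (by positivity)
  have : (s.card : ℝ) ≤ ((⌊L / δ⌋₊ + 1 : ℕ) : ℝ) := by exact_mod_cast hcard
  push_cast at this
  linarith

/-- A family of reals that is `δ`-separated with `δ > 1/2` cannot satisfy
`∑ g (k - x i) = 2` for every integer `k`, if `0 ≤ g`, `g u ≤ 1/u²` and `∑_{k} g (k - y) ≤ 1`. -/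
theorem no_density_two {ι : Type*} (x : ι → ℝ) (δ : ℝ) (hδ : 1 / 2 < δ)
    (hsep : ∀ i j, i ≠ j → δ ≤ |x i - x j|) (g : ℝ → ℝ) (hg0 : ∀ u, 0 ≤ g u)
    (hg1 : ∀ u, u ≠ 0 → g u ≤ (u ^ 2)⁻¹)
    (hg2 : ∀ (y : ℝ) (K : ℕ), ∑ k ∈ Finset.range K, g ((k : ℝ) - y) ≤ 1)
    (hsum : ∀ k : ℕ, HasSum (fun i => g ((k : ℝ) - x i)) 2) : False := by
  classical
  have key : ∀ m : ℕ, 3 ≤ m → 2 * (m : ℝ) ^ 2 ≤ ((m : ℝ) ^ 2 + 2 * m) / δ + 1 + 32 * m := by
    intro m hm
    set K : ℕ := m ^ 2 with hK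
    have hmpos : (0 : ℝ) < m := by
      have : (3 : ℝ) ≤ m := by exact_mod_cast hm
      linarith
    have htot : HasSum (fun i => ∑ k ∈ Finset.range K, g ((k : ℝ) - x i))
        (∑ _k ∈ Finset.range K, (2 : ℝ)) := hasSum_sum (fun k _ => hsum k)
    have h2K : ∑ _k ∈ Finset.range K, (2 : ℝ) = 2 * (m : ℝ) ^ 2 := by
      rw [Finset.sum_const, Finset.card_range, hK]
      simp
      ring
    rw [h2K] at htot
    refine hasSum_le_of_sum_le htot (fun s => ?_)
    set P : ι → Prop := fun i => -(m : ℝ) ≤ x i ∧ x i ≤ -(m : ℝ) + ((K : ℝ) + 2 * m) with hP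
    rw [← Finset.sum_filter_add_sum_filter_not s P]
    have hA : ∑ i ∈ s with P i, ∑ k ∈ Finset.range K, g ((k : ℝ) - x i)
        ≤ ((m : ℝ) ^ 2 + 2 * m) / δ + 1 := by
      calc ∑ i ∈ s with P i, ∑ k ∈ Finset.range K, g ((k : ℝ) - x i)
          ≤ ∑ i ∈ s with P i, (1 : ℝ) := Finset.sum_le_sum (fun i _ => hg2 (x i) K)
        _ = ((s.filter P).card : ℝ) := by simp
        _ ≤ ((K : ℝ) + 2 * m) / δ + 1 :=
            count x δ (by linarith) hsep _ (-(m : ℝ)) _ (by positivity)
              (fun i hi => (Finset.mem_filter.1 hi).2)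
        _ = _ := by rw [hK]; push_cast; ring
    have hB : ∑ i ∈ s with ¬ P i, ∑ k ∈ Finset.range K, g ((k : ℝ) - x i) ≤ 32 * m := by
      rw [Finset.sum_comm]
      calc ∑ k ∈ Finset.range K, ∑ i ∈ s with ¬ P i, g ((k : ℝ) - x i)
          ≤ ∑ _k ∈ Finset.range K, (32 / (m : ℝ)) := by
            apply Finset.sum_le_sum
            intro k hk
            rw [Finset.mem_range] at hk
            have hfar : ∀ i ∈ s.filter (fun i => ¬ P i), (m : ℝ) ≤ |x i - k| := by
              intro i hi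
              have hni := (Finset.mem_filter.1 hi).2
              have hk' : (k : ℝ) ≤ K := by exact_mod_cast hk.le
              have hk0 : (0 : ℝ) ≤ k := Nat.cast_nonneg k
              by_cases h : -(m : ℝ) ≤ x i
              · have h2 : -(m : ℝ) + ((K : ℝ) + 2 * m) < x i := by
                  by_contra h3
                  push Not at h3
                  exact hni ⟨h, h3⟩
                rw [abs_of_nonneg (by linarith)]
                linarith
              · push Not at h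
                rw [abs_of_nonpos (by linarith)]
                linarith
            refine le_trans (Finset.sum_le_sum (fun i hi => ?_))
              (tail_two_side x δ hδ hsep _ m hm (k : ℝ) hfar)
            apply hg1
            intro h0
            have := hfar i hi
            have e : x i - k = 0 := by linarith
            rw [e, abs_zero] at this
            linarith
        _ = 32 * m := by
            rw [Finset.sum_const, Finset.card_range, hK]
            simp only [nsmul_eq_mul]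
            push_cast
            field_simp
    linarith
  -- conclude for large m
  have hδ0 : 0 < δ := by linarith
  set c : ℝ := 2 - 1 / δ with hc
  have hcpos : 0 < c := by
    rw [hc]
    have : 1 / δ < 2 := by
      rw [div_lt_iff₀ hδ0]
      linarith
    linarith
  obtain ⟨m, hm⟩ := exists_nat_gt (max 3 ((2 / δ + 33) / c + 1))
  have hm3 : (3 : ℝ) < m := lt_of_le_of_lt (le_max_left _ _) hm
  have hm4 : (2 / δ + 33) / c + 1 < m := lt_of_le_of_lt (le_max_right _ _) hm
  have hk := key m (by exact_mod_cast hm3.le)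
  have e1 : ((m : ℝ) ^ 2 + 2 * m) / δ = (1 / δ) * (m : ℝ) ^ 2 + (2 / δ) * m := by
    field_simp
  rw [e1] at hk
  have h5 : (2 / δ + 33) < c * m := by
    have : (2 / δ + 33) / c < m := by linarith
    rw [div_lt_iff₀ hcpos] at this
    linarith
  have h6 : (2 / δ + 33) * m < c * m * m := by
    apply mul_lt_mul_of_pos_right h5
    linarith
  have h7 : c * m * m = 2 * (m : ℝ) ^ 2 - (1 / δ) * (m : ℝ) ^ 2 := by rw [hc]; ring
  nlinarith

end Pool.Agent.Q168.Density
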