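import Mathlib

set_option autoImplicit false
open MeasureTheory Set Filter Topology

namespace Pool.Agent.Q168.HS

/-- The dyadic interval `[k 2^j, (k+1) 2^j)`. -/
def dy (j k : ℤ) : Set ℝ := Ico ((k : ℝ) * 2 ^ j) (((k : ℝ) + 1) * 2 ^ j)

/-- The indicator function of the dyadic interval. -/
noncomputable def ind (j k : ℤ) (x : ℝ) : ℝ := (dy j k).indicator (fun _ => (1 : ℝ)) x

/-- The Haar function of the dyadic interval `dy j k`. -/
noncomputable def haar (j k : ℤ) (x : ℝ) : ℝ :=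
  (Real.sqrt ((2 : ℝ) ^ j))⁻¹ * (ind (j - 1) (2 * k + 1) x - ind (j - 1) (2 * k) x)

abbrev L2R : Type := Lp ℝ 2 (volume : Measure ℝ)

lemma dy_meas (j k : ℤ) : MeasurableSet (dy j k) := measurableSet_Ico

lemma two_pow (j : ℤ) : (2 : ℝ) ^ j = 2 * 2 ^ (j - 1) := by
  rw [← zpow_one_add₀ (by norm_num : (2 : ℝ) ≠ 0)]
  congr 1
  ring

lemma ind_of_mem {j k : ℤ} {x : ℝ} (h : x ∈ dy j k) : ind j k x = 1 := by
  unfold ind; rw [indicator_of_mem h]

lemma ind_of_notMem {j k : ℤ} {x : ℝ} (h : x ∉ dy j k) : ind j k x = 0 := by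
  unfold ind; rw [indicator_of_notMem h]

lemma dy_split (j k : ℤ) : dy j k = dy (j - 1) (2 * k) ∪ dy (j - 1) (2 * k + 1) := by
  have hp : (0 : ℝ) < 2 ^ (j - 1) := by positivity
  unfold dy
  rw [two_pow j]
  push_cast
  set t := (2 : ℝ) ^ (j - 1)
  rw [show ((k : ℝ) * (2 * t)) = 2 * k * t by ring,
    show (((k : ℝ) + 1) * (2 * t)) = (2 * (k : ℝ) + 1 + 1) * t by ring]
  rw [Ico_union_Ico_eq_Ico]
  · nlinarith
  · nlinarith

lemma dy_disj {j k k' : ℤ} (h : k ≠ k') : Disjoint (dy j k) (dy j k') := by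
  have hp : (0 : ℝ) < 2 ^ j := by positivity
  rw [Set.disjoint_left]
  rintro x ⟨h1, h2⟩ ⟨h3, h4⟩
  apply h
  have a1 : (k : ℝ) < k' + 1 := lt_of_mul_lt_mul_right (lt_of_le_of_lt h1 h4) hp.le
  have a2 : (k' : ℝ) < k + 1 := lt_of_mul_lt_mul_right (lt_of_le_of_lt h3 h2) hp.le
  have b1 : k < k' + 1 := by exact_mod_cast a1
  have b2 : k' < k + 1 := by exact_mod_cast a2
  omega

lemma ind_split (j k : ℤ) (x : ℝ) : ind j k x = ind (j - 1) (2 * k) x + ind (j - 1) (2 * k + 1) x := by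
  unfold ind
  rw [dy_split j k, indicator_union_of_disjoint (dy_disj (by omega))]

lemma ind_mul_ne {j k k' : ℤ} (h : k ≠ k') (x : ℝ) : ind j k x * ind j k' x = 0 := by
  by_cases h1 : x ∈ dy j k
  · rw [ind_of_notMem (Set.disjoint_left.1 (dy_disj h) h1), mul_zero]
  · rw [ind_of_notMem h1, zero_mul]

lemma ind_mul_self (j k : ℤ) (x : ℝ) : ind j k x * ind j k x = ind j k x := by
  by_cases h1 : x ∈ dy j k
  · rw [ind_of_mem h1, mul_one]
  · rw [ind_of_notMem h1, mul_zero]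

lemma dy_vol (j k : ℤ) : volume.real (dy j k) = 2 ^ j := by
  unfold dy
  rw [Real.volume_real_Ico_of_le]
  · ring
  · nlinarith [show (0 : ℝ) < 2 ^ j by positivity]

lemma dy_ne_top (j k : ℤ) : volume (dy j k) ≠ ⊤ := by
  unfold dy
  rw [Real.volume_Ico]
  exact ENNReal.ofReal_ne_top

lemma ind_integral (j k : ℤ) : ∫ x, ind j k x = 2 ^ j := by
  unfold ind
  rw [integral_indicator (dy_meas j k), setIntegral_const, dy_vol]
  simp

lemma ind_integrable (j k : ℤ) : Integrable (ind j k) := by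
  unfold ind
  rw [integrable_indicator_iff (dy_meas j k)]
  exact integrableOn_const (dy_ne_top j k)

lemma ind_memLp (j k : ℤ) : MemLp (ind j k) 2 := by
  unfold ind
  exact memLp_indicator_const 2 (dy_meas j k) 1 (Or.inr (dy_ne_top j k))

lemma haar_memLp (j k : ℤ) : MemLp (haar j k) 2 :=
  ((ind_memLp _ _).sub (ind_memLp _ _)).const_mul _

lemma haar_integrable (j k : ℤ) : Integrable (haar j k) :=
  ((ind_integrable _ _).sub (ind_integrable _ _)).const_mul _

lemma haar_integral (j k : ℤ) : ∫ x, haar j k x = 0 := by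
  unfold haar
  rw [integral_const_mul, integral_sub (ind_integrable _ _) (ind_integrable _ _), ind_integral,
    ind_integral, sub_self, mul_zero]

lemma haar_of_notMem {j k : ℤ} {x : ℝ} (h : x ∉ dy j k) : haar j k x = 0 := by
  rw [dy_split j k, mem_union, not_or] at h
  unfold haar
  rw [ind_of_notMem h.1, ind_of_notMem h.2, sub_zero, mul_zero]

lemma haar_sq_integral (j k : ℤ) : ∫ x, haar j k x * haar j k x = 1 := by
  have h : ∀ x, haar j k x * haar j k x = ((2 : ℝ) ^ j)⁻¹ *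
      (ind (j - 1) (2 * k + 1) x + ind (j - 1) (2 * k) x) := by
    intro x
    unfold haar
    have h1 : (Real.sqrt ((2 : ℝ) ^ j))⁻¹ * (Real.sqrt ((2 : ℝ) ^ j))⁻¹ = ((2 : ℝ) ^ j)⁻¹ := by
      rw [← mul_inv, Real.mul_self_sqrt (by positivity)]
    have h2 := ind_mul_ne (j := j - 1) (show 2 * k + 1 ≠ 2 * k by omega) x
    have h3 := ind_mul_self (j - 1) (2 * k + 1) x
    have h4 := ind_mul_self (j - 1) (2 * k) x
    rw [← h1]
    set a := ind (j - 1) (2 * k + 1) x
    set b := ind (j - 1) (2 * k) x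
    have h5 : (a - b) * (a - b) = a + b := by
      calc (a - b) * (a - b) = a * a + b * b - 2 * (a * b) := by ring
        _ = a + b := by rw [h2, h3, h4]; ring
    calc _ = (Real.sqrt ((2 : ℝ) ^ j))⁻¹ * (Real.sqrt ((2 : ℝ) ^ j))⁻¹ * ((a - b) * (a - b)) := by
            ring
      _ = _ := by rw [h5]
  simp only [h]
  rw [integral_const_mul, integral_add (ind_integrable _ _) (ind_integrable _ _), ind_integral,
    ind_integral, two_pow j]
  have : (2 : ℝ) ^ (j - 1) ≠ 0 := by positivity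
  field_simp
  ring

/-- `F` is constant on `dy j k` -/
def CO (F : ℝ → ℝ) (j k : ℤ) : Prop := ∃ c : ℝ, ∀ x ∈ dy j k, F x = c

lemma co_ind (j k : ℤ) (n : ℕ) : ∀ l : ℤ, CO (ind (j + n) l) j k := by
  induction n with
  | zero =>
    intro l
    by_cases h : k = l
    · subst h
      refine ⟨1, fun x hx => ?_⟩
      simp only [Nat.cast_zero, add_zero]
      exact ind_of_mem hx
    · refine ⟨0, fun x hx => ?_⟩
      simp only [Nat.cast_zero, add_zero]
      exact ind_of_notMem (Set.disjoint_left.1 (dy_disj h) hx)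
  | succ n ih =>
    intro l
    obtain ⟨c, hc⟩ := ih (2 * l)
    obtain ⟨d, hd⟩ := ih (2 * l + 1)
    refine ⟨c + d, fun x hx => ?_⟩
    rw [ind_split, show j + ((n + 1 : ℕ) : ℤ) - 1 = j + n by push_cast; ring, hc x hx, hd x hx]

lemma co_ind' {j j' : ℤ} (k l : ℤ) (h : j ≤ j') : CO (ind j' l) j k := by
  obtain ⟨n, rfl⟩ := Int.le.dest h
  exact co_ind j k n l

lemma co_haar {j j' : ℤ} (k l : ℤ) (h : j < j') : CO (haar j' l) j k := by
  obtain ⟨c, hc⟩ := co_ind' (j := j) (j' := j' - 1) k (2 * l + 1) (by omega)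
  obtain ⟨d, hd⟩ := co_ind' (j := j) (j' := j' - 1) k (2 * l) (by omega)
  refine ⟨(Real.sqrt ((2 : ℝ) ^ j'))⁻¹ * (c - d), fun x hx => ?_⟩
  unfold haar
  rw [hc x hx, hd x hx]

lemma orth_const {F : ℝ → ℝ} {j k : ℤ} (h : CO F j k) : ∫ x, F x * haar j k x = 0 := by
  obtain ⟨c, hc⟩ := h
  have : ∀ x, F x * haar j k x = c * haar j k x := by
    intro x
    by_cases hx : x ∈ dy j k
    · rw [hc x hx]
    · rw [haar_of_notMem hx, mul_zero, mul_zero]
  simp only [this]
  rw [integral_const_mul, haar_integral, mul_zero]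

lemma haar_orth {j k j' k' : ℤ} (h : (j, k) ≠ (j', k')) : ∫ x, haar j k x * haar j' k' x = 0 := by
  rcases lt_trichotomy j j' with h1 | h1 | h1
  · have := orth_const (co_haar (j := j) (j' := j') k k' h1)
    rw [← this]
    congr 1
    funext x
    ring
  · subst h1
    have hk : k ≠ k' := fun hh => h (by rw [hh])
    have : ∀ x, haar j k x * haar j k' x = 0 := by
      intro x
      by_cases hx : x ∈ dy j k
      · rw [haar_of_notMem (j := j) (k := k') (Set.disjoint_left.1 (dy_disj hk) hx), mul_zero]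
      · rw [haar_of_notMem hx, zero_mul]
    simp only [this, integral_zero]
  · exact orth_const (co_haar k' k h1)

/-- the Haar function as an element of `L²` -/
noncomputable def hL (p : ℤ × ℤ) : L2R := (haar_memLp p.1 p.2).toLp _

lemma hL_coe (p : ℤ × ℤ) : (hL p : ℝ → ℝ) =ᵐ[volume] haar p.1 p.2 := MemLp.coeFn_toLp _

lemma inner_eq (F G : L2R) : inner ℝ F G = ∫ x, (F : ℝ → ℝ) x * (G : ℝ → ℝ) x := by
  rw [L2.inner_def]
  congr 1
  funext x
  simp [mul_comm]

lemma inner_hL (p : ℤ × ℤ) (G : L2R) : inner ℝ (hL p) G = ∫ x, haar p.1 p.2 x * (G : ℝ → ℝ) x := by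
  rw [inner_eq]
  apply integral_congr_ae
  filter_upwards [hL_coe p] with x hx
  rw [hx]

lemma hL_orthonormal : Orthonormal ℝ hL := by
  constructor
  · intro p
    have h : ‖hL p‖ ^ 2 = 1 := by
      rw [← real_inner_self_eq_norm_sq, inner_hL, ← haar_sq_integral p.1 p.2]
      apply integral_congr_ae
      filter_upwards [hL_coe p] with x hx
      rw [hx]
    nlinarith [norm_nonneg (hL p)]
  · intro p q hpq
    rw [inner_hL, ← haar_orth (j := p.1) (k := p.2) (j' := q.1) (k' := q.2) (by simpa using hpq)]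
    apply integral_congr_ae
    filter_upwards [hL_coe q] with x hx
    rw [hx]

/-! ### Integrals over dyadic intervals -/

lemma L2_integrableOn (F : L2R) {s : Set ℝ} (hs : volume s ≠ ⊤) : IntegrableOn (F : ℝ → ℝ) s := by
  have : IsFiniteMeasure (volume.restrict s) :=
    ⟨by rw [Measure.restrict_apply_univ]; exact hs.lt_top⟩
  exact ((Lp.memLp F).restrict s).integrable (by norm_num)

/-- the integral over a dyadic interval -/
noncomputable def IF (F : ℝ → ℝ) (j k : ℤ) : ℝ := ∫ x in dy j k, F x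

lemma IF_split (F : L2R) (j k : ℤ) :
    IF F j k = IF F (j - 1) (2 * k) + IF F (j - 1) (2 * k + 1) := by
  unfold IF
  rw [dy_split j k, setIntegral_union (dy_disj (by omega)) (dy_meas _ _)
    (L2_integrableOn F (dy_ne_top _ _)) (L2_integrableOn F (dy_ne_top _ _))]

lemma ind_mul_integral (F : L2R) (j k : ℤ) : ∫ x, ind j k x * (F : ℝ → ℝ) x = IF F j k := by
  unfold IF
  rw [← integral_indicator (dy_meas j k)]
  congr 1
  funext x
  by_cases hx : x ∈ dy j k
  · rw [ind_of_mem hx, indicator_of_mem hx, one_mul]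
  · rw [ind_of_notMem hx, indicator_of_notMem hx, zero_mul]

lemma ind_mul_integrable (F : L2R) (j k : ℤ) : Integrable (fun x => ind j k x * (F : ℝ → ℝ) x) := by
  have h := (L2_integrableOn F (dy_ne_top j k)).integrable_indicator (dy_meas j k)
  refine h.congr (Filter.Eventually.of_forall fun x => ?_)
  by_cases hx : x ∈ dy j k
  · simp only [ind_of_mem hx, indicator_of_mem hx, one_mul]
  · simp only [ind_of_notMem hx, indicator_of_notMem hx, zero_mul]

lemma coef_eq (F : L2R) (j k : ℤ) : inner ℝ (hL (j, k)) F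
    = (Real.sqrt ((2 : ℝ) ^ j))⁻¹ * (IF F (j - 1) (2 * k + 1) - IF F (j - 1) (2 * k)) := by
  rw [inner_hL, ← ind_mul_integral, ← ind_mul_integral, ← integral_sub (ind_mul_integrable _ _ _)
    (ind_mul_integrable _ _ _), ← integral_const_mul]
  congr 1
  funext x
  simp only [haar]
  ring

lemma IF_abs_le (F : L2R) (j k : ℤ) : |IF F j k| ≤ Real.sqrt ((2 : ℝ) ^ j) * ‖F‖ := by
  have h : IF F j k = inner ℝ (indicatorConstLp 2 (dy_meas j k) (dy_ne_top j k) (1 : ℝ)) F := by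
    rw [L2.inner_indicatorConstLp_one]
    rfl
  rw [h]
  refine (abs_real_inner_le_norm _ _).trans ?_
  gcongr
  apply le_of_eq
  have h2 : ‖indicatorConstLp 2 (dy_meas j k) (dy_ne_top j k) (1 : ℝ)‖ ^ 2 = (2 : ℝ) ^ j := by
    rw [← real_inner_self_eq_norm_sq, L2.real_inner_indicatorConstLp_one_indicatorConstLp_one
      (dy_meas j k) (dy_meas j k) (dy_ne_top j k) (dy_ne_top j k), inter_self, dy_vol]
  rw [← h2, Real.sqrt_sq (norm_nonneg _)]

/-- the index of the dyadic interval of length `2^j` containing `x` -/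
noncomputable def idx (j : ℤ) (x : ℝ) : ℤ := ⌊x / 2 ^ j⌋

lemma mem_dy_iff (j k : ℤ) (x : ℝ) : x ∈ dy j k ↔ idx j x = k := by
  have hp : (0 : ℝ) < 2 ^ j := by positivity
  unfold idx dy
  rw [Int.floor_eq_iff, mem_Ico, le_div_iff₀ hp, div_lt_iff₀ hp]

lemma mem_dy_idx (j : ℤ) (x : ℝ) : x ∈ dy j (idx j x) := (mem_dy_iff j _ x).2 rfl

lemma dy_ae_closedBall (j k : ℤ) :
    dy j k =ᵐ[volume] Metric.closedBall (((k : ℝ) + 1 / 2) * 2 ^ j) ((2 : ℝ) ^ j / 2) := by
  rw [Real.closedBall_eq_Icc]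
  unfold dy
  have e1 : ((k : ℝ) + 1 / 2) * 2 ^ j - (2 : ℝ) ^ j / 2 = k * 2 ^ j := by ring
  have e2 : ((k : ℝ) + 1 / 2) * 2 ^ j + (2 : ℝ) ^ j / 2 = (k + 1) * 2 ^ j := by ring
  rw [e1, e2]
  exact Ico_ae_eq_Icc

lemma mem_closedBall_idx (j : ℤ) (x : ℝ) :
    x ∈ Metric.closedBall (((idx j x : ℝ) + 1 / 2) * 2 ^ j) (1 * ((2 : ℝ) ^ j / 2)) := by
  rw [one_mul, Real.closedBall_eq_Icc]
  have h := mem_dy_idx j x
  unfold dy at h
  have e1 : ((idx j x : ℝ) + 1 / 2) * 2 ^ j - (2 : ℝ) ^ j / 2 = (idx j x) * 2 ^ j := by ring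
  have e2 : ((idx j x : ℝ) + 1 / 2) * 2 ^ j + (2 : ℝ) ^ j / 2 = ((idx j x : ℝ) + 1) * 2 ^ j := by
    ring
  rw [e1, e2]
  exact ⟨h.1, h.2.le⟩

lemma delta_tendsto : Tendsto (fun n : ℕ => (2 : ℝ) ^ (-(n : ℤ)) / 2) atTop (𝓝[>] 0) := by
  rw [tendsto_nhdsWithin_iff]
  constructor
  · have h1 : Tendsto (fun n : ℕ => (2⁻¹ : ℝ) ^ n / 2) atTop (𝓝 (0 / 2)) :=
      (tendsto_pow_atTop_nhds_zero_of_lt_one (by norm_num) (by norm_num)).div_const 2
    rw [zero_div] at h1
    refine h1.congr fun n => ?_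
    rw [zpow_neg, zpow_natCast, inv_pow]
  · exact Filter.Eventually.of_forall fun n => by
      rw [mem_Ioi]; positivity

/-- completeness of the Haar system -/
lemma hL_complete (F : L2R) (h : ∀ p, inner ℝ (hL p) F = 0) : F = 0 := by
  -- all integrals over dyadic intervals vanish
  have h1 : ∀ j k : ℤ, IF F (j - 1) (2 * k + 1) = IF F (j - 1) (2 * k) := by
    intro j k
    have := h (j, k)
    rw [coef_eq] at this
    have hp : (Real.sqrt ((2 : ℝ) ^ j))⁻¹ ≠ 0 := by positivity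
    have := (mul_eq_zero.1 this).resolve_left hp
    linarith
  have h2 : ∀ j k : ℤ, ∃ k' : ℤ, IF F j k = IF F (j + 1) k' / 2 := by
    intro j k
    rcases Int.even_or_odd' k with ⟨m, hm | hm⟩
    · refine ⟨m, ?_⟩
      have e1 := IF_split F (j + 1) m
      have e2 := h1 (j + 1) m
      rw [show j + 1 - 1 = j by ring] at e1 e2
      rw [hm]
      linarith
    · refine ⟨m, ?_⟩
      have e1 := IF_split F (j + 1) m
      have e2 := h1 (j + 1) m
      rw [show j + 1 - 1 = j by ring] at e1 e2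
      rw [hm]
      linarith
  have h3 : ∀ n : ℕ, ∀ j k : ℤ, ∃ k' : ℤ, IF F j k = IF F (j + n) k' / 2 ^ n := by
    intro n
    induction n with
    | zero => intro j k; exact ⟨k, by simp⟩
    | succ n ih =>
      intro j k
      obtain ⟨k', hk'⟩ := ih j k
      obtain ⟨k'', hk''⟩ := h2 (j + n) k'
      refine ⟨k'', ?_⟩
      rw [hk', hk'', show j + (n : ℤ) + 1 = j + ((n + 1 : ℕ) : ℤ) by push_cast; ring, pow_succ]
      field_simp
  have h4 : ∀ j k : ℤ, IF F j k = 0 := by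
    intro j k
    have hb : ∀ n : ℕ, |IF F j k| ≤ Real.sqrt ((2 : ℝ) ^ j) * ‖F‖ * (Real.sqrt 2)⁻¹ ^ n := by
      intro n
      obtain ⟨k', hk'⟩ := h3 n j k
      rw [hk', abs_div, abs_of_pos (show (0 : ℝ) < 2 ^ n by positivity)]
      have e := IF_abs_le F (j + n) k'
      rw [zpow_add₀ (by norm_num : (2 : ℝ) ≠ 0), Real.sqrt_mul (by positivity), zpow_natCast] at e
      have e3 : Real.sqrt ((2 : ℝ) ^ n) = Real.sqrt 2 ^ n := by
        rw [← Real.sqrt_sq (show (0 : ℝ) ≤ Real.sqrt 2 ^ n by positivity), ← pow_mul, mul_comm n 2,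
          pow_mul, Real.sq_sqrt (by norm_num)]
      have e4 : (2 : ℝ) ^ n = Real.sqrt 2 ^ n * Real.sqrt 2 ^ n := by
        rw [← mul_pow, Real.mul_self_sqrt (by norm_num)]
      rw [e3] at e
      rw [div_le_iff₀ (by positivity), e4, inv_pow]
      have hs : (0 : ℝ) < Real.sqrt 2 ^ n := by positivity
      calc |IF F (j + n) k'| ≤ Real.sqrt (2 ^ j) * Real.sqrt 2 ^ n * ‖F‖ := e
        _ = Real.sqrt (2 ^ j) * ‖F‖ * (Real.sqrt 2 ^ n)⁻¹ * (Real.sqrt 2 ^ n * Real.sqrt 2 ^ n) := by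
          field_simp
    have hlim : Tendsto (fun n : ℕ => Real.sqrt ((2 : ℝ) ^ j) * ‖F‖ * (Real.sqrt 2)⁻¹ ^ n) atTop
        (𝓝 (Real.sqrt ((2 : ℝ) ^ j) * ‖F‖ * 0)) := by
      refine Tendsto.const_mul _ (tendsto_pow_atTop_nhds_zero_of_lt_one (by positivity) ?_)
      apply inv_lt_one_of_one_lt₀
      rw [show (1 : ℝ) = Real.sqrt 1 by simp]
      exact Real.sqrt_lt_sqrt (by norm_num) (by norm_num)
    rw [mul_zero] at hlim
    have := ge_of_tendsto' hlim hb
    exact abs_nonpos_iff.1 this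
  have hloc : LocallyIntegrable (F : ℝ → ℝ) volume :=
    (Lp.memLp F).locallyIntegrable (by norm_num)
  apply Lp.ext
  refine EventuallyEq.trans ?_ (Lp.coeFn_zero _ _ _).symm
  filter_upwards [IsUnifLocDoublingMeasure.ae_tendsto_average (μ := volume) hloc 1] with x hx
  have h5 := hx (l := atTop) (fun n : ℕ => ((idx (-(n : ℤ)) x : ℝ) + 1 / 2) * 2 ^ (-(n : ℤ)))
    (fun n : ℕ => (2 : ℝ) ^ (-(n : ℤ)) / 2) delta_tendsto
    (Filter.Eventually.of_forall fun n => mem_closedBall_idx _ _)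
  have h6 : ∀ n : ℕ, (⨍ y in Metric.closedBall (((idx (-(n : ℤ)) x : ℝ) + 1 / 2) * 2 ^ (-(n : ℤ)))
      ((2 : ℝ) ^ (-(n : ℤ)) / 2), (F : ℝ → ℝ) y) = 0 := by
    intro n
    rw [setAverage_eq]
    have : ∫ y in Metric.closedBall (((idx (-(n : ℤ)) x : ℝ) + 1 / 2) * 2 ^ (-(n : ℤ)))
      ((2 : ℝ) ^ (-(n : ℤ)) / 2), (F : ℝ → ℝ) y = IF F (-(n : ℤ)) (idx (-(n : ℤ)) x) := by
      unfold IF
      exact (setIntegral_congr_set (dy_ae_closedBall _ _)).symm
    rw [this, h4, smul_zero]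
  simp only [h6] at h5
  exact tendsto_nhds_unique h5 tendsto_const_nhds |>.trans rfl

/-- the Haar basis -/
noncomputable def hb : HilbertBasis (ℤ × ℤ) ℝ L2R :=
  HilbertBasis.mkOfOrthogonalEqBot hL_orthonormal (by
    rw [Submodule.eq_bot_iff]
    intro F hF
    apply hL_complete
    intro p
    exact (Submodule.mem_orthogonal _ _).1 hF _ (Submodule.subset_span ⟨p, rfl⟩))

lemma hb_coe : (hb : ℤ × ℤ → L2R) = hL := HilbertBasis.coe_mkOfOrthogonalEqBot _ _

end Pool.Agent.Q168.HS
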