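import Pool.Agent.Q168.HS1

set_option autoImplicit false
open MeasureTheory Set Filter Topology

namespace Pool.Agent.Q168.HS

/-- The image of the Haar function of `dy j k` under the Haar shift: if `k` is even, `dy j k` is a
left half and its sibling is `dy j (k+1)`; if `k` is odd, it is a right half and its sibling is
`dy j (k-1)`. -/
noncomputable def thaar (j k : ℤ) (x : ℝ) : ℝ :=
  if Even k then - haar j (k + 1) x else haar j (k - 1) x

/-- `T` is the Haar shift. -/
def IsShift (T : L2R →L[ℝ] L2R) : Prop :=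
  ∀ (j k : ℤ) (F : L2R), (F : ℝ → ℝ) =ᵐ[volume] haar j k → (T F : ℝ → ℝ) =ᵐ[volume] thaar j k

/-- the sibling -/
def sib (k : ℤ) : ℤ := if Even k then k + 1 else k - 1

/-- the sign -/
def sg (k : ℤ) : ℝ := if Even k then -1 else 1

lemma sib_sib (k : ℤ) : sib (sib k) = k := by
  unfold sib
  by_cases h : Even k
  · have h' : ¬ Even (k + 1) := by rw [Int.even_add_one]; simpa using h
    rw [if_pos h, if_neg h']; ring
  · have h' : Even (k - 1) := by
      rw [Int.even_sub_one]; exact h
    rw [if_neg h, if_pos h']; ring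

lemma sg_sib (k : ℤ) : sg (sib k) = - sg k := by
  unfold sg sib
  by_cases h : Even k
  · have h' : ¬ Even (k + 1) := by rw [Int.even_add_one]; simpa using h
    rw [if_pos h, if_neg h', if_pos h]; ring
  · have h' : Even (k - 1) := by
      rw [Int.even_sub_one]; exact h
    rw [if_neg h, if_pos h', if_neg h]

lemma sg_sq (k : ℤ) : sg k * sg k = 1 := by
  unfold sg
  split_ifs <;> norm_num

lemma T_hL {T : L2R →L[ℝ] L2R} (hT : IsShift T) (j k : ℤ) :
    T (hL (j, k)) = sg k • hL (j, sib k) := by
  apply Lp.ext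
  have h := hT j k (hL (j, k)) (hL_coe (j, k))
  filter_upwards [h, Lp.coeFn_smul (sg k) (hL (j, sib k)), hL_coe (j, sib k)] with x h1 h2 h3
  rw [h1, h2, Pi.smul_apply, h3]
  unfold thaar sg sib
  split_ifs <;> simp

lemma inner_h (p q : ℤ × ℤ) : inner ℝ (hL p) (hL q) = if p = q then (1 : ℝ) else 0 := by
  have := orthonormal_iff_ite.1 hL_orthonormal p q
  exact this

lemma ext_h {F G : L2R} (h : ∀ p, inner ℝ (hL p) F = inner ℝ (hL p) G) : F = G := by
  rw [← sub_eq_zero]
  apply hL_complete
  intro p
  rw [inner_sub_right, h p, sub_self]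

lemma adj_h {T : L2R →L[ℝ] L2R} (hT : IsShift T) (p : ℤ × ℤ) :
    ContinuousLinearMap.adjoint T (hL p) = - T (hL p) := by
  apply ext_h
  intro q
  obtain ⟨j, k⟩ := p
  obtain ⟨j', k'⟩ := q
  rw [ContinuousLinearMap.adjoint_inner_right, T_hL hT, T_hL hT, inner_smul_left, inner_neg_right,
    inner_smul_right, inner_h, inner_h]
  simp only [Prod.mk.injEq, conj_trivial]
  by_cases h1 : j' = j
  · by_cases h2 : sib k' = k
    · have h3 : k' = sib k := by rw [← h2, sib_sib]
      rw [if_pos ⟨h1, h2⟩, if_pos ⟨h1, h3⟩, h3, sg_sib]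
      ring
    · have h3 : ¬ k' = sib k := by
        intro hc
        apply h2
        rw [hc, sib_sib]
      rw [if_neg (by tauto), if_neg (by tauto)]
      simp
  · rw [if_neg (by tauto), if_neg (by tauto)]
    simp

lemma adj_eq {T : L2R →L[ℝ] L2R} (hT : IsShift T) (u : L2R) :
    ContinuousLinearMap.adjoint T u = - T u := by
  apply ext_h
  intro p
  rw [ContinuousLinearMap.adjoint_inner_right, inner_neg_right,
    ← ContinuousLinearMap.adjoint_inner_left, adj_h hT, inner_neg_left, neg_neg]

lemma anti {T : L2R →L[ℝ] L2R} (hT : IsShift T) (u w : L2R) :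
    inner ℝ (T u) w = - inner ℝ u (T w) := by
  rw [← ContinuousLinearMap.adjoint_inner_right, adj_eq hT, inner_neg_right]

lemma anti_self {T : L2R →L[ℝ] L2R} (hT : IsShift T) (u : L2R) : inner ℝ u (T u) = (0 : ℝ) := by
  have h := anti hT u u
  rw [real_inner_comm] at h
  linarith

lemma coef_T {T : L2R →L[ℝ] L2R} (hT : IsShift T) (v : L2R) (j k : ℤ) :
    inner ℝ (hL (j, k)) (T v) = - sg k * inner ℝ (hL (j, sib k)) v := by
  have h := anti hT (hL (j, k)) v
  rw [T_hL hT, inner_smul_left] at h
  simp only [conj_trivial] at h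
  linarith

lemma T_T {T : L2R →L[ℝ] L2R} (hT : IsShift T) (u : L2R) : T (T u) = - u := by
  apply ext_h
  rintro ⟨j, k⟩
  rw [coef_T hT, coef_T hT, sib_sib, sg_sib, inner_neg_right]
  have := sg_sq k
  linear_combination (-(inner ℝ (hL (j, k)) u : ℝ)) * this

lemma T_norm {T : L2R →L[ℝ] L2R} (hT : IsShift T) (u : L2R) : ‖T u‖ = ‖u‖ := by
  have h : ‖T u‖ ^ 2 = ‖u‖ ^ 2 := by
    rw [← real_inner_self_eq_norm_sq, ← real_inner_self_eq_norm_sq, anti hT, T_T hT,
      inner_neg_right, neg_neg]
  nlinarith [norm_nonneg (T u), norm_nonneg u]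

/-- restriction of a function to a set -/
noncomputable def res (s : Set ℝ) (hs : MeasurableSet s) (F : L2R) : L2R :=
  ((Lp.memLp F).indicator hs).toLp _

lemma res_coe {s : Set ℝ} (hs : MeasurableSet s) (F : L2R) :
    (res s hs F : ℝ → ℝ) =ᵐ[volume] s.indicator (F : ℝ → ℝ) := MemLp.coeFn_toLp _

lemma inner_res {s : Set ℝ} (hs : MeasurableSet s) (F G : L2R) :
    inner ℝ G (res s hs F) = ∫ x in s, (F : ℝ → ℝ) x * (G : ℝ → ℝ) x := by
  rw [inner_eq, ← integral_indicator hs]
  apply integral_congr_ae
  filter_upwards [res_coe hs F] with x hx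
  rw [hx]
  by_cases h : x ∈ s
  · rw [indicator_of_mem h, indicator_of_mem h, mul_comm]
  · rw [indicator_of_notMem h, indicator_of_notMem h, mul_zero]

lemma hL_res {s : Set ℝ} (hs : MeasurableSet s) (F : L2R) (p : ℤ × ℤ) :
    inner ℝ (hL p) (res s hs F) = ∫ x in s, (F : ℝ → ℝ) x * haar p.1 p.2 x := by
  rw [inner_res]
  apply integral_congr_ae
  filter_upwards [ae_restrict_of_ae (hL_coe p)] with x hx
  rw [hx]

/-- the indicator of a dyadic interval in `L²` -/
noncomputable def iL (j k : ℤ) : L2R := indicatorConstLp 2 (dy_meas j k) (dy_ne_top j k) (1 : ℝ)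

lemma inner_iL (j k : ℤ) (F : L2R) : inner ℝ (iL j k) F = IF F j k := by
  unfold iL
  rw [L2.inner_indicatorConstLp_one]
  rfl

/-- the local part of `v` on `dy j k` -/
noncomputable def uL (v : L2R) (j k : ℤ) : L2R :=
  res (dy j k) (dy_meas j k) v - (IF v j k / 2 ^ j) • iL j k - (inner ℝ (hL (j, k)) v : ℝ) • hL (j, k)

lemma inner_hL_iL (p : ℤ × ℤ) (j k : ℤ) :
    inner ℝ (hL p) (iL j k) = ∫ x in dy j k, haar p.1 p.2 x := by
  rw [real_inner_comm, inner_iL]
  unfold IF
  apply integral_congr_ae
  filter_upwards [ae_restrict_of_ae (hL_coe p)] with x hx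
  rw [hx]

lemma uL_const (v : L2R) (j k : ℤ) (p : ℤ × ℤ) (hp : p ≠ (j, k)) (h : CO (haar p.1 p.2) j k) :
    inner ℝ (hL p) (uL v j k) = (0 : ℝ) := by
  obtain ⟨d, hd⟩ := h
  unfold uL
  rw [inner_sub_right, inner_sub_right, inner_smul_right, inner_smul_right, inner_h, if_neg hp,
    hL_res, inner_hL_iL]
  have e1 : ∫ x in dy j k, (v : ℝ → ℝ) x * haar p.1 p.2 x = IF v j k * d := by
    unfold IF
    rw [← integral_mul_const]
    apply setIntegral_congr_fun (dy_meas j k)
    intro x hx
    simp only [hd x hx]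
  have e2 : ∫ x in dy j k, haar p.1 p.2 x = 2 ^ j * d := by
    rw [setIntegral_congr_fun (dy_meas j k) (g := fun _ => d) (fun x hx => hd x hx),
      setIntegral_const, dy_vol]
    rfl
  rw [e1, e2]
  have : (2 : ℝ) ^ j ≠ 0 := by positivity
  field_simp
  ring

lemma haar_setIntegral (j k : ℤ) {s : Set ℝ} (hs : MeasurableSet s) (h : dy j k ⊆ s) :
    ∫ x in s, haar j k x = 0 := by
  rw [← haar_integral j k, ← integral_indicator hs]
  congr 1
  funext x
  by_cases hx : x ∈ s
  · rw [indicator_of_mem hx]
  · rw [indicator_of_notMem hx, haar_of_notMem (fun hc => hx (h hc))]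

lemma haar_setIntegral_mul (v : L2R) (j k : ℤ) {s : Set ℝ} (hs : MeasurableSet s)
    (h : dy j k ⊆ s) : ∫ x in s, (v : ℝ → ℝ) x * haar j k x = inner ℝ (hL (j, k)) v := by
  rw [inner_hL, ← integral_indicator hs]
  congr 1
  funext x
  by_cases hx : x ∈ s
  · rw [indicator_of_mem hx, mul_comm]
  · rw [indicator_of_notMem hx, haar_of_notMem (fun hc => hx (h hc)), zero_mul]

lemma uL_self (v : L2R) (j k : ℤ) : inner ℝ (hL (j, k)) (uL v j k) = (0 : ℝ) := by
  unfold uL
  rw [inner_sub_right, inner_sub_right, inner_smul_right, inner_smul_right, inner_h, if_pos rfl,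
    hL_res, inner_hL_iL, haar_setIntegral j k (dy_meas j k) subset_rfl,
    haar_setIntegral_mul v j k (dy_meas j k) subset_rfl]
  ring

lemma uL_inside (v : L2R) (j k : ℤ) (p : ℤ × ℤ) (hp : p ≠ (j, k)) (h : dy p.1 p.2 ⊆ dy j k) :
    inner ℝ (hL p) (v - uL v j k) = (0 : ℝ) := by
  unfold uL
  rw [inner_sub_right, inner_sub_right, inner_sub_right, inner_smul_right, inner_smul_right,
    inner_h, if_neg hp, hL_res, inner_hL_iL, haar_setIntegral p.1 p.2 (dy_meas j k) h,
    haar_setIntegral_mul v p.1 p.2 (dy_meas j k) h]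
  simp

/-- the local identity -/
lemma local_id {T : L2R →L[ℝ] L2R} (hT : IsShift T) (v : L2R) (j k : ℤ) :
    ∫ x in dy j k, (v : ℝ → ℝ) x * (T v : ℝ → ℝ) x
      = IF v j k / 2 ^ j * IF (T v) j k + inner ℝ (hL (j, k)) v * inner ℝ (hL (j, k)) (T v) := by
  set u := uL v j k with hu
  have key : inner ℝ (v - u) (T u) = (0 : ℝ) := by
    rw [← hb.tsum_inner_mul_inner]
    have hz : ∀ p : ℤ × ℤ, inner ℝ (v - u) (hb p) * inner ℝ (hb p) (T u) = (0 : ℝ) := by
      rintro ⟨j', k'⟩
      rw [hb_coe]
      by_cases h1 : j ≤ j'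
      · have h2 : inner ℝ (hL (j', sib k')) u = (0 : ℝ) := by
          by_cases hc : ((j', sib k') : ℤ × ℤ) = (j, k)
          · rw [hc]
            exact uL_self v j k
          · refine uL_const v j k _ hc ?_
            rcases h1.lt_or_eq with h3 | h3
            · exact co_haar k (sib k') h3
            · subst h3
              refine ⟨0, fun x hx => haar_of_notMem ?_⟩
              have hk : k ≠ sib k' := fun hh => hc (by rw [← hh])
              exact Set.disjoint_left.1 (dy_disj hk) hx
        rw [coef_T hT, h2]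
        ring
      · push Not at h1
        obtain ⟨m, hm⟩ : ∃ m : ℤ, (k' = 2 * m ∧ sib k' = 2 * m + 1) ∨
            (k' = 2 * m + 1 ∧ sib k' = 2 * m) := by
          rcases Int.even_or_odd' k' with ⟨m, hm | hm⟩
          · refine ⟨m, Or.inl ⟨hm, ?_⟩⟩
            unfold sib
            rw [if_pos (by rw [hm]; exact even_two_mul m), hm]
          · refine ⟨m, Or.inr ⟨hm, ?_⟩⟩
            unfold sib
            rw [if_neg (by rw [hm, Int.even_add_one]; simp), hm]
            ring
        have hsub : dy j' k' ⊆ dy (j' + 1) m ∧ dy j' (sib k') ⊆ dy (j' + 1) m := by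
          rw [dy_split (j' + 1) m, show j' + 1 - 1 = j' by ring]
          rcases hm with ⟨a, b⟩ | ⟨a, b⟩
          · rw [b, a]
            exact ⟨subset_union_left, subset_union_right⟩
          · rw [b, a]
            exact ⟨subset_union_right, subset_union_left⟩
        obtain ⟨c, hc⟩ := co_ind' (j := j' + 1) (j' := j) m k (by omega)
        by_cases hc1 : c = 1
        · have h3 : dy j' k' ⊆ dy j k := by
            intro x hx
            by_contra hx2
            have := hc x (hsub.1 hx)
            rw [ind_of_notMem hx2, hc1] at this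
            norm_num at this
          have h4 : inner ℝ (v - u) (hL (j', k')) = (0 : ℝ) := by
            rw [real_inner_comm]
            exact uL_inside v j k (j', k') (fun hh => by
              have := congrArg Prod.fst hh
              simp only at this
              omega) h3
          rw [h4, zero_mul]
        · have h3 : ∀ x ∈ dy j k, x ∉ dy j' (sib k') := by
            intro x hx hx2
            have := hc x (hsub.2 hx2)
            rw [ind_of_mem hx] at this
            exact hc1 this.symm
          have h4 : inner ℝ (hL (j', sib k')) u = (0 : ℝ) := by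
            refine uL_const v j k _ (fun hh => ?_) ⟨0, fun x hx => haar_of_notMem (h3 x hx)⟩
            have := congrArg Prod.fst hh
            simp only at this
            omega
          rw [coef_T hT, h4]
          ring
    simp only [hz, tsum_zero]
  have h1 : inner ℝ (T v) u = (0 : ℝ) := by
    rw [anti hT]
    have e : (v : L2R) = (v - u) + u := by abel
    have e2 : inner ℝ v (T u) = inner ℝ (v - u) (T u) + (inner ℝ u (T u) : ℝ) := by
      rw [← inner_add_left]
      congr 1
    rw [e2, key, anti_self hT, add_zero, neg_zero]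
  rw [hu, uL, inner_sub_right, inner_sub_right, inner_smul_right, inner_smul_right, inner_res,
    real_inner_comm (iL j k), inner_iL, real_inner_comm (hL (j, k))] at h1
  linarith

end Pool.Agent.Q168.HS
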