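import Pool.Agent.Q168.HS2

set_option autoImplicit false
open MeasureTheory Set Filter Topology

namespace Pool.Agent.Q168.HS

/-- the energy of the average -/
noncomputable def en (F : L2R) (j k : ℤ) : ℝ := IF F j k ^ 2 / 2 ^ j

/-- the energy of the averages over the two halves -/
noncomputable def DD (F : L2R) (j k : ℤ) : ℝ := en F (j - 1) (2 * k) + en F (j - 1) (2 * k + 1)

/-- the square of the Haar coefficient -/
noncomputable def cf (F : L2R) (j k : ℤ) : ℝ := (inner ℝ (hL (j, k)) F : ℝ) ^ 2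

lemma en_nonneg (F : L2R) (j k : ℤ) : 0 ≤ en F j k := by unfold en; positivity

lemma cf_eq (F : L2R) (j k : ℤ) :
    cf F j k = (IF F (j - 1) (2 * k + 1) - IF F (j - 1) (2 * k)) ^ 2 / 2 ^ j := by
  unfold cf
  rw [coef_eq, mul_pow, inv_pow, Real.sq_sqrt (by positivity)]
  ring

lemma en_split (F : L2R) (j k : ℤ) : en F j k + cf F j k = DD F j k := by
  rw [cf_eq, DD, en, en, en, IF_split F j k, two_pow j]
  have : (2 : ℝ) ^ (j - 1) ≠ 0 := by positivity
  field_simp
  ring

lemma sib_even (k : ℤ) : sib (2 * k) = 2 * k + 1 := by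
  unfold sib; rw [if_pos (even_two_mul k)]

lemma sib_odd (k : ℤ) : sib (2 * k + 1) = 2 * k := by
  unfold sib; rw [if_neg (by rw [Int.even_add_one]; simp)]; ring

lemma cf_T {T : L2R →L[ℝ] L2R} (hT : IsShift T) (v : L2R) (j k : ℤ) :
    cf (T v) j k = cf v j (sib k) := by
  unfold cf
  rw [coef_T hT, mul_pow, neg_sq, pow_two (sg k), sg_sq, one_mul]

section
variable (V : Set ℝ)

/-- measure of `V` in a dyadic interval -/
noncomputable def AA (j k : ℤ) : ℝ := volume.real (V ∩ dy j k)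

/-- selected intervals -/
def sel (j k : ℤ) : Prop :=
  (1 / 32) * (2 : ℝ) ^ (j - 1) < AA V (j - 1) (2 * k) ∨
    (1 / 32) * (2 : ℝ) ^ (j - 1) < AA V (j - 1) (2 * k + 1)

open Classical in
/-- the sum of `c` over the active proper descendants -/
noncomputable def SX (c : ℤ → ℤ → ℝ) : ℕ → ℤ → ℤ → ℝ
  | 0, _, _ => 0
  | m + 1, j, k => if sel V j k then 0 else
      c (j - 1) (2 * k) + c (j - 1) (2 * k + 1) + (SX c m (j - 1) (2 * k)
        + SX c m (j - 1) (2 * k + 1))

open Classical in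
/-- the union of the selected intervals -/
noncomputable def Om : ℕ → ℤ → ℤ → Set ℝ
  | 0, j, k => if sel V j k then dy j k else ∅
  | m + 1, j, k => if sel V j k then dy j k else Om m (j - 1) (2 * k) ∪ Om m (j - 1) (2 * k + 1)

lemma Om_sub (m : ℕ) : ∀ j k : ℤ, Om V m j k ⊆ dy j k := by
  induction m with
  | zero =>
    intro j k
    rw [Om]
    split_ifs
    · exact subset_rfl
    · exact empty_subset _
  | succ m ih =>
    intro j k
    rw [Om]
    split_ifs
    · exact subset_rfl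
    · rw [dy_split j k]
      exact union_subset_union (ih _ _) (ih _ _)

lemma Om_meas (m : ℕ) : ∀ j k : ℤ, MeasurableSet (Om V m j k) := by
  induction m with
  | zero =>
    intro j k
    rw [Om]
    split_ifs
    · exact dy_meas _ _
    · exact MeasurableSet.empty
  | succ m ih =>
    intro j k
    rw [Om]
    split_ifs
    · exact dy_meas _ _
    · exact (ih _ _).union (ih _ _)

lemma SX_T {T : L2R →L[ℝ] L2R} (hT : IsShift T) (v : L2R) (m : ℕ) :
    ∀ j k : ℤ, SX V (cf (T v)) m j k = SX V (cf v) m j k := by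
  induction m with
  | zero => intro j k; rfl
  | succ m ih =>
    intro j k
    rw [SX, SX, ih, ih, cf_T hT, cf_T hT, sib_even, sib_odd, add_comm (cf v (j - 1) (2 * k + 1))]

lemma mem_Om {x : ℝ} (m : ℕ) : ∀ j k i : ℤ, x ∈ dy j k → j - m ≤ i → i ≤ j →
    sel V i (idx i x) → x ∈ Om V m j k := by
  induction m with
  | zero =>
    intro j k i hx h1 h2 h3
    have hij : i = j := by push_cast at h1; omega
    subst hij
    rw [(mem_dy_iff i k x).1 hx] at h3
    rw [Om, if_pos h3]
    exact hx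
  | succ m ih =>
    intro j k i hx h1 h2 h3
    rw [Om]
    by_cases hs : sel V j k
    · rw [if_pos hs]; exact hx
    · rw [if_neg hs]
      have hij : i ≠ j := by
        rintro rfl
        rw [(mem_dy_iff i k x).1 hx] at h3
        exact hs h3
      rw [dy_split j k] at hx
      rcases hx with hx | hx
      · exact Or.inl (ih _ _ i hx (by push_cast at h1; omega) (by omega) h3)
      · exact Or.inr (ih _ _ i hx (by push_cast at h1; omega) (by omega) h3)

variable {V}

lemma fin_sub {s : Set ℝ} (hV' : volume V ≠ ⊤) (h : s ⊆ V) : volume s ≠ ⊤ :=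
  ne_top_of_le_ne_top hV' (measure_mono h)

lemma AA_split (hV : MeasurableSet V) (hV' : volume V ≠ ⊤) (j k : ℤ) :
    AA V j k = AA V (j - 1) (2 * k) + AA V (j - 1) (2 * k + 1) := by
  unfold AA
  rw [dy_split j k, inter_union_distrib_left, measureReal_union]
  · exact (dy_disj (by omega)).mono inter_subset_right inter_subset_right
  · exact hV.inter (dy_meas _ _)

lemma AA_nonneg (j k : ℤ) : 0 ≤ AA V j k := measureReal_nonneg

variable (hV : MeasurableSet V) (hV' : volume V ≠ ⊤)

/-- the indicator of `V` -/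
noncomputable def vL : L2R := indicatorConstLp 2 hV hV' (1 : ℝ)

lemma vL_coe : (vL hV hV' : ℝ → ℝ) =ᵐ[volume] V.indicator (fun _ => (1 : ℝ)) :=
  indicatorConstLp_coeFn

lemma IF_vL (j k : ℤ) : IF (vL hV hV') j k = AA V j k := by
  unfold IF AA
  rw [integral_congr_ae (ae_restrict_of_ae (vL_coe hV hV')), setIntegral_indicator hV,
    setIntegral_const, inter_comm]
  simp

lemma lowA (m : ℕ) : ∀ j k : ℤ,
    (1 / 64) * volume.real (V ∩ Om V m j k) ≤ DD (vL hV hV') j k + SX V (cf (vL hV hV')) m j k := by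
  have hsel : ∀ j k : ℤ, sel V j k → (1 / 64) * volume.real (V ∩ dy j k) ≤ DD (vL hV hV') j k := by
    intro j k h
    have h1 := AA_split hV hV' j k
    unfold AA at h1
    rw [h1]
    unfold DD en sel at *
    rw [IF_vL, IF_vL]
    have ha := AA_nonneg (V := V) (j - 1) (2 * k)
    have hb := AA_nonneg (V := V) (j - 1) (2 * k + 1)
    unfold AA at *
    set a := volume.real (V ∩ dy (j - 1) (2 * k))
    set b := volume.real (V ∩ dy (j - 1) (2 * k + 1))
    have ht : (0 : ℝ) < 2 ^ (j - 1) := by positivity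
    set t := (2 : ℝ) ^ (j - 1)
    rw [← add_div, le_div_iff₀ ht]
    have hmax : (a + b) / 2 ≤ max a b := by
      rcases le_total a b with hh | hh
      · rw [max_eq_right hh]; linarith
      · rw [max_eq_left hh]; linarith
    have hmt : (1 / 32) * t < max a b := by
      rcases h with h | h
      · exact lt_of_lt_of_le h (le_max_left _ _)
      · exact lt_of_lt_of_le h (le_max_right _ _)
    have hmsq : max a b * max a b ≤ a ^ 2 + b ^ 2 := by
      rcases le_total a b with hh | hh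
      · rw [max_eq_right hh]; nlinarith
      · rw [max_eq_left hh]; nlinarith
    have hm0 : 0 ≤ max a b := le_trans ha (le_max_left _ _)
    nlinarith [mul_le_mul_of_nonneg_right hmax ht.le, mul_le_mul_of_nonneg_left hmt.le hm0]
  have hD : ∀ j k : ℤ, 0 ≤ DD (vL hV hV') j k := fun j k =>
    add_nonneg (en_nonneg _ _ _) (en_nonneg _ _ _)
  induction m with
  | zero =>
    intro j k
    rw [Om, SX, add_zero]
    split_ifs with h
    · exact hsel j k h
    · simpa using hD j k
  | succ m ih =>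
    intro j k
    rw [Om, SX]
    split_ifs with h
    · rw [add_zero]
      exact hsel j k h
    · have h1 := ih (j - 1) (2 * k)
      have h2 := ih (j - 1) (2 * k + 1)
      have h3 := en_split (vL hV hV') (j - 1) (2 * k)
      have h4 := en_split (vL hV hV') (j - 1) (2 * k + 1)
      have h5 : volume.real (V ∩ (Om V m (j - 1) (2 * k) ∪ Om V m (j - 1) (2 * k + 1)))
          ≤ volume.real (V ∩ Om V m (j - 1) (2 * k)) + volume.real (V ∩ Om V m (j - 1) (2 * k + 1)) := by
        rw [inter_union_distrib_left]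
        exact measureReal_union_le _ _
      have h6 : DD (vL hV hV') j k
        = en (vL hV hV') (j - 1) (2 * k) + en (vL hV hV') (j - 1) (2 * k + 1) := rfl
      linarith

end

/-! ### The upper bound -/

lemma sq_int (F : L2R) : Integrable fun x => (F : ℝ → ℝ) x ^ 2 := (Lp.memLp F).integrable_sq

lemma res_norm {s : Set ℝ} (hs : MeasurableSet s) (F : L2R) :
    ‖res s hs F‖ ^ 2 = ∫ x in s, (F : ℝ → ℝ) x ^ 2 := by
  rw [← real_inner_self_eq_norm_sq, inner_res]
  apply integral_congr_ae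
  filter_upwards [ae_restrict_of_ae (res_coe hs F), ae_restrict_mem hs] with x h1 h2
  rw [h1, indicator_of_mem h2]
  ring

lemma CS {s : Set ℝ} (hs : MeasurableSet s) (F : L2R) (j k : ℤ) (h : s ⊆ dy j k) :
    (∫ x in s, (F : ℝ → ℝ) x) ^ 2 ≤ 2 ^ j * ∫ x in s, (F : ℝ → ℝ) x ^ 2 := by
  have h1 : ∫ x in s, (F : ℝ → ℝ) x = IF (res s hs F) j k := by
    unfold IF
    rw [integral_congr_ae (ae_restrict_of_ae (res_coe hs F)), setIntegral_indicator hs,
      inter_eq_self_of_subset_right h]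
  have h2 := IF_abs_le (res s hs F) j k
  rw [h1, ← res_norm hs, ← sq_abs, ← Real.sq_sqrt (show (0 : ℝ) ≤ 2 ^ j by positivity), ← mul_pow]
  exact pow_le_pow_left₀ (abs_nonneg _) h2 2

lemma en_le (F : L2R) (j k : ℤ) : en F j k ≤ ∫ x in dy j k, (F : ℝ → ℝ) x ^ 2 := by
  unfold en
  rw [div_le_iff₀ (by positivity), mul_comm]
  exact CS (dy_meas j k) F j k subset_rfl

section
variable {V : Set ℝ} (hV : MeasurableSet V) (hV' : volume V ≠ ⊤)

lemma coef_bound (j k : ℤ) (h : AA V j k ≤ (1 / 16) * 2 ^ j) :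
    cf (vL hV hV') j k ≤ (1 / 256) * 2 ^ j := by
  rw [cf_eq, IF_vL, IF_vL, div_le_iff₀ (by positivity)]
  have h1 := AA_split hV hV' j k
  have ha := AA_nonneg (V := V) (j - 1) (2 * k)
  have hb := AA_nonneg (V := V) (j - 1) (2 * k + 1)
  set a := AA V (j - 1) (2 * k)
  set b := AA V (j - 1) (2 * k + 1)
  have h2 : (b - a) ^ 2 ≤ (AA V j k) ^ 2 := by rw [h1]; nlinarith
  have h3 : (AA V j k) ^ 2 ≤ ((1 / 16) * 2 ^ j) ^ 2 :=
    pow_le_pow_left₀ (AA_nonneg j k) h 2
  nlinarith

lemma local_est {T : L2R →L[ℝ] L2R} (hT : IsShift T) (j k : ℤ)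
    (h1 : AA V j k ≤ (1 / 16) * 2 ^ j) (h2 : AA V j (sib k) ≤ (1 / 16) * 2 ^ j) :
    en (T (vL hV hV')) j k
      ≤ 8 * (∫ x in dy j k \ V, (T (vL hV hV') : ℝ → ℝ) x ^ 2) + (1 / 8192) * 2 ^ j := by
  set v := vL hV hV'
  set G := T v
  have hid := local_id hT v j k
  have hvG : ∫ x in dy j k, (v : ℝ → ℝ) x * (G : ℝ → ℝ) x = ∫ x in dy j k ∩ V, (G : ℝ → ℝ) x := by
    rw [← setIntegral_indicator hV]
    apply integral_congr_ae
    filter_upwards [ae_restrict_of_ae (vL_coe hV hV')] with x hx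
    rw [hx]
    by_cases hxV : x ∈ V
    · rw [indicator_of_mem hxV, indicator_of_mem hxV, one_mul]
    · rw [indicator_of_notMem hxV, indicator_of_notMem hxV, zero_mul]
  have hsplit : IF G j k = (∫ x in dy j k ∩ V, (G : ℝ → ℝ) x) + ∫ x in dy j k \ V, (G : ℝ → ℝ) x := by
    unfold IF
    rw [integral_inter_add_sdiff hV (L2_integrableOn G (dy_ne_top j k))]
  rw [hvG, IF_vL] at hid
  have hCS := CS ((dy_meas j k).diff hV) G j k sdiff_subset
  have ha := coef_bound hV hV' j k h1
  have hg : cf G j k ≤ (1 / 256) * 2 ^ j := by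
    rw [cf_T hT]
    exact coef_bound hV hV' j (sib k) h2
  have ht : (0 : ℝ) < 2 ^ j := by positivity
  unfold cf at ha hg
  unfold en
  rw [div_le_iff₀ ht]
  have hA0 := AA_nonneg (V := V) j k
  set t := (2 : ℝ) ^ j
  set A := AA V j k
  set B := IF G j k
  set L := ∫ x in dy j k \ V, (G : ℝ → ℝ) x
  set Lk := ∫ x in dy j k \ V, (G : ℝ → ℝ) x ^ 2
  set a := (inner ℝ (hL (j, k)) v : ℝ)
  set g := (inner ℝ (hL (j, k)) G : ℝ)
  have hLk : 0 ≤ Lk := setIntegral_nonneg ((dy_meas j k).diff hV) fun x _ => sq_nonneg _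
  have hB : B * (1 - A / t) = a * g + L := by
    rw [hid] at hsplit
    linarith
  have hr1 : A / t ≤ 1 / 16 := by rw [div_le_iff₀ ht]; exact h1
  have hr0 : 0 ≤ A / t := by positivity
  have hag : (a * g) ^ 2 ≤ (1 / 65536) * t ^ 2 := by
    rw [mul_pow]
    calc a ^ 2 * g ^ 2 ≤ (1 / 256 * t) * (1 / 256 * t) :=
          mul_le_mul ha hg (sq_nonneg _) (by positivity)
      _ = (1 / 65536) * t ^ 2 := by ring
  have hsum : (a * g + L) ^ 2 ≤ 2 * (a * g) ^ 2 + 2 * L ^ 2 := by nlinarith [sq_nonneg (a * g - L)]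
  have hB2 : B ^ 2 * (15 / 16) ^ 2 ≤ (a * g + L) ^ 2 := by
    rw [← hB, mul_pow]
    apply mul_le_mul_of_nonneg_left _ (sq_nonneg _)
    apply pow_le_pow_left₀ (by norm_num)
    linarith
  nlinarith [mul_nonneg ht.le hLk, mul_pos ht ht]

include hV hV' in
lemma AA_mono_child (j k : ℤ) :
    AA V (j - 1) (2 * k) ≤ AA V j k ∧ AA V (j - 1) (2 * k + 1) ≤ AA V j k := by
  have h1 := AA_split hV hV' j k
  have ha := AA_nonneg (V := V) (j - 1) (2 * k)
  have hb := AA_nonneg (V := V) (j - 1) (2 * k + 1)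
  constructor <;> linarith

lemma diff_split (j k : ℤ) : dy j k \ V = (dy (j - 1) (2 * k) \ V) ∪ (dy (j - 1) (2 * k + 1) \ V) := by
  rw [dy_split j k, union_sdiff_distrib]

include hV in
lemma leak_split (F : L2R) (j k : ℤ) : ∫ x in dy j k \ V, (F : ℝ → ℝ) x ^ 2
    = (∫ x in dy (j - 1) (2 * k) \ V, (F : ℝ → ℝ) x ^ 2)
      + ∫ x in dy (j - 1) (2 * k + 1) \ V, (F : ℝ → ℝ) x ^ 2 := by
  rw [diff_split, setIntegral_union]
  · exact (dy_disj (by omega)).mono sdiff_subset sdiff_subset
  · exact (dy_meas _ _).diff hV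
  · exact (sq_int F).integrableOn
  · exact (sq_int F).integrableOn

lemma upB {T : L2R →L[ℝ] L2R} (hT : IsShift T) (m : ℕ) : ∀ j k : ℤ,
    AA V j k ≤ (1 / 32) * 2 ^ j →
    DD (T (vL hV hV')) j k + SX V (cf (T (vL hV hV'))) m j k
      ≤ 8 * (∫ x in dy j k \ V, (T (vL hV hV') : ℝ → ℝ) x ^ 2) + (1 / 128) * AA V j k
        + ∫ x in (V ∩ dy j k) \ Om V m j k, (T (vL hV hV') : ℝ → ℝ) x ^ 2 := by
  set G := T (vL hV hV') with hG
  have hsel : ∀ j k : ℤ, AA V j k ≤ (1 / 32) * 2 ^ j → sel V j k → DD G j k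
      ≤ 8 * (∫ x in dy j k \ V, (G : ℝ → ℝ) x ^ 2) + (1 / 128) * AA V j k := by
    intro j k hA h
    have hc := AA_mono_child hV hV' j k
    rw [two_pow j] at hA
    have e1 := local_est hV hV' hT (j - 1) (2 * k) (by linarith [hc.1])
      (by rw [sib_even]; linarith [hc.2])
    have e2 := local_est hV hV' hT (j - 1) (2 * k + 1) (by linarith [hc.2])
      (by rw [sib_odd]; linarith [hc.1])
    rw [leak_split hV, DD]
    have h5 : (1 / 32) * (2 : ℝ) ^ (j - 1) ≤ AA V j k := by
      rcases h with h | h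
      · exact h.le.trans hc.1
      · exact h.le.trans hc.2
    rw [← hG] at e1 e2
    linarith
  have hnn : ∀ s : Set ℝ, MeasurableSet s → 0 ≤ ∫ x in s, (G : ℝ → ℝ) x ^ 2 := fun s hs =>
    setIntegral_nonneg hs fun x _ => sq_nonneg _
  have hms : ∀ m j k, MeasurableSet ((V ∩ dy j k) \ Om V m j k) := fun m j k =>
    (hV.inter (dy_meas j k)).diff (Om_meas V m j k)
  induction m with
  | zero =>
    intro j k hA
    rw [SX, add_zero]
    by_cases h : sel V j k
    · have := hsel j k hA h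
      linarith [hnn _ (hms 0 j k)]
    · rw [Om, if_neg h, sdiff_empty, DD]
      have e1 := en_le G (j - 1) (2 * k)
      have e2 := en_le G (j - 1) (2 * k + 1)
      have e3 : (∫ x in dy (j - 1) (2 * k), (G : ℝ → ℝ) x ^ 2)
          + (∫ x in dy (j - 1) (2 * k + 1), (G : ℝ → ℝ) x ^ 2) = ∫ x in dy j k, (G : ℝ → ℝ) x ^ 2 := by
        rw [dy_split j k, setIntegral_union (dy_disj (by omega)) (dy_meas _ _)
          (sq_int G).integrableOn (sq_int G).integrableOn]
      have e4 : ∫ x in dy j k, (G : ℝ → ℝ) x ^ 2 = (∫ x in V ∩ dy j k, (G : ℝ → ℝ) x ^ 2)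
          + ∫ x in dy j k \ V, (G : ℝ → ℝ) x ^ 2 := by
        rw [inter_comm, integral_inter_add_sdiff hV (sq_int G).integrableOn]
      have e5 := hnn _ ((dy_meas j k).diff hV)
      have e6 := AA_nonneg (V := V) j k
      linarith
  | succ m ih =>
    intro j k hA
    by_cases h : sel V j k
    · rw [SX, if_pos h, add_zero]
      have := hsel j k hA h
      linarith [hnn _ (hms (m + 1) j k)]
    · have h' := h
      unfold sel at h'
      push Not at h'
      have h1 := ih (j - 1) (2 * k) h'.1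
      have h2 := ih (j - 1) (2 * k + 1) h'.2
      have h3 := en_split G (j - 1) (2 * k)
      have h4 := en_split G (j - 1) (2 * k + 1)
      have h5 := leak_split hV G j k
      have h6 := AA_split hV hV' j k
      have h7 : (V ∩ dy j k) \ Om V (m + 1) j k
          = ((V ∩ dy (j - 1) (2 * k)) \ Om V m (j - 1) (2 * k)) ∪
            ((V ∩ dy (j - 1) (2 * k + 1)) \ Om V m (j - 1) (2 * k + 1)) := by
        rw [Om, if_neg h, dy_split j k]
        have hd : Disjoint (dy (j - 1) (2 * k)) (dy (j - 1) (2 * k + 1)) := dy_disj (by omega)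
        have s1 := Om_sub V m (j - 1) (2 * k)
        have s2 := Om_sub V m (j - 1) (2 * k + 1)
        ext x
        simp only [Set.mem_sdiff, mem_inter_iff, mem_union]
        constructor
        · rintro ⟨⟨a1, a2 | a2⟩, a3⟩
          · exact Or.inl ⟨⟨a1, a2⟩, fun hc => a3 (Or.inl hc)⟩
          · exact Or.inr ⟨⟨a1, a2⟩, fun hc => a3 (Or.inr hc)⟩
        · rintro (⟨⟨a1, a2⟩, a3⟩ | ⟨⟨a1, a2⟩, a3⟩)
          · refine ⟨⟨a1, Or.inl a2⟩, ?_⟩
            rintro (hc | hc)
            · exact a3 hc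
            · exact Set.disjoint_left.1 hd a2 (s2 hc)
          · refine ⟨⟨a1, Or.inr a2⟩, ?_⟩
            rintro (hc | hc)
            · exact Set.disjoint_left.1 hd (s1 hc) a2
            · exact a3 hc
      have h8 : ∫ x in (V ∩ dy j k) \ Om V (m + 1) j k, (G : ℝ → ℝ) x ^ 2
          = (∫ x in (V ∩ dy (j - 1) (2 * k)) \ Om V m (j - 1) (2 * k), (G : ℝ → ℝ) x ^ 2)
            + ∫ x in (V ∩ dy (j - 1) (2 * k + 1)) \ Om V m (j - 1) (2 * k + 1), (G : ℝ → ℝ) x ^ 2 := by
        rw [h7, setIntegral_union _ (hms _ _ _) (sq_int G).integrableOn (sq_int G).integrableOn]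
        exact (dy_disj (by omega)).mono (sdiff_subset.trans inter_subset_right)
          (sdiff_subset.trans inter_subset_right)
      rw [SX, if_neg h, h8, h5, h6]
      have h9 : DD G j k = en G (j - 1) (2 * k) + en G (j - 1) (2 * k + 1) := rfl
      linarith

end

end Pool.Agent.Q168.HS
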