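import Pool.Agent.Q168.HS3

set_option autoImplicit false
open MeasureTheory Set Filter Topology

namespace Pool.Agent.Q168.HS

variable {V : Set ℝ}

/-- every density point lies in selected intervals -/
lemma density (hV : MeasurableSet V) : ∀ᵐ x : ℝ, x ∈ V → ∃ i : ℤ, sel V i (idx i x) := by
  have h := IsUnifLocDoublingMeasure.ae_tendsto_measure_inter_div (volume : Measure ℝ) V 1
  rw [ae_restrict_iff' hV] at h
  filter_upwards [h] with x hx hxV
  have h1 := hx hxV (l := atTop)
    (fun n : ℕ => ((idx (-(n : ℤ)) x : ℝ) + 1 / 2) * 2 ^ (-(n : ℤ)))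
    (fun n : ℕ => (2 : ℝ) ^ (-(n : ℤ)) / 2) delta_tendsto
    (Filter.Eventually.of_forall fun n => mem_closedBall_idx _ _)
  have h2 := h1.eventually (lt_mem_nhds (show ENNReal.ofReal (1 / 32) < 1 by
    rw [← ENNReal.ofReal_one]
    exact (ENNReal.ofReal_lt_ofReal_iff (by norm_num)).2 (by norm_num)))
  obtain ⟨n, hn⟩ := h2.exists
  set i : ℤ := -(n : ℤ)
  have e1 : volume (V ∩ Metric.closedBall (((idx i x : ℝ) + 1 / 2) * 2 ^ i) ((2 : ℝ) ^ i / 2))
      = volume (V ∩ dy i (idx i x)) :=
    measure_congr ((ae_eq_refl V).inter (dy_ae_closedBall i (idx i x)).symm)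
  have e2 : volume (Metric.closedBall (((idx i x : ℝ) + 1 / 2) * 2 ^ i) ((2 : ℝ) ^ i / 2))
      = ENNReal.ofReal (2 ^ i) := by
    rw [Real.volume_closedBall]
    congr 1
    ring
  rw [e1, e2, ENNReal.lt_div_iff_mul_lt (Or.inl (by positivity)) (Or.inl ENNReal.ofReal_ne_top),
    ← ENNReal.ofReal_mul (by norm_num)] at hn
  have hfin : volume (V ∩ dy i (idx i x)) ≠ ⊤ :=
    ne_top_of_le_ne_top (dy_ne_top i (idx i x)) (measure_mono inter_subset_right)
  have hn2 : (1 / 32) * (2 : ℝ) ^ i < AA V i (idx i x) := by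
    unfold AA
    rw [measureReal_def]
    rwa [ENNReal.ofReal_lt_iff_lt_toReal (by positivity) hfin] at hn
  refine ⟨i + 1, ?_⟩
  have h3 := mem_dy_idx (i + 1) x
  rw [dy_split, show i + 1 - 1 = i by ring] at h3
  unfold sel
  rw [show i + 1 - 1 = i by ring]
  rcases h3 with h3 | h3
  · left
    rw [mem_dy_iff] at h3
    rw [← h3]
    exact hn2
  · right
    rw [mem_dy_iff] at h3
    rw [← h3]
    exact hn2

/-- the exceptional set at stage `N` -/
noncomputable def RR (V : Set ℝ) (N : ℕ) : Set ℝ :=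
  V \ (Om V (2 * N) N 0 ∪ Om V (2 * N) N (-1))

lemma RR_meas (hV : MeasurableSet V) (N : ℕ) : MeasurableSet (RR V N) :=
  hV.diff ((Om_meas V _ _ _).union (Om_meas V _ _ _))

lemma RR_evt (hV : MeasurableSet V) : ∀ᵐ x : ℝ, ∀ᶠ N : ℕ in atTop, x ∉ RR V N := by
  filter_upwards [density hV] with x hx
  by_cases hxV : x ∈ V
  · obtain ⟨i, hi⟩ := hx hxV
    obtain ⟨M, hM⟩ := pow_unbounded_of_one_lt |x| (show (1 : ℝ) < 2 by norm_num)
    filter_upwards [eventually_ge_atTop M, eventually_ge_atTop i.natAbs] with N h1 h2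
    have h3 : |x| < 2 ^ N := lt_of_lt_of_le hM (pow_le_pow_right₀ (by norm_num) h1)
    have h4 := abs_lt.1 h3
    rintro ⟨_, h5⟩
    apply h5
    by_cases h6 : 0 ≤ x
    · left
      refine mem_Om V (2 * N) N 0 i ?_ (by push_cast; omega) (by omega) hi
      unfold dy
      rw [zpow_natCast]
      push_cast
      constructor <;> linarith [h4.2]
    · right
      refine mem_Om V (2 * N) N (-1) i ?_ (by push_cast; omega) (by omega) hi
      unfold dy
      rw [zpow_natCast]
      push_cast
      constructor <;> linarith [h4.1]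
  · exact Filter.Eventually.of_forall fun N h => hxV h.1

section
variable (hV : MeasurableSet V) (hV' : volume V ≠ ⊤)

include hV hV' in
lemma DD_small (j k : ℤ) :
    DD (vL hV hV') j k ≤ volume.real V / 2 ^ (j - 1) * AA V j k := by
  unfold DD en
  rw [IF_vL, IF_vL, ← add_div, div_mul_eq_mul_div]
  have h1 := AA_split hV hV' j k
  have ha := AA_nonneg (V := V) (j - 1) (2 * k)
  have hb := AA_nonneg (V := V) (j - 1) (2 * k + 1)
  have h2 : AA V (j - 1) (2 * k) ≤ volume.real V := measureReal_mono inter_subset_left hV'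
  have h3 : AA V (j - 1) (2 * k + 1) ≤ volume.real V := measureReal_mono inter_subset_left hV'
  apply div_le_div_of_nonneg_right _ (by positivity)
  rw [h1]
  nlinarith

lemma stage {T : L2R →L[ℝ] L2R} (hT : IsShift T) (N : ℕ)
    (hN : volume.real V ≤ (1 / 32) * 2 ^ (N : ℤ)) :
    (1 / 64) * (volume.real V - volume.real (RR V N))
      ≤ volume.real V ^ 2 / 2 ^ ((N : ℤ) - 1)
        + 8 * (∫ x in Vᶜ, (T (vL hV hV') : ℝ → ℝ) x ^ 2) + (1 / 128) * volume.real V
        + ∫ x in RR V N, (T (vL hV hV') : ℝ → ℝ) x ^ 2 := by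
  set G := T (vL hV hV') with hG
  set j : ℤ := (N : ℤ)
  have hAV : ∀ k, AA V j k ≤ volume.real V := fun k => measureReal_mono inter_subset_left hV'
  have a0 := lowA hV hV' (2 * N) j 0
  have a1 := lowA hV hV' (2 * N) j (-1)
  have b0 := upB hV hV' hT (2 * N) j 0 ((hAV 0).trans hN)
  have b1 := upB hV hV' hT (2 * N) j (-1) ((hAV (-1)).trans hN)
  rw [SX_T V hT] at b0 b1
  have c0 := DD_small hV hV' j 0
  have c1 := DD_small hV hV' j (-1)
  have d0 : 0 ≤ DD G j 0 := add_nonneg (en_nonneg _ _ _) (en_nonneg _ _ _)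
  have d1 : 0 ≤ DD G j (-1) := add_nonneg (en_nonneg _ _ _) (en_nonneg _ _ _)
  rw [← hG] at b0 b1
  have hdisj : Disjoint (dy j 0) (dy j (-1)) := dy_disj (by omega)
  -- sum of the measures
  have s1 : AA V j 0 + AA V j (-1) ≤ volume.real V := by
    unfold AA
    rw [← measureReal_union (hdisj.mono inter_subset_right inter_subset_right)
      (hV.inter (dy_meas _ _)) (fin_sub hV' inter_subset_left) (fin_sub hV' inter_subset_left)]
    exact measureReal_mono (union_subset inter_subset_left inter_subset_left) hV'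
  have s2 : (∫ x in dy j 0 \ V, (G : ℝ → ℝ) x ^ 2) + (∫ x in dy j (-1) \ V, (G : ℝ → ℝ) x ^ 2)
      ≤ ∫ x in Vᶜ, (G : ℝ → ℝ) x ^ 2 := by
    rw [← setIntegral_union (hdisj.mono sdiff_subset sdiff_subset) ((dy_meas _ _).diff hV)
      (sq_int G).integrableOn (sq_int G).integrableOn]
    apply setIntegral_mono_set (sq_int G).integrableOn
    · exact Filter.Eventually.of_forall fun x => sq_nonneg _
    · apply LE.le.eventuallyLE
      rintro x (⟨_, h⟩ | ⟨_, h⟩) <;> exact h
  have s3 : (∫ x in (V ∩ dy j 0) \ Om V (2 * N) j 0, (G : ℝ → ℝ) x ^ 2)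
      + (∫ x in (V ∩ dy j (-1)) \ Om V (2 * N) j (-1), (G : ℝ → ℝ) x ^ 2)
      ≤ ∫ x in RR V N, (G : ℝ → ℝ) x ^ 2 := by
    rw [← setIntegral_union (hdisj.mono (sdiff_subset.trans inter_subset_right)
      (sdiff_subset.trans inter_subset_right))
      ((hV.inter (dy_meas _ _)).diff (Om_meas V _ _ _))
      (sq_int G).integrableOn (sq_int G).integrableOn]
    apply setIntegral_mono_set (sq_int G).integrableOn
    · exact Filter.Eventually.of_forall fun x => sq_nonneg _
    · apply LE.le.eventuallyLE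
      have o0 := Om_sub V (2 * N) j 0
      have o1 := Om_sub V (2 * N) j (-1)
      rintro x (⟨⟨h1, h2⟩, h3⟩ | ⟨⟨h1, h2⟩, h3⟩)
      · refine ⟨h1, ?_⟩
        rintro (h | h)
        · exact h3 h
        · exact Set.disjoint_left.1 hdisj h2 (o1 h)
      · refine ⟨h1, ?_⟩
        rintro (h | h)
        · exact Set.disjoint_left.1 hdisj (o0 h) h2
        · exact h3 h
  have s4 : volume.real V - volume.real (RR V N)
      ≤ volume.real (V ∩ Om V (2 * N) j 0) + volume.real (V ∩ Om V (2 * N) j (-1)) := by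
    have h1 : volume.real V ≤ volume.real (RR V N) + volume.real
        ((V ∩ Om V (2 * N) j 0) ∪ (V ∩ Om V (2 * N) j (-1))) := by
      refine le_trans (measureReal_mono ?_ ?_) (measureReal_union_le _ _)
      · intro x hx
        by_cases h : x ∈ Om V (2 * N) j 0 ∪ Om V (2 * N) j (-1)
        · right
          rcases h with h | h
          · exact Or.inl ⟨hx, h⟩
          · exact Or.inr ⟨hx, h⟩
        · left
          exact ⟨hx, h⟩
      · apply fin_sub hV'
        rintro x (h | h | h)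
        · exact h.1
        · exact h.1
        · exact h.1
    have h2 := measureReal_union_le (μ := volume) (V ∩ Om V (2 * N) j 0) (V ∩ Om V (2 * N) j (-1))
    linarith
  have hp : (0 : ℝ) < 2 ^ (j - 1) := by positivity
  have s5 : volume.real V / 2 ^ (j - 1) * AA V j 0 + volume.real V / 2 ^ (j - 1) * AA V j (-1)
      ≤ volume.real V ^ 2 / 2 ^ (j - 1) := by
    rw [← mul_add, pow_two, ← div_mul_eq_mul_div]
    exact mul_le_mul_of_nonneg_left s1 (by positivity)
  linarith

/-- **The main inequality.** -/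
theorem main {T : L2R →L[ℝ] L2R} (hT : IsShift T) :
    (1 / 1024) * volume.real V ≤ ∫ x in Vᶜ, (T (vL hV hV') : ℝ → ℝ) x ^ 2 := by
  set G := T (vL hV hV') with hG
  set g : ℝ → ℝ := fun x => (G : ℝ → ℝ) x ^ 2 + V.indicator (fun _ => (1 : ℝ)) x with hg
  have hgi : Integrable g := by
    refine (sq_int G).add ?_
    rw [integrable_indicator_iff hV]
    exact integrableOn_const hV'
  have hg0 : ∀ x, 0 ≤ g x := fun x => by
    rw [hg]
    have : 0 ≤ V.indicator (fun _ => (1 : ℝ)) x := indicator_nonneg (fun _ _ => zero_le_one) x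
    positivity
  have hlim : Tendsto (fun N : ℕ => ∫ x, (RR V N).indicator g x) atTop (𝓝 (∫ _ : ℝ, (0 : ℝ))) := by
    refine tendsto_integral_of_dominated_convergence g ?_ hgi ?_ ?_
    · intro N
      exact (hgi.indicator (RR_meas hV N)).aestronglyMeasurable
    · intro N
      refine Filter.Eventually.of_forall fun x => ?_
      rw [Real.norm_eq_abs, abs_of_nonneg (indicator_nonneg (fun x _ => hg0 x) x)]
      exact indicator_le_self' (fun x _ => hg0 x) x
    · filter_upwards [RR_evt hV] with x hx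
      refine tendsto_const_nhds.congr' ?_
      filter_upwards [hx] with N hN
      rw [indicator_of_notMem hN]
  rw [integral_zero] at hlim
  have hval : ∀ N : ℕ, ∫ x, (RR V N).indicator g x
      = (∫ x in RR V N, (G : ℝ → ℝ) x ^ 2) + volume.real (RR V N) := by
    intro N
    have hi : Integrable (V.indicator fun _ => (1 : ℝ)) := by
      rw [integrable_indicator_iff hV]
      exact integrableOn_const hV'
    have hi1 : Integrable (fun x => (G : ℝ → ℝ) x ^ 2) (volume.restrict (RR V N)) :=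
      (sq_int G).restrict
    have hi2 : Integrable (V.indicator fun _ => (1 : ℝ)) (volume.restrict (RR V N)) := hi.restrict
    rw [integral_indicator (RR_meas hV N), hg, integral_add hi1 hi2,
      setIntegral_indicator hV, setIntegral_const]
    have : RR V N ∩ V = RR V N := inter_eq_self_of_subset_left sdiff_subset
    rw [this]
    simp
  have hpow : Tendsto (fun N : ℕ => volume.real V ^ 2 / (2 : ℝ) ^ ((N : ℤ) - 1)) atTop (𝓝 0) := by
    have h1 : Tendsto (fun N : ℕ => 2 * volume.real V ^ 2 * (2⁻¹ : ℝ) ^ N) atTop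
        (𝓝 (2 * volume.real V ^ 2 * 0)) :=
      (tendsto_pow_atTop_nhds_zero_of_lt_one (by norm_num) (by norm_num)).const_mul _
    rw [mul_zero] at h1
    refine h1.congr fun N => ?_
    rw [zpow_sub_one₀ (by norm_num), zpow_natCast, inv_pow]
    field_simp
  have hRR0 : ∀ N, 0 ≤ volume.real (RR V N) := fun N => measureReal_nonneg
  have hI0 : ∀ N, 0 ≤ ∫ x in RR V N, (G : ℝ → ℝ) x ^ 2 := fun N =>
    setIntegral_nonneg (RR_meas hV N) fun x _ => sq_nonneg _
  -- pass to the limit
  have hev : ∀ᶠ N : ℕ in atTop, (1 / 64) * volume.real V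
      ≤ volume.real V ^ 2 / (2 : ℝ) ^ ((N : ℤ) - 1)
        + 8 * (∫ x in Vᶜ, (G : ℝ → ℝ) x ^ 2) + (1 / 128) * volume.real V
        + 2 * ∫ x, (RR V N).indicator g x := by
    obtain ⟨M, hM⟩ := pow_unbounded_of_one_lt (32 * volume.real V) (show (1 : ℝ) < 2 by norm_num)
    filter_upwards [eventually_ge_atTop M] with N hN
    have h3 : 32 * volume.real V < 2 ^ N := lt_of_lt_of_le hM (pow_le_pow_right₀ (by norm_num) hN)
    have h4 := stage hV hV' hT N (by rw [zpow_natCast]; linarith)
    rw [← hG] at h4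
    rw [hval N]
    have h5 := hRR0 N
    have h6 := hI0 N
    linarith
  have hl2 : Tendsto (fun N : ℕ => volume.real V ^ 2 / (2 : ℝ) ^ ((N : ℤ) - 1)
        + 8 * (∫ x in Vᶜ, (G : ℝ → ℝ) x ^ 2) + (1 / 128) * volume.real V
        + 2 * ∫ x, (RR V N).indicator g x) atTop
      (𝓝 (0 + 8 * (∫ x in Vᶜ, (G : ℝ → ℝ) x ^ 2) + (1 / 128) * volume.real V + 2 * 0)) :=
    ((hpow.add_const _).add_const _).add (hlim.const_mul 2)
  have h7 := ge_of_tendsto hl2 hev
  linarith

end

/-! ### Existence of the shift -/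

/-- the sibling permutation -/
def sibE : (ℤ × ℤ) ≃ (ℤ × ℤ) where
  toFun p := (p.1, sib p.2)
  invFun p := (p.1, sib p.2)
  left_inv p := by simp [sib_sib]
  right_inv p := by simp [sib_sib]

/-- the image family -/
noncomputable def hT' (p : ℤ × ℤ) : L2R := sg p.2 • hL (p.1, sib p.2)

lemma hT'_orth : Orthonormal ℝ hT' := by
  rw [orthonormal_iff_ite]
  rintro ⟨j, k⟩ ⟨j', k'⟩
  unfold hT'
  rw [inner_smul_left, inner_smul_right, inner_h]
  simp only [conj_trivial, Prod.mk.injEq]
  by_cases h1 : j = j'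
  · by_cases h2 : k = k'
    · rw [if_pos ⟨h1, by rw [h2]⟩, if_pos ⟨h1, h2⟩, h2, mul_one, sg_sq]
    · have h3 : ¬ sib k = sib k' := fun hc => h2 (by rw [← sib_sib k, hc, sib_sib])
      rw [if_neg (by tauto), if_neg (by tauto)]
      simp
  · rw [if_neg (by tauto), if_neg (by tauto)]
    simp

theorem exists_shift : ∃ T : L2R →L[ℝ] L2R, IsShift T := by
  obtain ⟨b', hb'⟩ : ∃ b' : HilbertBasis (ℤ × ℤ) ℝ L2R, (b' : ℤ × ℤ → L2R) = hT' := by
    refine ⟨HilbertBasis.mkOfOrthogonalEqBot hT'_orth ?_, HilbertBasis.coe_mkOfOrthogonalEqBot _ _⟩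
    rw [Submodule.eq_bot_iff]
    intro F hF
    apply hL_complete
    rintro ⟨j, k⟩
    have h1 := (Submodule.mem_orthogonal _ _).1 hF (hT' (j, sib k)) (Submodule.subset_span ⟨_, rfl⟩)
    unfold hT' at h1
    simp only [sib_sib] at h1
    rw [inner_smul_left, conj_trivial] at h1
    have h2 : sg (sib k) ≠ 0 := by
      intro hc
      have := sg_sq (sib k)
      rw [hc] at this
      norm_num at this
    exact (mul_eq_zero.1 h1).resolve_left h2
  refine ⟨((hb.repr.trans b'.repr.symm).toContinuousLinearEquiv : L2R →L[ℝ] L2R), ?_⟩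
  intro j k F hF
  have hF' : F = hL (j, k) := by
    apply Lp.ext
    exact hF.trans (hL_coe (j, k)).symm
  have h1 : ((hb.repr.trans b'.repr.symm).toContinuousLinearEquiv : L2R →L[ℝ] L2R) F
      = hT' (j, k) := by
    rw [hF']
    have e1 : hL (j, k) = hb (j, k) := by rw [hb_coe]
    have e2 : hT' (j, k) = b' (j, k) := by rw [hb']
    rw [e1, e2]
    change b'.repr.symm (hb.repr (hb (j, k))) = b' (j, k)
    rw [hb.repr_self, ← b'.repr_self, LinearIsometryEquiv.symm_apply_apply]
  rw [h1]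
  unfold hT'
  filter_upwards [Lp.coeFn_smul (sg k) (hL (j, sib k)), hL_coe (j, sib k)] with x h2 h3
  rw [h2, Pi.smul_apply, h3]
  unfold thaar sg sib
  split_ifs <;> simp

end Pool.Agent.Q168.HS
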