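import Mathlib

set_option autoImplicit false
open Set Topology Filter

namespace Pool.Agent.Q168.MgA

/-- `K` is nowhere dense relative to `A` -/
def ND (A K : Set ℝ) : Prop :=
  ∀ O : Set ℝ, IsOpen O → (O ∩ A).Nonempty →
    ∃ O' : Set ℝ, IsOpen O' ∧ O' ⊆ O ∧ (O' ∩ A).Nonempty ∧ O' ∩ A ∩ K = ∅

/-- `M` is meager relative to `A` -/
def Mg (A M : Set ℝ) : Prop := ∃ K : ℕ → Set ℝ, (∀ k, ND A (K k)) ∧ M ⊆ ⋃ k, K k

lemma ND.mono {A K K' : Set ℝ} (h : ND A K) (hK : K' ⊆ K) : ND A K' := by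
  intro O hO hne
  obtain ⟨O', h1, h2, h3, h4⟩ := h O hO hne
  refine ⟨O', h1, h2, h3, ?_⟩
  rw [← subset_empty_iff, ← h4]
  exact inter_subset_inter_right _ hK

lemma nd_empty (A : Set ℝ) : ND A ∅ := fun O hO hne => ⟨O, hO, subset_rfl, hne, by simp⟩

lemma Mg.mono {A M M' : Set ℝ} (h : Mg A M) (hM : M' ⊆ M) : Mg A M' := by
  obtain ⟨K, h1, h2⟩ := h
  exact ⟨K, h1, hM.trans h2⟩

lemma ND.mg {A K : Set ℝ} (h : ND A K) : Mg A K :=
  ⟨fun _ => K, fun _ => h, subset_iUnion (fun _ : ℕ => K) 0⟩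

lemma mg_iUnion {A : Set ℝ} {ι : Type*} [Countable ι] {M : ι → Set ℝ} (h : ∀ i, Mg A (M i)) :
    Mg A (⋃ i, M i) := by
  choose K hK1 hK2 using h
  rcases isEmpty_or_nonempty ι with he | he
  · refine ⟨fun _ => ∅, fun _ => nd_empty A, ?_⟩
    simp
  · obtain ⟨f, hf⟩ := exists_surjective_nat (ι × ℕ)
    refine ⟨fun k => K (f k).1 (f k).2, fun k => hK1 _ _, ?_⟩
    intro a ha
    obtain ⟨i, hi⟩ := mem_iUnion.1 ha
    obtain ⟨j, hj⟩ := mem_iUnion.1 (hK2 i hi)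
    obtain ⟨k, hk⟩ := hf (i, j)
    exact mem_iUnion.2 ⟨k, by rw [hk]; exact hj⟩

lemma Mg.union {A M M' : Set ℝ} (h : Mg A M) (h' : Mg A M') : Mg A (M ∪ M') := by
  rw [union_eq_iUnion]
  apply mg_iUnion
  intro b
  cases b
  · exact h'
  · exact h

/-- transport by a translation -/
lemma mg_trans {A M O O' : Set ℝ} {τ : ℝ} (hO : IsOpen O) (hO' : ∀ a, a ∈ O' ↔ a - τ ∈ O)
    (hA : ∀ a ∈ O, a ∈ A ↔ a + τ ∈ A) (hM : ∀ a ∈ O, a ∈ M ↔ a + τ ∈ M)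
    (h : Mg A (M ∩ O)) : Mg A (M ∩ O') := by
  obtain ⟨K, h1, h2⟩ := h
  have hOo' : IsOpen O' := by
    have : O' = (fun a => a - τ) ⁻¹' O := by ext a; exact hO' a
    rw [this]
    exact hO.preimage (by fun_prop)
  refine ⟨fun k => {a | a ∈ O' ∧ a - τ ∈ K k}, ?_, ?_⟩
  · intro k V hV hne
    by_cases hc : (V ∩ O' ∩ A).Nonempty
    · obtain ⟨a, ⟨ha1, ha2⟩, ha3⟩ := hc
      have hV1 : IsOpen ((fun b => b + τ) ⁻¹' V ∩ O) := (hV.preimage (by fun_prop)).inter hO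
      have ha4 : a - τ ∈ O := (hO' a).1 ha2
      obtain ⟨U, hU1, hU2, ⟨b, hb1, hb2⟩, hU4⟩ := h1 k _ hV1 ⟨a - τ, ⟨by
        simpa using ha1, ha4⟩, (hA _ ha4).2 (by simpa using ha3)⟩
      refine ⟨(fun b => b - τ) ⁻¹' U, hU1.preimage (by fun_prop), ?_, ?_, ?_⟩
      · intro c hc
        have := (hU2 hc).1
        simpa using this
      · refine ⟨b + τ, by simpa using hb1, (hA b (hU2 hb1).2).1 hb2⟩
      · rw [eq_empty_iff_forall_notMem]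
        rintro c ⟨⟨hc1, hc2⟩, hc3, hc4⟩
        have hc5 : c - τ ∈ O := (hO' c).1 hc3
        have hc6 : c - τ ∈ U ∩ A ∩ K k := ⟨⟨hc1, (hA _ hc5).2 (by simpa using hc2)⟩, hc4⟩
        rw [hU4] at hc6
        exact hc6
    · refine ⟨V, hV, subset_rfl, hne, ?_⟩
      rw [← subset_empty_iff]
      rintro c ⟨⟨hc1, hc2⟩, hc3, hc4⟩
      exact hc ⟨c, ⟨hc1, hc3⟩, hc2⟩
  · rintro a ⟨ha1, ha2⟩
    have ha3 : a - τ ∈ O := (hO' a).1 ha2
    obtain ⟨k, hk⟩ := mem_iUnion.1 (h2 ⟨(hM _ ha3).2 (by simpa using ha1), ha3⟩)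
    exact mem_iUnion.2 ⟨k, ha2, hk⟩

lemma mg_univ_translate {M : Set ℝ} (τ : ℝ) (h : Mg univ M) : Mg univ {a | a - τ ∈ M} := by
  obtain ⟨K, h1, h2⟩ := h
  refine ⟨fun k => {a | a - τ ∈ K k}, ?_, ?_⟩
  · intro k V hV hne
    obtain ⟨a, ha, _⟩ := hne
    obtain ⟨U, hU1, hU2, ⟨b, hb1, hb2⟩, hU4⟩ := h1 k ((fun b => b + τ) ⁻¹' V)
      (hV.preimage (by fun_prop)) ⟨a - τ, by simpa using ha, trivial⟩
    refine ⟨(fun b => b - τ) ⁻¹' U, hU1.preimage (by fun_prop), ?_, ⟨b + τ, by simpa using hb1,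
      trivial⟩, ?_⟩
    · intro c hc
      have := hU2 hc
      simpa using this
    · rw [eq_empty_iff_forall_notMem]
      rintro c ⟨⟨hc1, hc2⟩, hc3⟩
      have hc6 : c - τ ∈ U ∩ univ ∩ K k := ⟨⟨hc1, trivial⟩, hc3⟩
      rw [hU4] at hc6
      exact hc6
  · intro a ha
    obtain ⟨k, hk⟩ := mem_iUnion.1 (h2 ha)
    exact mem_iUnion.2 ⟨k, hk⟩

lemma mg_to_univ {A M : Set ℝ} (hMA : M ⊆ A) (h : Mg A M) : Mg univ M := by
  obtain ⟨K, h1, h2⟩ := h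
  refine ⟨fun k => K k ∩ A, ?_, ?_⟩
  · intro k O hO hne
    by_cases hc : (O ∩ A).Nonempty
    · obtain ⟨O', a1, a2, ⟨a, a3, a3'⟩, a4⟩ := h1 k O hO hc
      refine ⟨O', a1, a2, ⟨a, a3, trivial⟩, ?_⟩
      rw [← subset_empty_iff, ← a4]
      rintro c ⟨⟨c1, _⟩, c2, c3⟩
      exact ⟨⟨c1, c3⟩, c2⟩
    · refine ⟨O, hO, subset_rfl, hne, ?_⟩
      rw [← subset_empty_iff]
      rintro c ⟨⟨c1, _⟩, c2, c3⟩
      exact hc ⟨c, c1, c3⟩
  · intro a ha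
    obtain ⟨k, hk⟩ := mem_iUnion.1 (h2 ha)
    exact mem_iUnion.2 ⟨k, hk, hMA ha⟩

lemma mg_of_univ {A M : Set ℝ} (hA : A ⊆ closure (interior A)) (h : Mg univ M) : Mg A M := by
  obtain ⟨K, h1, h2⟩ := h
  refine ⟨K, ?_, h2⟩
  intro k O hO hne
  obtain ⟨a, ha1, ha2⟩ := hne
  obtain ⟨b, hb1, hb2⟩ := mem_closure_iff.1 (hA ha2) O hO ha1
  obtain ⟨O', a1, a2, ⟨c, a3, _⟩, a4⟩ := h1 k (O ∩ interior A) (hO.inter isOpen_interior)
    ⟨b, ⟨hb1, hb2⟩, trivial⟩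
  refine ⟨O', a1, a2.trans inter_subset_left, ⟨c, a3, interior_subset (a2 a3).2⟩, ?_⟩
  rw [← subset_empty_iff, ← a4]
  rintro d ⟨⟨d1, d2⟩, d3⟩
  exact ⟨⟨d1, trivial⟩, d3⟩

lemma mg_iff (A M : Set ℝ) : Mg A (M ∩ A) ↔ IsMeagre ((↑) ⁻¹' M : Set A) := by
  constructor
  · rintro ⟨K, h1, h2⟩
    have h3 : ((↑) ⁻¹' M : Set A) ⊆ ⋃ k, ((↑) ⁻¹' (K k) : Set A) := by
      intro a ha
      obtain ⟨k, hk⟩ := mem_iUnion.1 (h2 ⟨ha, a.2⟩)
      exact mem_iUnion.2 ⟨k, hk⟩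
    refine IsMeagre.mono h3 (isMeagre_iUnion fun k => IsNowhereDense.isMeagre ?_)
    rw [IsNowhereDense, eq_empty_iff_forall_notMem]
    intro a ha
    obtain ⟨V, hV1, hV2, hV3⟩ := mem_interior.1 ha
    obtain ⟨O, hO1, hO2⟩ := isOpen_induced_iff.1 hV2
    obtain ⟨O', a1, a2, ⟨c, c1, c2⟩, a4⟩ := h1 k O hO1 ⟨a, by
      have : a ∈ ((↑) ⁻¹' O : Set A) := by rw [hO2]; exact hV3
      exact this, a.2⟩
    have hc : (⟨c, c2⟩ : A) ∈ V := by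
      rw [← hO2]
      exact a2 c1
    obtain ⟨d, d1, d2⟩ := mem_closure_iff.1 (hV1 hc) ((Subtype.val : A → ℝ) ⁻¹' O')
      (a1.preimage continuous_subtype_val) c1
    have : (d : ℝ) ∈ O' ∩ A ∩ K k := ⟨⟨d1, d.2⟩, d2⟩
    rw [a4] at this
    exact this
  · intro h
    rw [isMeagre_iff_countable_union_isNowhereDense] at h
    obtain ⟨S, h1, h2, h3⟩ := h
    have : Countable S := h2.to_subtype
    have h4 : M ∩ A ⊆ ⋃ t : S, ((↑) '' (t : Set A) : Set ℝ) := by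
      rintro a ⟨ha, haA⟩
      obtain ⟨t, ht1, ht2⟩ := mem_sUnion.1 (h3 (show (⟨a, haA⟩ : A) ∈ ((↑) ⁻¹' M : Set A) from ha))
      exact mem_iUnion.2 ⟨⟨t, ht1⟩, ⟨⟨a, haA⟩, ht2, rfl⟩⟩
    refine Mg.mono (mg_iUnion fun t => ND.mg ?_) h4
    intro O hO hne
    obtain ⟨a, ha1, ha2⟩ := hne
    have hnd := h1 t t.2
    have hVo : IsOpen ((↑) ⁻¹' O : Set A) := hO.preimage continuous_subtype_val
    have hns : ¬ ((↑) ⁻¹' O : Set A) ⊆ closure (t : Set A) := by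
      intro hs
      have : (⟨a, ha2⟩ : A) ∈ interior (closure (t : Set A)) := mem_interior.2 ⟨_, hs, hVo, ha1⟩
      rw [hnd] at this
      exact this
    obtain ⟨b, hb1, hb2⟩ := not_subset.1 hns
    have hW : IsOpen (((↑) ⁻¹' O : Set A) \ closure (t : Set A)) := hVo.sdiff isClosed_closure
    obtain ⟨O', hO'1, hO'2⟩ := isOpen_induced_iff.1 hW
    refine ⟨O' ∩ O, hO'1.inter hO, inter_subset_right, ?_, ?_⟩
    · refine ⟨b, ⟨?_, hb1⟩, b.2⟩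
      have : b ∈ ((↑) ⁻¹' O' : Set A) := by rw [hO'2]; exact ⟨hb1, hb2⟩
      exact this
    · rw [← subset_empty_iff]
      rintro c ⟨⟨⟨c1, c1'⟩, c2⟩, ⟨d, d1, rfl⟩⟩
      have : d ∈ ((↑) ⁻¹' O' : Set A) := c1
      rw [hO'2] at this
      exact this.2 (subset_closure d1)

/-- the reduction of the zero-one law to a local statement -/
lemma reduction {A M : Set ℝ} (hMA : M ⊆ A)
    (h : ∀ O : Set ℝ, IsOpen O → (O ∩ A).Nonempty → Mg A (M ∩ O) → Mg A M)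
    (hB : BaireMeasurableSet ((↑) ⁻¹' M : Set A)) :
    IsMeagre ((↑) ⁻¹' M : Set A) ∨ ((↑) ⁻¹' M : Set A) ∈ residual A := by
  obtain ⟨u, hu1, hu2⟩ := hB.residualEq_isOpen
  by_cases hd : Dense u
  · right
    have h1 : u ∈ residual A := residual_of_dense_open hu1 hd
    filter_upwards [h1, hu2] with a ha1 ha2
    have ha3 : (a ∈ ((↑) ⁻¹' M : Set A)) = (a ∈ u) := ha2
    rw [ha3]
    exact ha1
  · left
    have hne : (closure u)ᶜ.Nonempty := by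
      by_contra hc
      apply hd
      rw [dense_iff_closure_eq]
      rw [not_nonempty_iff_eq_empty, compl_empty_iff] at hc
      exact hc
    obtain ⟨O, hO1, hO2⟩ := isOpen_induced_iff.1 (isClosed_closure (s := u)).isOpen_compl
    obtain ⟨a, ha⟩ := hne
    have hMg : Mg A (M ∩ O) := by
      have e : M ∩ O = (M ∩ O) ∩ A := by
        ext c
        constructor
        · rintro ⟨c1, c2⟩; exact ⟨⟨c1, c2⟩, hMA c1⟩
        · rintro ⟨c1, _⟩; exact c1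
      rw [e, mg_iff, IsMeagre]
      filter_upwards [hu2] with c hc
      rintro ⟨c1, c2⟩
      have c0 : (c ∈ ((↑) ⁻¹' M : Set A)) = (c ∈ u) := hc
      have c3 : c ∈ u := by
        rw [← c0]
        exact c1
      have c4 : c ∈ ((↑) ⁻¹' O : Set A) := c2
      rw [hO2] at c4
      exact c4 (subset_closure c3)
    have hMg2 : Mg A M := by
      refine h O hO1 ⟨a, ?_, a.2⟩ hMg
      have : a ∈ ((↑) ⁻¹' O : Set A) := by rw [hO2]; exact ha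
      exact this
    rw [← mg_iff]
    exact hMg2.mono inter_subset_left

end Pool.Agent.Q168.MgA
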