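import Mathlib

/-! Completely monotone sequences and products of difference operators. -/

open Finset

namespace Pool.Agent.Q168.Mono

/-- the shift -/
def sh (a : ℕ) (q : ℕ → ℝ) : ℕ → ℝ := fun j => q (j + a)

/-- the difference `q(j) - q(j+1)` -/
def dl (q : ℕ → ℝ) : ℕ → ℝ := fun j => q j - q (j + 1)

/-- completely monotone sequences: all iterated differences are nonnegative -/
def IsCM (q : ℕ → ℝ) : Prop := ∀ n j, 0 ≤ (dl^[n] q) j

lemma dl_add (p q : ℕ → ℝ) : dl (p + q) = dl p + dl q := by
  funext j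
  simp only [dl, Pi.add_apply]
  ring

lemma dl_sh (a : ℕ) (q : ℕ → ℝ) : dl (sh a q) = sh a (dl q) := by
  funext j
  simp only [dl, sh]
  congr 2
  ring

lemma iter_add (n : ℕ) (p q : ℕ → ℝ) : dl^[n] (p + q) = dl^[n] p + dl^[n] q := by
  induction n generalizing p q with
  | zero => rfl
  | succ n ih => rw [Function.iterate_succ_apply, Function.iterate_succ_apply,
      Function.iterate_succ_apply, dl_add, ih]

lemma iter_sh (n a : ℕ) (q : ℕ → ℝ) : dl^[n] (sh a q) = sh a (dl^[n] q) := by
  induction n generalizing q with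
  | zero => rfl
  | succ n ih => rw [Function.iterate_succ_apply, Function.iterate_succ_apply, dl_sh, ih]

lemma cm_nonneg {q : ℕ → ℝ} (h : IsCM q) (j : ℕ) : 0 ≤ q j := h 0 j

lemma cm_dl {q : ℕ → ℝ} (h : IsCM q) : IsCM (dl q) := fun n j => h (n + 1) j

lemma cm_sh {q : ℕ → ℝ} (h : IsCM q) (a : ℕ) : IsCM (sh a q) := by
  intro n j
  rw [iter_sh]
  exact h n (j + a)

lemma cm_add {p q : ℕ → ℝ} (hp : IsCM p) (hq : IsCM q) : IsCM (p + q) := by
  intro n j
  rw [iter_add]
  exact add_nonneg (hp n j) (hq n j)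

lemma cm_antitone {q : ℕ → ℝ} (h : IsCM q) : Antitone q := by
  apply antitone_nat_of_succ_le
  intro n
  have := h 1 n
  simp only [Function.iterate_one] at this
  unfold dl at this
  linarith

lemma cm_sub_sh {q : ℕ → ℝ} (h : IsCM q) (a : ℕ) : IsCM (q - sh a q) := by
  induction a with
  | zero =>
    have : q - sh 0 q = 0 := by
      funext j
      simp [sh]
    rw [this]
    intro n j
    have h0 : (dl^[n] (0 : ℕ → ℝ)) = 0 := by
      induction n with
      | zero => rfl
      | succ n ih =>
        rw [Function.iterate_succ_apply]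
        have : dl (0 : ℕ → ℝ) = 0 := by
          funext j
          simp [dl]
        rw [this, ih]
    rw [h0]
    exact le_refl _
  | succ a ih =>
    have : q - sh (a + 1) q = (q - sh a q) + sh a (dl q) := by
      funext j
      simp only [sh, dl, Pi.sub_apply, Pi.add_apply]
      have : j + (a + 1) = j + a + 1 := by ring
      rw [this]
      ring
    rw [this]
    exact cm_add ih (cm_sh (cm_dl h) a)

/-- `T_ε q = q + ε q(· + a)` -/
def tw (ε : ℝ) (a : ℕ) (q : ℕ → ℝ) : ℕ → ℝ := fun j => q j + ε * q (j + a)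

lemma cm_tw {q : ℕ → ℝ} (h : IsCM q) (ε : ℝ) (hε : ε = 1 ∨ ε = -1) (a : ℕ) :
    IsCM (tw ε a q) := by
  rcases hε with rfl | rfl
  · have : tw 1 a q = q + sh a q := by
      funext j
      simp [tw, sh]
    rw [this]
    exact cm_add h (cm_sh h a)
  · have : tw (-1) a q = q - sh a q := by
      funext j
      simp [tw, sh]
      ring
    rw [this]
    exact cm_sub_sh h a

/-- the operators `T` with shifts `2^(s+1), …, 2^(s+n)` and signs `ε` -/
def tws (ε : ℕ → ℝ) (s : ℕ) : ℕ → (ℕ → ℝ) → (ℕ → ℝ)
  | 0, q => q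
  | n + 1, q => tw (ε (s + 1 + n)) (2 ^ (s + 1 + n)) (tws ε s n q)

lemma cm_tws {q : ℕ → ℝ} (h : IsCM q) (ε : ℕ → ℝ) (hε : ∀ k, ε k = 1 ∨ ε k = -1) (s n : ℕ) :
    IsCM (tws ε s n q) := by
  induction n with
  | zero => exact h
  | succ n ih => exact cm_tw ih _ (hε _) _

/-- the product is bounded below by `1 -` the sum of the shifts -/
lemma tws_lower {q : ℕ → ℝ} (h : IsCM q) (ε : ℕ → ℝ) (hε : ∀ k, ε k = 1 ∨ ε k = -1) (s n : ℕ) :
    ∀ j, q j - ∑ i ∈ range n, q (j + 2 ^ (s + 1 + i)) ≤ tws ε s n q j := by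
  -- compare with all signs equal to `-1`
  have key : ∀ n : ℕ, ∃ p : ℕ → ℝ, IsCM p ∧ IsCM (q - p) ∧ IsCM (tws ε s n q - p) ∧
      ∀ j, q j - ∑ i ∈ range n, q (j + 2 ^ (s + 1 + i)) ≤ p j := by
    intro n
    induction n with
    | zero =>
      refine ⟨q, h, ?_, ?_, ?_⟩
      · have := cm_sub_sh h 0
        have e : sh 0 q = q := by funext j; simp [sh]
        rwa [e] at this
      · have := cm_sub_sh h 0
        have e : sh 0 q = q := by funext j; simp [sh]
        rwa [e] at this
      · intro j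
        simp
    | succ n ih =>
      obtain ⟨p, hp, hqp, hTp, hl⟩ := ih
      refine ⟨p - sh (2 ^ (s + 1 + n)) p, cm_sub_sh hp _, ?_, ?_, ?_⟩
      · have : q - (p - sh (2 ^ (s + 1 + n)) p) = (q - p) + sh (2 ^ (s + 1 + n)) p := by abel
        rw [this]
        exact cm_add hqp (cm_sh hp _)
      · rcases hε (s + 1 + n) with h1 | h1
        · have : tws ε s (n + 1) q - (p - sh (2 ^ (s + 1 + n)) p) =
              (tws ε s n q - p) + (sh (2 ^ (s + 1 + n)) (tws ε s n q) +
                sh (2 ^ (s + 1 + n)) p) := by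
            funext j
            simp only [tws, tw, h1, sh, Pi.sub_apply, Pi.add_apply]
            ring
          rw [this]
          exact cm_add hTp (cm_add (cm_sh (cm_tws h ε hε s n) _) (cm_sh hp _))
        · have : tws ε s (n + 1) q - (p - sh (2 ^ (s + 1 + n)) p) =
              (tws ε s n q - p) - sh (2 ^ (s + 1 + n)) (tws ε s n q - p) := by
            funext j
            simp only [tws, tw, h1, sh, Pi.sub_apply]
            ring
          rw [this]
          exact cm_sub_sh hTp _
      · intro j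
        have h1 := hl j
        have h2 := cm_nonneg hqp (j + 2 ^ (s + 1 + n))
        rw [Finset.sum_range_succ]
        simp only [Pi.sub_apply, sh] at h2 ⊢
        linarith
  intro j
  obtain ⟨p, _, _, hTp, hl⟩ := key n
  have h1 := hl j
  have h2 := cm_nonneg hTp j
  simp only [Pi.sub_apply] at h2
  linarith

end Pool.Agent.Q168.Mono
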