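import Mathlib
import Pool.Agent.Q168.Mono

/-! Walsh-Fourier analysis on `{0,1}^ℕ`: Nörlund means along `2^n` at the endpoint. -/

open MeasureTheory Set Filter Finset
open scoped ENNReal NNReal

noncomputable section

namespace Pool.Agent.Q168.Walsh

open Pool.Agent.Q168.Mono

/-- the group `{0,1}^ℕ` (as a measurable space) -/
abbrev G := ℕ → Bool

/-- the uniform probability measure on `{0,1}` -/
def bit : Measure Bool := (1 / 2 : ℝ≥0∞) • (Measure.dirac false + Measure.dirac true)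

instance : IsProbabilityMeasure bit := by
  constructor
  unfold bit
  rw [Measure.smul_apply, Measure.add_apply, measure_univ, measure_univ, smul_eq_mul]
  norm_num
  exact ENNReal.inv_mul_cancel (by norm_num) (by norm_num)

/-- the product measure -/
def mu : Measure G := Measure.infinitePi fun _ => bit

instance : IsProbabilityMeasure mu := by unfold mu; infer_instance

/-- Rademacher functions -/
def r (k : ℕ) (x : G) : ℝ := if x k then -1 else 1

/-- Walsh functions `w_n = ∏ r_k^{n_k}`, `n = ∑ n_k 2^k` -/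
def w (n : ℕ) (x : G) : ℝ := ∏ k ∈ range n, if n.testBit k then r k x else 1

/-- Martingales with respect to `(F_n)`, `F_n` generated by the cylinders
`I_n(x) = {y : y_j = x_j, j < n}`: `f n` is `F_n`-measurable (it depends only on the coordinates
`< n`) and is the conditional expectation of `f (n+1)` (the average over the two values of the
coordinate `n`). -/
structure IsMart (f : ℕ → G → ℝ) : Prop where
  dep : ∀ n x y, (∀ k < n, x k = y k) → f n x = f n y
  avg : ∀ n x, f n x =
    (f (n + 1) (Function.update x n false) + f (n + 1) (Function.update x n true)) / 2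

/-- Walsh-Fourier coefficients of a martingale -/
def coef (f : ℕ → G → ℝ) (i : ℕ) : ℝ := limUnder atTop fun k => ∫ x, f k x * w i x ∂mu

/-- partial sums `S_k f = ∑_{i<k} f^(i) w_i` -/
def S (f : ℕ → G → ℝ) (k : ℕ) (x : G) : ℝ := ∑ i ∈ range k, coef f i * w i x

/-- the quasi-norm `‖f‖_{H_p} = ‖sup_n |f^{(n)}|‖_p` -/
def hp (p : ℝ) (f : ℕ → G → ℝ) : ℝ≥0∞ := (∫⁻ x, (⨆ n, ‖f n x‖ₑ) ^ p ∂mu) ^ (1 / p)

/-- the quasi-norm `‖g‖_p` -/
def lp (p : ℝ) (g : G → ℝ) : ℝ≥0∞ := (∫⁻ x, ‖g x‖ₑ ^ p ∂mu) ^ (1 / p)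

/-! ### Elementary facts -/

lemma r_sq (k : ℕ) (x : G) : r k x = 1 ∨ r k x = -1 := by
  unfold r
  split_ifs
  · right; rfl
  · left; rfl

lemma abs_r (k : ℕ) (x : G) : |r k x| = 1 := by
  rcases r_sq k x with h | h <;> rw [h] <;> norm_num

lemma r_mul_self (k : ℕ) (x : G) : r k x * r k x = 1 := by
  rcases r_sq k x with h | h <;> rw [h] <;> norm_num

lemma w_eq (n N : ℕ) (h : n < 2 ^ N) (x : G) :
    w n x = ∏ k ∈ range N, if n.testBit k then r k x else 1 := by
  unfold w
  have key : ∀ a b : ℕ, a ≤ b → (n < 2 ^ a) →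
      ∏ k ∈ range a, (if n.testBit k then r k x else 1) =
      ∏ k ∈ range b, (if n.testBit k then r k x else 1) := by
    intro a b hab hna
    apply Finset.prod_subset (Finset.range_mono hab)
    intro k _ hk
    rw [Finset.mem_range, not_lt] at hk
    rw [Nat.testBit_lt_two_pow (lt_of_lt_of_le hna (Nat.pow_le_pow_right (by norm_num) hk))]
    simp
  rw [key n (max n N) (le_max_left _ _) Nat.lt_two_pow_self,
    key N (max n N) (le_max_right _ _) h]

lemma w_add (m l : ℕ) (hl : l < 2 ^ m) (x : G) : w (2 ^ m + l) x = r m x * w l x := by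
  rw [w_eq (2 ^ m + l) (m + 1) (by rw [pow_succ]; omega) x, w_eq l m hl x,
    Finset.prod_range_succ, Nat.testBit_two_pow_add_eq, Nat.testBit_lt_two_pow hl, mul_comm]
  congr 1
  apply Finset.prod_congr rfl
  intro k hk
  rw [Finset.mem_range] at hk
  rw [Nat.testBit_two_pow_add_gt hk]

lemma w_zero_low (m l : ℕ) (hl : l < 2 ^ m) (x : G) (hx : ∀ k < m, x k = false) : w l x = 1 := by
  rw [w_eq l m hl x]
  apply Finset.prod_eq_one
  intro k hk
  rw [Finset.mem_range] at hk
  split_ifs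
  · simp [r, hx k hk]
  · rfl

/-- the sum `∑_{l<2^m} w_l(x) g(2^m-1-l)` -/
def BB (x : G) (m : ℕ) (g : ℕ → ℝ) : ℝ := ∑ l ∈ range (2 ^ m), w l x * g (2 ^ m - 1 - l)

lemma BB_succ (x : G) (m : ℕ) (g : ℕ → ℝ) :
    BB x (m + 1) g = r m x * BB x m (tw (r m x) (2 ^ m) g) := by
  unfold BB
  rw [pow_succ, mul_two, Finset.sum_range_add, Finset.mul_sum, ← Finset.sum_add_distrib]
  apply Finset.sum_congr rfl
  intro l hl
  rw [Finset.mem_range] at hl
  rw [w_add m l hl]
  have e1 : 2 ^ m + 2 ^ m - 1 - l = 2 ^ m - 1 - l + 2 ^ m := by omega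
  have e2 : 2 ^ m + 2 ^ m - 1 - (2 ^ m + l) = 2 ^ m - 1 - l := by omega
  rw [e1, e2]
  unfold tw
  linear_combination (-(w l x * g (2 ^ m - 1 - l + 2 ^ m))) * r_mul_self m x

lemma tw_comm (e e' : ℝ) (a a' : ℕ) (g : ℕ → ℝ) : tw e a (tw e' a' g) = tw e' a' (tw e a g) := by
  funext j
  unfold tw
  have : j + a + a' = j + a' + a := by ring
  rw [this]
  ring

lemma tws_tw (ε : ℕ → ℝ) (s n : ℕ) (e : ℝ) (a : ℕ) (g : ℕ → ℝ) :
    tws ε s n (tw e a g) = tw e a (tws ε s n g) := by
  induction n with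
  | zero => rfl
  | succ n ih => simp only [tws]; rw [ih, tw_comm]

lemma tws_diff (ε : ℕ → ℝ) (s n : ℕ) (f : ℕ → ℝ) :
    tws ε s n (fun j => f (j + 1) - f j) = fun j => tws ε s n f (j + 1) - tws ε s n f j := by
  induction n with
  | zero => rfl
  | succ n ih =>
    simp only [tws]
    rw [ih]
    funext j
    simp only [tw]
    have : j + 2 ^ (s + 1 + n) + 1 = j + 1 + 2 ^ (s + 1 + n) := by ring
    rw [this]
    ring

lemma abs_BB (x : G) (s n : ℕ) (g : ℕ → ℝ) :
    |BB x (s + 1 + n) g| = |BB x (s + 1) (tws (fun k => r k x) s n g)| := by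
  induction n generalizing g with
  | zero => rfl
  | succ n ih =>
    have : s + 1 + (n + 1) = (s + 1 + n) + 1 := by ring
    rw [this, BB_succ, abs_mul, abs_r, one_mul, ih, tws_tw]
    rfl

lemma BB_low (x : G) (s : ℕ) (g : ℕ → ℝ) (hx : ∀ k < s, x k = false) :
    BB x s g = ∑ l ∈ range (2 ^ s), g l := by
  unfold BB
  rw [← Finset.sum_range_reflect g]
  apply Finset.sum_congr rfl
  intro l hl
  rw [Finset.mem_range] at hl
  rw [w_zero_low s l hl x hx, one_mul]

/-- exact value of the kernel at the points with first nonzero coordinate `s` -/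
lemma abs_BB_eq (x : G) (s n : ℕ) (q : ℕ → ℝ) (hq : IsCM q) (hx : ∀ k < s, x k = false)
    (hs : x s = true) :
    |BB x (s + 1 + n) (fun j => ∑ i ∈ range (j + 1), q i)| =
      ∑ l ∈ range (2 ^ s), ∑ i ∈ range (2 ^ s), tws (fun k => r k x) s n (sh 1 q) (l + i) := by
  rw [abs_BB, BB_succ, abs_mul, abs_r, one_mul, BB_low x s _ hx]
  have hr : r s x = -1 := by simp [r, hs]
  set h := tws (fun k => r k x) s n (fun j => ∑ i ∈ range (j + 1), q i) with hh
  have hd : ∀ j, h (j + 1) - h j = tws (fun k => r k x) s n (sh 1 q) j := by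
    intro j
    have h1 := tws_diff (fun k => r k x) s n (fun j => ∑ i ∈ range (j + 1), q i)
    have h2 : (fun j => (∑ i ∈ range (j + 1 + 1), q i) - ∑ i ∈ range (j + 1), q i) = sh 1 q := by
      funext j
      rw [Finset.sum_range_succ, add_sub_cancel_left]
      rfl
    rw [h2] at h1
    rw [h1]
  have h3 : ∀ l, tw (r s x) (2 ^ s) h l =
      -∑ i ∈ range (2 ^ s), tws (fun k => r k x) s n (sh 1 q) (l + i) := by
    intro l
    have h4 : ∑ i ∈ range (2 ^ s), (h (l + i + 1) - h (l + i)) = h (l + 2 ^ s) - h l := by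
      have := Finset.sum_range_sub (fun i => h (l + i)) (2 ^ s)
      simpa [add_assoc] using this
    simp_rw [hd] at h4
    rw [h4, tw, hr]
    ring
  simp_rw [h3]
  rw [Finset.sum_neg_distrib, abs_neg, abs_of_nonneg]
  apply Finset.sum_nonneg
  intro l _
  apply Finset.sum_nonneg
  intro i _
  exact cm_nonneg (cm_tws (cm_sh hq 1) _ (fun k => r_sq k x) s n) _

/-- lower bound for the kernel -/
lemma abs_BB_ge (x : G) (s n c : ℕ) (hc : c ≤ s) (q : ℕ → ℝ) (hq : IsCM q)
    (hx : ∀ k < s, x k = false) (hs : x s = true) (θ a1 a2 : ℝ) (hθ : 0 < θ) (ha1 : 0 < a1)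
    (ha2 : 0 < a2) (hl : ∀ j : ℕ, a1 * ((j : ℝ) + 1) ^ (-θ) ≤ q j)
    (hu : ∀ j : ℕ, q j ≤ a2 * ((j : ℝ) + 1) ^ (-θ))
    (hcc : a2 * ((2 : ℝ) ^ (-θ)) ^ c / (1 - (2 : ℝ) ^ (-θ)) ≤ a1 / 2 * (2 : ℝ) ^ (-θ)) :
    4 ^ (s - c) * (a1 / 2 * ((2 : ℝ) ^ (-θ)) ^ (s - c + 2)) ≤
    |BB x (s + 1 + n) (fun j => ∑ i ∈ range (j + 1), q i)| := by
  set κ : ℝ := (2 : ℝ) ^ (-θ) with hκ
  have hκ0 : 0 < κ := by positivity
  have hκ1 : κ < 1 := Real.rpow_lt_one_of_one_lt_of_neg (by norm_num) (by linarith)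
  rw [abs_BB_eq x s n q hq hx hs]
  set g := tws (fun k => r k x) s n (sh 1 q) with hg
  have hcm : IsCM (sh 1 q) := cm_sh hq 1
  have hg0 : ∀ j, 0 ≤ g j := cm_nonneg (cm_tws hcm _ (fun k => r_sq k x) s n)
  have hpow : ∀ k : ℕ, ((2 : ℝ) ^ k) ^ (-θ) = κ ^ k := by
    intro k
    rw [hκ, ← Real.rpow_natCast, ← Real.rpow_natCast, ← Real.rpow_mul (by norm_num),
      ← Real.rpow_mul (by norm_num), mul_comm]
  -- lower bound of g on the initial segment
  have hgl : ∀ j : ℕ, j ≤ 2 ^ (s - c + 1) → a1 / 2 * κ ^ (s - c + 2) ≤ g j := by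
    intro j hj
    have h1 := tws_lower hcm (fun k => r k x) (fun k => r_sq k x) s n j
    have h2 : a1 * κ ^ (s - c + 2) ≤ sh 1 q j := by
      have h3 : sh 1 q (2 ^ (s - c + 1)) ≤ sh 1 q j := cm_antitone hcm hj
      refine le_trans ?_ h3
      refine le_trans ?_ (hl (2 ^ (s - c + 1) + 1))
      apply mul_le_mul_of_nonneg_left _ ha1.le
      rw [← hpow]
      apply Real.rpow_le_rpow_of_nonpos (by positivity) _ (by linarith)
      push_cast
      have : (2 : ℝ) ^ (s - c + 2) = 2 ^ (s - c + 1) + 2 ^ (s - c + 1) := by ring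
      rw [this]
      have h4 : (2 : ℝ) ≤ 2 ^ (s - c + 1) := by
        have := pow_le_pow_right₀ (one_le_two : (1 : ℝ) ≤ 2) (Nat.le_add_left 1 (s - c))
        simpa using this
      linarith
    have h3 : ∑ i ∈ range n, sh 1 q (j + 2 ^ (s + 1 + i)) ≤ a2 * κ ^ (s + 1) / (1 - κ) := by
      calc ∑ i ∈ range n, sh 1 q (j + 2 ^ (s + 1 + i)) ≤
          ∑ i ∈ range n, a2 * κ ^ (s + 1 + i) := by
            apply Finset.sum_le_sum
            intro i _
            refine (hu (j + 2 ^ (s + 1 + i) + 1)).trans ?_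
            apply mul_le_mul_of_nonneg_left _ ha2.le
            rw [← hpow]
            apply Real.rpow_le_rpow_of_nonpos (by positivity) _ (by linarith)
            push_cast
            have : (0 : ℝ) ≤ j := Nat.cast_nonneg j
            linarith
        _ = a2 * κ ^ (s + 1) * ∑ i ∈ range n, κ ^ i := by
            rw [Finset.mul_sum]
            apply Finset.sum_congr rfl
            intro i _
            rw [pow_add]
            ring
        _ ≤ a2 * κ ^ (s + 1) * (1 / (1 - κ)) := by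
            apply mul_le_mul_of_nonneg_left _ (by positivity)
            rw [geom_sum_eq hκ1.ne, one_div, ← neg_div_neg_eq, neg_sub, neg_sub, div_eq_mul_inv]
            have h5 : 0 < κ ^ n := by positivity
            have h6 : 0 < (1 - κ)⁻¹ := by
              rw [inv_pos]
              linarith
            nlinarith
        _ = _ := by ring
    have h4 : a2 * κ ^ (s + 1) / (1 - κ) ≤ a1 / 2 * κ ^ (s - c + 2) := by
      have e1 : κ ^ (s + 1) = κ ^ c * κ ^ (s - c + 1) := by
        rw [← pow_add]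
        congr 1
        omega
      have e2 : a1 / 2 * κ ^ (s - c + 2) = (a1 / 2 * κ) * κ ^ (s - c + 1) := by ring
      rw [e1, e2]
      have e3 : a2 * (κ ^ c * κ ^ (s - c + 1)) / (1 - κ) =
          (a2 * κ ^ c / (1 - κ)) * κ ^ (s - c + 1) := by ring
      rw [e3]
      exact mul_le_mul_of_nonneg_right hcc (by positivity)
    have h5 : g = tws (fun k => r k x) s n (sh 1 q) := hg
    rw [← h5] at h1
    linarith
  have hsc : 2 ^ (s - c) ≤ 2 ^ s := Nat.pow_le_pow_right (by norm_num) (Nat.sub_le s c)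
  calc 4 ^ (s - c) * (a1 / 2 * κ ^ (s - c + 2)) =
      ∑ _l ∈ range (2 ^ (s - c)), ∑ _i ∈ range (2 ^ (s - c)), (a1 / 2 * κ ^ (s - c + 2)) := by
        rw [Finset.sum_const, Finset.sum_const, Finset.card_range, nsmul_eq_mul, nsmul_eq_mul]
        push_cast
        have : (4 : ℝ) ^ (s - c) = 2 ^ (s - c) * 2 ^ (s - c) := by
          rw [← mul_pow]
          norm_num
        rw [this]
        ring
    _ ≤ ∑ l ∈ range (2 ^ (s - c)), ∑ i ∈ range (2 ^ (s - c)), g (l + i) := by
        apply Finset.sum_le_sum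
        intro l hl'
        apply Finset.sum_le_sum
        intro i hi
        rw [Finset.mem_range] at hl' hi
        apply hgl
        have : 2 ^ (s - c + 1) = 2 ^ (s - c) + 2 ^ (s - c) := by ring
        omega
    _ ≤ ∑ l ∈ range (2 ^ (s - c)), ∑ i ∈ range (2 ^ s), g (l + i) := by
        apply Finset.sum_le_sum
        intro l _
        apply Finset.sum_le_sum_of_subset_of_nonneg (Finset.range_mono hsc)
        intro i _ _
        exact hg0 _
    _ ≤ _ := by
        apply Finset.sum_le_sum_of_subset_of_nonneg (Finset.range_mono hsc)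
        intro l _ _
        exact Finset.sum_nonneg fun i _ => hg0 _

end Pool.Agent.Q168.Walsh
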