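import Mathlib
import Pool.Agent.Q168.Walsh

/-! Walsh-Fourier analysis on `{0,1}^ℕ`: the test martingale. -/

open MeasureTheory Set Filter Finset
open scoped ENNReal NNReal

noncomputable section

namespace Pool.Agent.Q168.Walsh

open Pool.Agent.Q168.Mono

/-- `I_m(0)` -/
def I0 (m : ℕ) : Set G := {x | ∀ k < m, x k = false}

/-- `{x : x_k = 0 (k < s), x_s = b}` -/
def Bs (s : ℕ) (b : Bool) : Set G := {x | (∀ k < s, x k = false) ∧ x s = b}

lemma bit_singleton (b : Bool) : bit {b} = 1 / 2 := by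
  unfold bit
  rw [Measure.smul_apply, Measure.add_apply]
  cases b <;> simp

lemma measurableSet_pi_range (m : ℕ) (t : ℕ → Set Bool) :
    MeasurableSet (((Finset.range m : Finset ℕ) : Set ℕ).pi t) :=
  MeasurableSet.pi (Set.to_countable _) fun _ _ => MeasurableSet.of_discrete

lemma I0_eq (m : ℕ) : I0 m = ((Finset.range m : Finset ℕ) : Set ℕ).pi fun _ => {false} := by
  ext x
  simp [I0, Set.mem_pi]

lemma Bs_eq (s : ℕ) (b : Bool) :
    Bs s b = ((Finset.range (s + 1) : Finset ℕ) : Set ℕ).pi fun k => if k = s then {b} else {false} := by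
  ext x
  simp only [Bs, Set.mem_ofPred_eq, Set.mem_pi, Finset.coe_range, Set.mem_Iio]
  constructor
  · rintro ⟨h1, h2⟩ i hi
    split_ifs with h
    · subst h; exact h2
    · exact h1 i (by omega)
  · intro h
    refine ⟨fun k hk => ?_, ?_⟩
    · have := h k (by omega)
      rw [if_neg (by omega)] at this
      exact this
    · have := h s (by omega)
      rw [if_pos rfl] at this
      exact this

lemma measurableSet_I0 (m : ℕ) : MeasurableSet (I0 m) := by
  rw [I0_eq]; exact measurableSet_pi_range _ _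

lemma measurableSet_Bs (s : ℕ) (b : Bool) : MeasurableSet (Bs s b) := by
  rw [Bs_eq]; exact measurableSet_pi_range _ _

lemma mu_I0 (m : ℕ) : mu (I0 m) = (1 / 2) ^ m := by
  rw [I0_eq, mu, Measure.infinitePi_pi]
  · simp only [bit_singleton]
    rw [Finset.prod_const, Finset.card_range]
  · intro i _
    exact MeasurableSet.of_discrete

lemma mu_Bs (s : ℕ) (b : Bool) : mu (Bs s b) = (1 / 2) ^ (s + 1) := by
  rw [Bs_eq, mu, Measure.infinitePi_pi]
  · have : ∀ k ∈ range (s + 1), bit (if k = s then {b} else {false}) = 1 / 2 := by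
      intro k _
      split_ifs <;> exact bit_singleton _
    rw [Finset.prod_congr rfl this, Finset.prod_const, Finset.card_range]
  · intro i _
    exact MeasurableSet.of_discrete

/-- the function `2^m r_m 1_{I_m(0)}` -/
def F (m : ℕ) (x : G) : ℝ := (I0 m).indicator (fun x => r m x * 2 ^ m) x

/-- the corresponding martingale -/
def tf (m n : ℕ) (x : G) : ℝ := if n ≤ m then 0 else F m x

lemma r_congr {m : ℕ} {x y : G} (h : x m = y m) : r m x = r m y := by
  unfold r; rw [h]

lemma F_congr {m : ℕ} {x y : G} (h : ∀ k ≤ m, x k = y k) : F m x = F m y := by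
  unfold F
  by_cases hx : x ∈ I0 m
  · have hy : y ∈ I0 m := fun k hk => by rw [← h k hk.le]; exact hx k hk
    rw [Set.indicator_of_mem hx, Set.indicator_of_mem hy, r_congr (h m le_rfl)]
  · have hy : y ∉ I0 m := fun hy => hx fun k hk => by rw [h k hk.le]; exact hy k hk
    rw [Set.indicator_of_notMem hx, Set.indicator_of_notMem hy]

lemma isMart_tf (m : ℕ) : IsMart (tf m) := by
  constructor
  · intro n x y h
    unfold tf
    split_ifs with hn
    · rfl
    · exact F_congr fun k hk => h k (by omega)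
  · intro n x
    unfold tf
    rcases lt_trichotomy n m with hn | hn | hn
    · rw [if_pos hn.le, if_pos (by omega), if_pos (by omega)]
      norm_num
    · subst hn
      rw [if_pos le_rfl, if_neg (by omega), if_neg (by omega)]
      have key : F n (Function.update x n false) = -F n (Function.update x n true) := by
        have hm : Function.update x n false ∈ I0 n ↔ Function.update x n true ∈ I0 n := by
          constructor
          · intro h k hk
            have := h k hk
            rw [Function.update_of_ne hk.ne] at this ⊢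
            exact this
          · intro h k hk
            have := h k hk
            rw [Function.update_of_ne hk.ne] at this ⊢
            exact this
        unfold F
        by_cases h1 : Function.update x n false ∈ I0 n
        · rw [Set.indicator_of_mem h1, Set.indicator_of_mem (hm.1 h1)]
          simp [r]
        · rw [Set.indicator_of_notMem h1, Set.indicator_of_notMem (fun h => h1 (hm.2 h))]
          simp
      rw [key]
      ring
    · rw [if_neg (by omega), if_neg (by omega), if_neg (by omega)]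
      have h1 : ∀ b, F m (Function.update x n b) = F m x := by
        intro b
        apply F_congr
        intro k hk
        rw [Function.update_of_ne (by omega)]
      rw [h1, h1]
      ring

lemma coef_tf_eq (m i : ℕ) : coef (tf m) i = ∫ x, F m x * w i x ∂mu := by
  unfold coef
  apply Tendsto.limUnder_eq
  apply tendsto_const_nhds.congr'
  filter_upwards [eventually_ge_atTop (m + 1)] with k hk
  have : ∀ x, tf m k x = F m x := by
    intro x
    unfold tf
    rw [if_neg (by omega)]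
  simp_rw [this]

lemma half_pow (k : ℕ) : ((1 / 2 : ℝ≥0∞) ^ k).toReal = (1 / 2 : ℝ) ^ k := by
  rw [ENNReal.toReal_pow]
  norm_num

lemma coef_low (m i : ℕ) (hi : i < 2 ^ m) : coef (tf m) i = 0 := by
  rw [coef_tf_eq]
  have h : ∀ x, F m x * w i x = (Bs m false).indicator (fun _ => (2 : ℝ) ^ m) x -
      (Bs m true).indicator (fun _ => (2 : ℝ) ^ m) x := by
    intro x
    unfold F
    by_cases hx : x ∈ I0 m
    · rw [Set.indicator_of_mem hx, w_zero_low m i hi x hx]
      cases hb : x m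
      · rw [Set.indicator_of_mem (show x ∈ Bs m false from ⟨hx, hb⟩),
          Set.indicator_of_notMem (fun h : x ∈ Bs m true => by rw [h.2] at hb; exact absurd hb (by decide))]
        simp [r, hb]
      · rw [Set.indicator_of_notMem (fun h : x ∈ Bs m false => by rw [h.2] at hb; exact absurd hb (by decide)),
          Set.indicator_of_mem (show x ∈ Bs m true from ⟨hx, hb⟩)]
        simp [r, hb]
    · rw [Set.indicator_of_notMem hx, Set.indicator_of_notMem (fun h : x ∈ Bs m false => hx h.1),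
        Set.indicator_of_notMem (fun h : x ∈ Bs m true => hx h.1)]
      simp
  simp_rw [h]
  rw [integral_sub, integral_indicator_const _ (measurableSet_Bs _ _),
    integral_indicator_const _ (measurableSet_Bs _ _)]
  · unfold Measure.real
    rw [mu_Bs, mu_Bs, sub_self]
  · exact (integrable_const _).indicator (measurableSet_Bs _ _)
  · exact (integrable_const _).indicator (measurableSet_Bs _ _)

lemma coef_high (m l : ℕ) (hl : l < 2 ^ m) : coef (tf m) (2 ^ m + l) = 1 := by
  rw [coef_tf_eq]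
  have h : ∀ x, F m x * w (2 ^ m + l) x = (I0 m).indicator (fun _ => (2 : ℝ) ^ m) x := by
    intro x
    unfold F
    by_cases hx : x ∈ I0 m
    · rw [Set.indicator_of_mem hx, Set.indicator_of_mem hx, w_add m l hl x,
        w_zero_low m l hl x hx]
      linear_combination (2 : ℝ) ^ m * r_mul_self m x
    · rw [Set.indicator_of_notMem hx, Set.indicator_of_notMem hx, zero_mul]
  simp_rw [h]
  rw [integral_indicator_const _ (measurableSet_I0 _)]
  unfold Measure.real
  rw [mu_I0, half_pow, smul_eq_mul, ← mul_pow]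
  norm_num

lemma S_low (m k : ℕ) (hk : k ≤ 2 ^ m) (x : G) : S (tf m) k x = 0 := by
  unfold S
  apply Finset.sum_eq_zero
  intro i hi
  rw [Finset.mem_range] at hi
  rw [coef_low m i (by omega), zero_mul]

lemma S_high (m j : ℕ) (hj : j ≤ 2 ^ m) (x : G) :
    S (tf m) (2 ^ m + j) x = r m x * ∑ l ∈ range j, w l x := by
  unfold S
  rw [Finset.sum_range_add]
  have h0 : ∑ i ∈ range (2 ^ m), coef (tf m) i * w i x = 0 := by
    have := S_low m (2 ^ m) le_rfl x
    exact this
  rw [h0, zero_add, Finset.mul_sum]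
  apply Finset.sum_congr rfl
  intro l hl
  rw [Finset.mem_range] at hl
  rw [coef_high m l (by omega), one_mul, w_add m l (by omega)]

lemma sum_swap (M : ℕ) (a b : ℕ → ℝ) :
    ∑ k ∈ range M, ∑ l ∈ range (k + 1), a l * b (M - 1 - k) =
      ∑ l ∈ range M, a l * ∑ i ∈ range (M - 1 - l + 1), b i := by
  simp_rw [Finset.mul_sum]
  rw [Finset.sum_sigma', Finset.sum_sigma']
  apply Finset.sum_nbij' (fun z => (⟨z.2, M - 1 - z.1⟩ : (_ : ℕ) × ℕ))
    (fun z => (⟨M - 1 - z.2, z.1⟩ : (_ : ℕ) × ℕ))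
  · rintro ⟨k, l⟩ h
    simp only [Finset.mem_sigma, Finset.mem_range] at h ⊢
    omega
  · rintro ⟨l, i⟩ h
    simp only [Finset.mem_sigma, Finset.mem_range] at h ⊢
    omega
  · rintro ⟨k, l⟩ h
    simp only [Finset.mem_sigma, Finset.mem_range] at h
    have : M - 1 - (M - 1 - k) = k := by omega
    simp only [this]
  · rintro ⟨l, i⟩ h
    simp only [Finset.mem_sigma, Finset.mem_range] at h
    have : M - 1 - (M - 1 - i) = i := by omega
    simp only [this]
  · rintro ⟨k, l⟩ _
    rfl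

/-- the sum `∑_{k=1}^N q_{N-k} S_k f` -/
def NS (q : ℕ → ℝ) (f : ℕ → G → ℝ) (N : ℕ) (x : G) : ℝ :=
  ∑ k ∈ Finset.Icc 1 N, q (N - k) * S f k x

lemma NS_tf (q : ℕ → ℝ) (m : ℕ) (x : G) :
    NS q (tf m) (2 ^ (m + 1)) x = r m x * BB x m (fun j => ∑ i ∈ range (j + 1), q i) := by
  have h1 : NS q (tf m) (2 ^ (m + 1)) x =
      ∑ k ∈ range (2 ^ (m + 1)), q (2 ^ (m + 1) - (k + 1)) * S (tf m) (k + 1) x := by
    unfold NS
    have e : Finset.Icc 1 (2 ^ (m + 1)) = Finset.Ico 1 (2 ^ (m + 1) + 1) := by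
      ext a
      simp only [Finset.mem_Icc, Finset.mem_Ico]
      omega
    rw [e, Finset.sum_Ico_eq_sum_range]
    simp only [Nat.add_sub_cancel, add_comm 1]
  rw [h1, pow_succ, mul_two, Finset.sum_range_add]
  have h2 : ∑ k ∈ range (2 ^ m), q (2 ^ m + 2 ^ m - (k + 1)) * S (tf m) (k + 1) x = 0 := by
    apply Finset.sum_eq_zero
    intro k hk
    rw [Finset.mem_range] at hk
    rw [S_low m (k + 1) (by omega), mul_zero]
  rw [h2, zero_add]
  have h3 : ∀ k ∈ range (2 ^ m), q (2 ^ m + 2 ^ m - (2 ^ m + k + 1)) * S (tf m) (2 ^ m + k + 1) x =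
      r m x * ∑ l ∈ range (k + 1), w l x * q (2 ^ m - 1 - k) := by
    intro k hk
    rw [Finset.mem_range] at hk
    have e1 : 2 ^ m + 2 ^ m - (2 ^ m + k + 1) = 2 ^ m - 1 - k := by omega
    rw [e1, add_assoc, S_high m (k + 1) (by omega), Finset.mul_sum, Finset.mul_sum, Finset.mul_sum]
    apply Finset.sum_congr rfl
    intro l _
    ring
  rw [Finset.sum_congr rfl h3, ← Finset.mul_sum]
  congr 1
  unfold BB
  exact sum_swap (2 ^ m) (fun l => w l x) q

/-! ### the quasi-norms -/

lemma enorm_F (m : ℕ) (x : G) : ‖F m x‖ₑ = (I0 m).indicator (fun _ => (2 : ℝ≥0∞) ^ m) x := by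
  unfold F
  by_cases hx : x ∈ I0 m
  · rw [Set.indicator_of_mem hx, Set.indicator_of_mem hx, enorm_mul]
    have h1 : ‖r m x‖ₑ = 1 := by
      rw [← ofReal_norm, Real.norm_eq_abs, abs_r, ENNReal.ofReal_one]
    have h2 : ‖(2 : ℝ) ^ m‖ₑ = 2 ^ m := by
      rw [← ofReal_norm, Real.norm_eq_abs, abs_of_nonneg (by positivity),
        ENNReal.ofReal_pow (by norm_num)]
      norm_num
    rw [h1, h2, one_mul]
  · rw [Set.indicator_of_notMem hx, Set.indicator_of_notMem hx, enorm_zero]

lemma sup_tf (m : ℕ) (x : G) : (⨆ n, ‖tf m n x‖ₑ) = ‖F m x‖ₑ := by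
  apply le_antisymm
  · apply iSup_le
    intro n
    unfold tf
    split_ifs
    · simp
    · exact le_rfl
  · refine le_trans ?_ (le_iSup _ (m + 1))
    unfold tf
    rw [if_neg (by omega)]

lemma hp_tf (p : ℝ) (hp0 : 0 < p) (m : ℕ) :
    hp p (tf m) = ENNReal.ofReal ((2 : ℝ) ^ (((m : ℝ) * p - m) / p)) := by
  unfold hp
  simp_rw [sup_tf, enorm_F]
  have h1 : ∀ x, ((I0 m).indicator (fun _ => (2 : ℝ≥0∞) ^ m) x) ^ p =
      (I0 m).indicator (fun _ => ((2 : ℝ≥0∞) ^ m) ^ p) x := by
    intro x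
    by_cases hx : x ∈ I0 m
    · rw [Set.indicator_of_mem hx, Set.indicator_of_mem hx]
    · rw [Set.indicator_of_notMem hx, Set.indicator_of_notMem hx, ENNReal.zero_rpow_of_pos hp0]
  simp_rw [h1]
  rw [lintegral_indicator_const (measurableSet_I0 m), mu_I0]
  have e1 : ((2 : ℝ≥0∞) ^ m) ^ p = ENNReal.ofReal ((2 : ℝ) ^ ((m : ℝ) * p)) := by
    rw [← ENNReal.rpow_natCast, ← ENNReal.rpow_mul, ← ENNReal.ofReal_rpow_of_pos (by norm_num)]
    norm_num
  have e2 : (1 / 2 : ℝ≥0∞) ^ m = ENNReal.ofReal ((2 : ℝ) ^ (-(m : ℝ))) := by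
    rw [Real.rpow_neg (by norm_num), Real.rpow_natCast, one_div, ← ENNReal.inv_pow,
      ENNReal.ofReal_inv_of_pos (by positivity), ENNReal.ofReal_pow (by norm_num)]
    norm_num
  rw [e1, e2, ← ENNReal.ofReal_mul (by positivity), ← Real.rpow_add (by norm_num),
    ENNReal.ofReal_rpow_of_pos (by positivity), ← Real.rpow_mul (by norm_num)]
  congr 2
  ring

/-- **main estimate** -/
theorem main (α : ℝ) (h0 : 0 < α) (h1 : α < 1) (q : ℕ → ℝ) (hq : IsCM q) (a1 a2 a3 : ℝ)
    (ha1 : 0 < a1) (ha2 : 0 < a2) (ha3 : 0 < a3)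
    (hl : ∀ j : ℕ, a1 * ((j : ℝ) + 1) ^ (α - 1) ≤ q j)
    (hu : ∀ j : ℕ, q j ≤ a2 * ((j : ℝ) + 1) ^ (α - 1))
    (D : ℕ → ℝ) (hD0 : ∀ n : ℕ, 1 ≤ n → 0 < D n)
    (hD : ∀ n : ℕ, 1 ≤ n → D n ≤ a3 * (n : ℝ) ^ α) (C : ℝ≥0) :
    ∃ f : ℕ → G → ℝ, IsMart f ∧ hp (1 / (1 + α)) f ≠ ∞ ∧
      ∃ n : ℕ, C * hp (1 / (1 + α)) f <
        lp (1 / (1 + α)) fun x => (D (2 ^ n))⁻¹ * NS q f (2 ^ n) x := by
  set p : ℝ := 1 / (1 + α) with hp
  have hp0 : 0 < p := by positivity
  have hpα : (1 + α) * p = 1 := by rw [hp]; field_simp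
  set κ : ℝ := (2 : ℝ) ^ (-(1 - α)) with hκ
  have hκ0 : 0 < κ := by positivity
  have hκ1 : κ < 1 := Real.rpow_lt_one_of_one_lt_of_neg (by norm_num) (by linarith)
  have hθ : -(1 - α) = α - 1 := by ring
  -- choose c
  obtain ⟨c, hc⟩ : ∃ c : ℕ, a2 * κ ^ c / (1 - κ) ≤ a1 / 2 * κ := by
    have : Tendsto (fun c : ℕ => a2 * κ ^ c / (1 - κ)) atTop (nhds (a2 * 0 / (1 - κ))) :=
      ((tendsto_pow_atTop_nhds_zero_of_lt_one hκ0.le hκ1).const_mul a2).div_const _
    rw [mul_zero, zero_div] at this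
    have h2 := this.eventually (gt_mem_nhds (show (0 : ℝ) < a1 / 2 * κ by positivity))
    obtain ⟨c, hc⟩ := h2.exists
    exact ⟨c, hc.le⟩
  set E : ℝ := a1 / 2 * κ ^ 2 / a3 with hE
  have hE0 : 0 < E := by positivity
  -- the lower bound of the p-th power
  have key : ∀ m : ℕ, ENNReal.ofReal ((2 : ℝ) ^ ((m : ℝ) * p - m) *
      (((m - c : ℕ) : ℝ) * (2 ^ (-(c : ℝ) - 1) * E ^ p * 2 ^ (-(α * p))))) ≤
      ∫⁻ x, ‖(D (2 ^ (m + 1)))⁻¹ * NS q (tf m) (2 ^ (m + 1)) x‖ₑ ^ p ∂mu := by
    intro m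
    have hdisj : Set.PairwiseDisjoint (↑(Finset.Ico c m)) (fun s => Bs s true) := by
      intro s _ t _ hst
      rw [Function.onFun, Set.disjoint_left]
      rintro x ⟨h1, h2⟩ ⟨h3, h4⟩
      rcases lt_or_gt_of_ne hst with h | h
      · rw [h3 s h] at h2; exact absurd h2 (by decide)
      · rw [h1 t h] at h4; exact absurd h4 (by decide)
    refine le_trans ?_ (setLIntegral_le_lintegral (⋃ s ∈ Finset.Ico c m, Bs s true) _)
    rw [lintegral_biUnion_finset hdisj (fun s _ => measurableSet_Bs s true)]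
    have hterm : ∀ s ∈ Finset.Ico c m,
        ENNReal.ofReal ((2 : ℝ) ^ ((m : ℝ) * p - m) * (2 ^ (-(c : ℝ) - 1) * E ^ p * 2 ^ (-(α * p)))) ≤
        ∫⁻ x in Bs s true, ‖(D (2 ^ (m + 1)))⁻¹ * NS q (tf m) (2 ^ (m + 1)) x‖ₑ ^ p ∂mu := by
      intro s hs
      rw [Finset.mem_Ico] at hs
      set V : ℝ := (a3 * ((2 : ℝ) ^ (m + 1)) ^ α)⁻¹ * (4 ^ (s - c) * (a1 / 2 * κ ^ (s - c + 2)))
        with hV
      have hV0 : 0 < V := by positivity
      have hb : ∀ x ∈ Bs s true, ENNReal.ofReal (V ^ p) ≤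
          ‖(D (2 ^ (m + 1)))⁻¹ * NS q (tf m) (2 ^ (m + 1)) x‖ₑ ^ p := by
        intro x hx
        rw [← ENNReal.ofReal_rpow_of_pos hV0]
        apply ENNReal.rpow_le_rpow _ hp0.le
        rw [← ofReal_norm]
        apply ENNReal.ofReal_le_ofReal
        rw [Real.norm_eq_abs, abs_mul, NS_tf, abs_mul, abs_r, one_mul, abs_inv]
        have hk := abs_BB_ge x s (m - s - 1) c hs.1 q hq hx.1 hx.2 (1 - α) a1 a2 (by linarith)
          ha1 ha2 (by rw [hθ]; exact hl) (by rw [hθ]; exact hu) hc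
        have e : s + 1 + (m - s - 1) = m := by omega
        rw [e] at hk
        have hDp := hD0 (2 ^ (m + 1)) (Nat.one_le_two_pow)
        have hDu := hD (2 ^ (m + 1)) (Nat.one_le_two_pow)
        push_cast at hDu
        rw [abs_of_pos hDp, hV]
        apply mul_le_mul _ hk (by positivity) (by positivity)
        exact inv_anti₀ hDp hDu
      have h2 : ENNReal.ofReal (V ^ p) * mu (Bs s true) ≤
          ∫⁻ x in Bs s true, ‖(D (2 ^ (m + 1)))⁻¹ * NS q (tf m) (2 ^ (m + 1)) x‖ₑ ^ p ∂mu := by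
        rw [← setLIntegral_const]
        exact setLIntegral_mono' (measurableSet_Bs s true) hb
      refine le_trans (le_of_eq ?_) h2
      rw [mu_Bs]
      have e2 : (1 / 2 : ℝ≥0∞) ^ (s + 1) = ENNReal.ofReal ((2 : ℝ) ^ (-((s : ℝ) + 1))) := by
        rw [Real.rpow_neg (by norm_num)]
        have : (s : ℝ) + 1 = ((s + 1 : ℕ) : ℝ) := by push_cast; ring
        rw [this, Real.rpow_natCast, one_div, ← ENNReal.inv_pow,
          ENNReal.ofReal_inv_of_pos (by positivity), ENNReal.ofReal_pow (by norm_num)]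
        norm_num
      rw [e2, ← ENNReal.ofReal_mul (by positivity)]
      congr 1
      -- real identity
      have e3 : V = E * (4 * κ) ^ (s - c) * 2 ^ (-(((m : ℝ) + 1) * α)) := by
        rw [hV, hE]
        have : ((2 : ℝ) ^ (m + 1)) ^ α = (2 ^ (-(((m : ℝ) + 1) * α)))⁻¹ := by
          rw [Real.rpow_neg (by norm_num), inv_inv, ← Real.rpow_natCast, ← Real.rpow_mul (by norm_num)]
          push_cast
          rfl
        rw [this, mul_pow, pow_add]
        have h9 : (0 : ℝ) < 2 ^ (-(((m : ℝ) + 1) * α)) := by positivity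
        field_simp
      have e4 : (4 * κ) = (2 : ℝ) ^ (1 + α) := by
        rw [hκ]
        have : (4 : ℝ) = 2 ^ (2 : ℝ) := by norm_num
        rw [this, ← Real.rpow_add (by norm_num)]
        congr 1
        ring
      rw [e3, e4, Real.mul_rpow (by positivity) (by positivity),
        Real.mul_rpow (by positivity) (by positivity)]
      have e5 : (((2 : ℝ) ^ (1 + α)) ^ (s - c)) ^ p = 2 ^ ((s : ℝ) - c) := by
        rw [← Real.rpow_natCast, ← Real.rpow_mul (by positivity), ← Real.rpow_mul (by positivity),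
          Nat.cast_sub hs.1]
        congr 1
        linear_combination ((s : ℝ) - c) * hpα
      have e6 : ((2 : ℝ) ^ (-(((m : ℝ) + 1) * α))) ^ p = 2 ^ (-(((m : ℝ) + 1) * α) * p) := by
        rw [← Real.rpow_mul (by norm_num)]
      rw [e5, e6]
      have e7 : E ^ p * (2 : ℝ) ^ ((s : ℝ) - c) * 2 ^ (-(((m : ℝ) + 1) * α) * p) *
          2 ^ (-((s : ℝ) + 1)) = E ^ p * (2 ^ ((s : ℝ) - c) * 2 ^ (-(((m : ℝ) + 1) * α) * p) *
          2 ^ (-((s : ℝ) + 1))) := by ring
      have e8 : (2 : ℝ) ^ ((m : ℝ) * p - m) * (2 ^ (-(c : ℝ) - 1) * E ^ p * 2 ^ (-(α * p))) =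
          E ^ p * (2 ^ ((m : ℝ) * p - m) * 2 ^ (-(c : ℝ) - 1) * 2 ^ (-(α * p))) := by ring
      rw [e7, e8, ← Real.rpow_add (by norm_num), ← Real.rpow_add (by norm_num),
        ← Real.rpow_add (by norm_num), ← Real.rpow_add (by norm_num)]
      congr 2
      linear_combination (m : ℝ) * hpα
    calc _ = ∑ s ∈ Finset.Ico c m, ENNReal.ofReal ((2 : ℝ) ^ ((m : ℝ) * p - m) *
          (2 ^ (-(c : ℝ) - 1) * E ^ p * 2 ^ (-(α * p)))) := by
          rw [Finset.sum_const, Nat.card_Ico, nsmul_eq_mul, ← ENNReal.ofReal_natCast,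
            ← ENNReal.ofReal_mul (by positivity)]
          congr 1
          ring
      _ ≤ _ := Finset.sum_le_sum hterm
  set e : ℝ := 2 ^ (-(c : ℝ) - 1) * E ^ p * 2 ^ (-(α * p)) with he
  have he0 : 0 < e := by positivity
  obtain ⟨N, hN⟩ := exists_nat_gt ((C : ℝ) ^ p / e)
  refine ⟨tf (c + N), isMart_tf _, ?_, c + N + 1, ?_⟩
  · rw [hp_tf p hp0]
    exact ENNReal.ofReal_ne_top
  · have hk := key (c + N)
    rw [Nat.add_sub_cancel_left] at hk
    unfold lp
    rw [hp_tf p hp0]
    have h3 : (C : ℝ≥0∞) * ENNReal.ofReal ((2 : ℝ) ^ ((((c + N : ℕ) : ℝ) * p - (c + N : ℕ)) / p)) <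
        (ENNReal.ofReal ((2 : ℝ) ^ (((c + N : ℕ) : ℝ) * p - (c + N : ℕ)) * ((N : ℝ) * e))) ^ (1 / p) := by
      rw [ENNReal.ofReal_rpow_of_pos (by
        have : 0 ≤ (C : ℝ) ^ p / e := by positivity
        have hN0 : (0 : ℝ) < N := lt_of_le_of_lt this hN
        positivity)]
      have hC : (C : ℝ≥0∞) = ENNReal.ofReal (C : ℝ) := by simp
      rw [hC, ← ENNReal.ofReal_mul (by positivity), ENNReal.ofReal_lt_ofReal_iff_of_nonneg (by positivity)]
      have hA : (((c + N : ℕ) : ℝ) * p - (c + N : ℕ)) / p =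
        (((c + N : ℕ) : ℝ) * p - (c + N : ℕ)) * (1 / p) := by ring
      rw [Real.mul_rpow (by positivity) (by positivity), ← Real.rpow_mul (by norm_num), hA,
        mul_comm (C : ℝ)]
      apply mul_lt_mul_of_pos_left _ (by positivity)
      rw [div_lt_iff₀ he0] at hN
      have : (C : ℝ) = ((C : ℝ) ^ p) ^ (1 / p) := by
        rw [← Real.rpow_mul C.coe_nonneg, mul_one_div_cancel hp0.ne', Real.rpow_one]
      rw [this]
      exact Real.rpow_lt_rpow (by positivity) hN (by positivity)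
    exact lt_of_lt_of_le h3 (ENNReal.rpow_le_rpow hk (by positivity))

end Pool.Agent.Q168.Walsh
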